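import Mathlib

/-!
# The addition on `y² = x³ + A x + B` in the coordinates `t = -x / y`, `w = -1 / y`
-/

set_option autoImplicit false

namespace Pool.Agent.Helper316_PR

variable {K : Type*} [Field K]

/-- the equation in the coordinates `t`, `w` -/
lemma tw_eqn {A B x y t w : K} (e : y ^ 2 = x ^ 3 + A * x + B) (hy : y ≠ 0) (ht : t * y = -x)
    (hw : w * y = -1) : w = t ^ 3 + A * t * w ^ 2 + B * w ^ 3 := by
  have h3 : y ^ 3 ≠ 0 := pow_ne_zero 3 hy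
  apply mul_right_cancel₀ h3
  have e1 : w * y ^ 3 = -(y ^ 2) := by
    linear_combination y ^ 2 * hw
  have e2 : (t ^ 3 + A * t * w ^ 2 + B * w ^ 3) * y ^ 3 =
      (t * y) ^ 3 + A * (t * y) * (w * y) ^ 2 + B * (w * y) ^ 3 := by ring
  rw [e1, e2, hw, ht]
  linear_combination -e

/-- the slope in the coordinates `t`, `w` -/
lemma tw_slope {A B t₁ w₁ t₂ w₂ : K} (e₁ : w₁ = t₁ ^ 3 + A * t₁ * w₁ ^ 2 + B * w₁ ^ 3)
    (e₂ : w₂ = t₂ ^ 3 + A * t₂ * w₂ ^ 2 + B * w₂ ^ 3) :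
    (w₁ - w₂) * (1 - A * t₂ * (w₁ + w₂) - B * (w₁ ^ 2 + w₁ * w₂ + w₂ ^ 2)) =
      (t₁ - t₂) * (t₁ ^ 2 + t₁ * t₂ + t₂ ^ 2 + A * w₁ ^ 2) := by
  linear_combination e₁ - e₂

/-- The addition formula. -/
theorem t_add {A B x₁ y₁ x₂ y₂ t₁ w₁ t₂ w₂ l n : K} (e₁ : y₁ ^ 2 = x₁ ^ 3 + A * x₁ + B)
    (e₂ : y₂ ^ 2 = x₂ ^ 3 + A * x₂ + B) (hx : x₁ ≠ x₂) (hy₁ : y₁ ≠ 0) (hy₂ : y₂ ≠ 0)
    (ht₁ : t₁ * y₁ = -x₁) (hw₁ : w₁ * y₁ = -1) (ht₂ : t₂ * y₂ = -x₂) (hw₂ : w₂ * y₂ = -1)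
    (hd₁ : 1 - A * t₂ * (w₁ + w₂) - B * (w₁ ^ 2 + w₁ * w₂ + w₂ ^ 2) ≠ 0)
    (hl : l * (1 - A * t₂ * (w₁ + w₂) - B * (w₁ ^ 2 + w₁ * w₂ + w₂ ^ 2)) =
      t₁ ^ 2 + t₁ * t₂ + t₂ ^ 2 + A * w₁ ^ 2)
    (hn : n = w₁ - l * t₁) (hd₂ : 1 + A * l ^ 2 + B * l ^ 3 ≠ 0) (s x₃ y₃ : K)
    (hs : s * (x₁ - x₂) = y₁ - y₂) (h₃ : x₃ = s ^ 2 - x₁ - x₂)
    (hy₃ : y₃ = -(s * (x₃ - x₁) + y₁)) :
    y₃ ≠ 0 ∧ ∀ t₃ : K, t₃ * y₃ = -x₃ →
      t₃ * (1 + A * l ^ 2 + B * l ^ 3) =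
        (t₁ + t₂) * (1 + A * l ^ 2 + B * l ^ 3) + 2 * A * l * n + 3 * B * l ^ 2 * n := by
  have g₁ := tw_eqn e₁ hy₁ ht₁ hw₁
  have g₂ := tw_eqn e₂ hy₂ ht₂ hw₂
  have hsl := tw_slope g₁ g₂
  have hx' : x₁ - x₂ ≠ 0 := sub_ne_zero.2 hx
  -- the slope
  have hw : w₁ - w₂ = l * (t₁ - t₂) := by
    apply mul_right_cancel₀ hd₁
    rw [hsl]
    linear_combination (-(t₁ - t₂)) * hl
  -- `t₁ ≠ t₂`
  have htne : t₁ - t₂ ≠ 0 := by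
    intro h
    rw [h, mul_zero] at hw
    apply hx'
    have hw' : w₁ = w₂ := sub_eq_zero.1 hw
    have ht' : t₁ = t₂ := sub_eq_zero.1 h
    have hy' : y₁ = y₂ := by
      have hw0 : w₁ ≠ 0 := by
        rintro rfl
        rw [zero_mul] at hw₁
        exact one_ne_zero (neg_eq_zero.1 hw₁.symm)
      apply mul_left_cancel₀ hw0
      rw [hw₁, hw', hw₂]
    linear_combination ht₁ - ht₂ - y₁ * ht' - t₂ * hy'
  obtain ⟨c, hc⟩ : ∃ c, c = y₁ - s * x₁ := ⟨_, rfl⟩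
  have hc2 : c = y₂ - s * x₂ := by rw [hc]; linear_combination -hs
  have f₁ : y₁ = s * x₁ + c := by rw [hc]; ring
  have f₂ : y₂ = s * x₂ + c := by rw [hc2]; ring
  have f₃ : -y₃ = s * x₃ + c := by rw [hy₃, hc]; ring
  have hcx : (t₁ - t₂) * (y₁ * y₂) = -(c * (x₁ - x₂)) := by
    have : (t₁ - t₂) * (y₁ * y₂) = (t₁ * y₁) * y₂ - (t₂ * y₂) * y₁ := by ring
    rw [this, ht₁, ht₂]
    linear_combination (-x₁) * f₂ + x₂ * f₁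
  have hc0 : c ≠ 0 := by
    rintro rfl
    rw [zero_mul, neg_zero] at hcx
    exact mul_ne_zero htne (mul_ne_zero hy₁ hy₂) hcx
  have hwy : (w₁ - w₂) * (y₁ * y₂) = y₁ - y₂ := by
    have : (w₁ - w₂) * (y₁ * y₂) = (w₁ * y₁) * y₂ - (w₂ * y₂) * y₁ := by ring
    rw [this, hw₁, hw₂]
    ring
  have hlc : l * c = -s := by
    apply mul_right_cancel₀ hx'
    rw [hw] at hwy
    linear_combination l * hcx - hwy + hs
  have hnc : n * c = -1 := by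
    apply mul_right_cancel₀ hy₁
    rw [hn]
    linear_combination c * hw₁ - (l * c) * ht₁ + x₁ * hlc + f₁
  -- Vieta
  have v₁ : x₁ + x₂ + x₃ = s ^ 2 := by rw [h₃]; ring
  have v₂ : x₁ * x₂ + x₁ * x₃ + x₂ * x₃ = A - 2 * s * c := by
    apply mul_right_cancel₀ hx'
    rw [h₃]
    have q₁ : (s * x₁ + c) ^ 2 = x₁ ^ 3 + A * x₁ + B := by rw [← f₁]; exact e₁
    have q₂ : (s * x₂ + c) ^ 2 = x₂ ^ 3 + A * x₂ + B := by rw [← f₂]; exact e₂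
    linear_combination q₁ - q₂
  have v₃ : x₁ * x₂ * x₃ = c ^ 2 - B := by
    have q₁ : (s * x₁ + c) ^ 2 = x₁ ^ 3 + A * x₁ + B := by rw [← f₁]; exact e₁
    linear_combination (-1) * q₁ + x₁ * v₂ - x₁ ^ 2 * v₁
  -- the product of the three values
  have hprod : y₁ * y₂ * (-y₃) = c ^ 3 * (1 + A * l ^ 2 + B * l ^ 3) := by
    have h1 : c ^ 3 * (1 + A * l ^ 2 + B * l ^ 3) =
        c ^ 3 + A * c * (l * c) ^ 2 + B * (l * c) ^ 3 := by ring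
    rw [h1, hlc, f₃, f₁, f₂]
    linear_combination s ^ 3 * v₃ + s ^ 2 * c * v₂ + s * c ^ 2 * v₁
  have hy₃0 : y₃ ≠ 0 := by
    rintro rfl
    rw [neg_zero, mul_zero] at hprod
    exact mul_ne_zero (pow_ne_zero 3 hc0) hd₂ hprod.symm
  refine ⟨hy₃0, fun t₃ ht₃ => ?_⟩
  -- the sum of the three quotients
  have hsum : x₁ * (s * x₂ + c) * (s * x₃ + c) + x₂ * (s * x₁ + c) * (s * x₃ + c) +
      x₃ * (s * x₁ + c) * (s * x₂ + c) = 2 * s * c * A - 3 * s ^ 2 * B := by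
    linear_combination 3 * s ^ 2 * v₃ + 2 * s * c * v₂ + c ^ 2 * v₁
  have hkey : (t₃ - t₁ - t₂) * (y₁ * y₂ * (-y₃)) = 2 * s * c * A - 3 * s ^ 2 * B := by
    rw [← hsum, ← f₁, ← f₂, ← f₃]
    linear_combination (-(y₁ * y₂)) * ht₃ + (y₂ * y₃) * ht₁ + (y₁ * y₃) * ht₂
  have hfin : (t₃ - t₁ - t₂) * (1 + A * l ^ 2 + B * l ^ 3) * c ^ 3 =
      (2 * A * l * n + 3 * B * l ^ 2 * n) * c ^ 3 := by
    have h2 : (2 * A * l * n + 3 * B * l ^ 2 * n) * c ^ 3 =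
        (2 * A * (l * c) * c + 3 * B * (l * c) ^ 2) * (n * c) := by ring
    rw [h2, hlc, hnc]
    rw [hprod] at hkey
    linear_combination hkey
  have := mul_right_cancel₀ (pow_ne_zero 3 hc0) hfin
  linear_combination this

end Pool.Agent.Helper316_PR
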