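import Pool.Agent.Helper316_PR.Dom
import Pool.Agent.Y732.Quad

/-!
# The points of the interpolation determinant
-/

set_option autoImplicit false

namespace Pool.Agent.Helper316_PR

open Pool.Agent.Y732

variable {G : Type} [AddCommGroup G]

/-- the coefficients of the points -/
def cf {r : ℕ} (i₀ : Fin r) (L : ℕ) {N : ℕ} (n : Fin r → Fin (N + 1)) (e : ℤ) (i : Fin r) : ℤ :=
  (L : ℤ) * ((n i : ℕ) + 1) + if i = i₀ then e else 0

lemma pt_add_smul {r : ℕ} (P : Fin r → G) (i₀ : Fin r) (L : ℕ) {N : ℕ} (n : Fin r → Fin (N + 1))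
    (e : ℕ) (z : ℤ) : pt P i₀ L n e + z • P i₀ = ∑ i, cf i₀ L n (e + z) i • P i := by
  have h1 : z • P i₀ = ∑ i, (if i = i₀ then z else 0) • P i := by
    simp only [ite_smul, zero_smul, Finset.sum_ite_eq', Finset.mem_univ, if_true]
  rw [pt_eq, h1, ← Finset.sum_add_distrib]
  refine Finset.sum_congr rfl fun i _ => ?_
  rw [← add_smul]
  congr 1
  unfold cf
  split_ifs
  · ring
  · ring

lemma pt_eq_cf {r : ℕ} (P : Fin r → G) (i₀ : Fin r) (L : ℕ) {N : ℕ} (n : Fin r → Fin (N + 1))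
    (e : ℕ) : pt P i₀ L n e = ∑ i, cf i₀ L n e i • P i := by
  have := pt_add_smul P i₀ L n e 0
  rwa [zero_smul, add_zero, add_zero] at this

lemma pt_sub_eq {r : ℕ} (P : Fin r → G) (i₀ : Fin r) (L : ℕ) {N : ℕ} (n : Fin r → Fin (N + 1))
    (e : ℕ) : pt P i₀ L n e - P i₀ = ∑ i, cf i₀ L n (e + (-1 : ℤ)) i • P i := by
  have := pt_add_smul P i₀ L n e (-1)
  rwa [neg_smul, one_smul, ← sub_eq_add_neg] at this

lemma pt_add_eq {r : ℕ} (P : Fin r → G) (i₀ : Fin r) (L : ℕ) {N : ℕ} (n : Fin r → Fin (N + 1))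
    (e : ℕ) : pt P i₀ L n e + P i₀ = ∑ i, cf i₀ L n (e + (1 : ℤ)) i • P i := by
  have := pt_add_smul P i₀ L n e 1
  rwa [one_smul] at this

lemma sum_ne_zero {r : ℕ} {P : Fin r → G} (hP : LinearIndependent ℤ P) (i₀ : Fin r)
    (c : Fin r → ℤ) (hc : c i₀ ≠ 0) : ∑ i, c i • P i ≠ 0 := fun h =>
  hc (Fintype.linearIndependent_iff.1 hP _ h i₀)

lemma cf_ge {r : ℕ} (i₀ : Fin r) {L : ℕ} (hL : 4 ≤ L) {N : ℕ} (n : Fin r → Fin (N + 1)) :
    4 ≤ (L : ℤ) * ((n i₀ : ℕ) + 1) := by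
  have h1 : (4 : ℤ) ≤ L := by exact_mod_cast hL
  have h2 : (1 : ℤ) ≤ (((n i₀ : ℕ) : ℤ) + 1) := by
    have : (0 : ℤ) ≤ ((n i₀ : ℕ) : ℤ) := by positivity
    omega
  nlinarith

theorem pt_facts {r : ℕ} {P : Fin r → G} (hP : LinearIndependent ℤ P) (i₀ : Fin r) {L : ℕ}
    (hL : 4 ≤ L) {N : ℕ} (n m : Fin r → Fin (N + 1)) {e e' : ℕ} (he : e ≤ 1) (he' : e' ≤ 1) :
    pt P i₀ L n e - P i₀ ≠ 0 ∧ pt P i₀ L m e' + P i₀ ≠ 0 ∧
      pt P i₀ L n e - P i₀ ≠ pt P i₀ L m e' + P i₀ ∧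
      pt P i₀ L n e - P i₀ ≠ -(pt P i₀ L m e' + P i₀) := by
  have hn := cf_ge i₀ hL n
  have hm := cf_ge i₀ hL m
  refine ⟨?_, ?_, ?_, ?_⟩
  · rw [pt_sub_eq]
    apply sum_ne_zero hP i₀
    unfold cf
    rw [if_pos rfl]
    omega
  · rw [pt_add_eq]
    apply sum_ne_zero hP i₀
    unfold cf
    rw [if_pos rfl]
    omega
  · rw [← sub_ne_zero, pt_sub_eq, pt_add_eq, ← Finset.sum_sub_distrib]
    simp only [← sub_smul]
    apply sum_ne_zero hP i₀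
    unfold cf
    rw [if_pos rfl, if_pos rfl]
    intro h3
    have h6 : (L : ℤ) * (((n i₀ : ℕ) : ℤ) - ((m i₀ : ℕ) : ℤ)) = 2 + e' - e := by
      linear_combination h3
    have h7 : (L : ℤ) ∣ 2 + e' - e := Dvd.intro _ h6
    have h8 : (2 + e' - e : ℤ) < L := by
      have : (4 : ℤ) ≤ L := by exact_mod_cast hL
      omega
    have h9 := Int.eq_zero_of_dvd_of_nonneg_of_lt (by omega) h8 h7
    omega
  · rw [Ne, eq_neg_iff_add_eq_zero, pt_sub_eq, pt_add_eq, ← Finset.sum_add_distrib]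
    simp only [← add_smul]
    apply sum_ne_zero hP i₀
    unfold cf
    rw [if_pos rfl, if_pos rfl]
    omega

lemma pt_mem {r : ℕ} {P : Fin r → G} (H : AddSubgroup G) (hH : ∀ i, P i ∈ H) (i₀ : Fin r) (L : ℕ)
    {N : ℕ} (n : Fin r → Fin (N + 1)) (e : ℕ) : pt P i₀ L n e ∈ H := by
  rw [pt_eq_cf]
  exact H.sum_mem fun i _ => H.zsmul_mem (hH i) _

/-- the pairing of a combination -/
lemma pr_comb {F : Type*} [Field F] [CharZero F] {h : G → F}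
    (hq : ∀ P Q, h (P + Q) + h (P - Q) = 2 * h P + 2 * h Q) {r : ℕ} (c : Fin r → ℤ)
    (P : Fin r → G) (Q : G) :
    h (∑ i, c i • P i + Q) - h (∑ i, c i • P i) - h Q =
      ∑ i, (c i : F) * (h (P i + Q) - h (P i) - h Q) := by
  have h1 : prHom hq Q (∑ i, c i • P i) = ∑ i, (c i : F) * prHom hq Q (P i) := by
    rw [map_sum]
    refine Finset.sum_congr rfl fun i _ => ?_
    rw [map_zsmul, zsmul_eq_mul]
  exact h1

lemma pr_pt {F : Type*} [Field F] [CharZero F] {h : G → F}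
    (hq : ∀ P Q, h (P + Q) + h (P - Q) = 2 * h P + 2 * h Q) {r : ℕ} (P : Fin r → G)
    (i₀ : Fin r) (L : ℕ) {N : ℕ} (n : Fin r → Fin (N + 1)) (e : ℕ) (Y : G) :
    h (pt P i₀ L n e - P i₀ + Y) - h (pt P i₀ L n e - P i₀) - h Y =
      ∑ i, (cf i₀ L n (e + (-1 : ℤ)) i : F) * (h (P i + Y) - h (P i) - h Y) := by
  rw [pt_sub_eq]
  exact pr_comb hq _ P Y

/-- the height of the sums -/
lemma q_pt_le {q : G → ℝ} (hq0 : ∀ P, 0 ≤ q P)
    (hq : ∀ P Q, q (P + Q) + q (P - Q) = 2 * q P + 2 * q Q) {r : ℕ}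
    (P : Fin r → G) (i₀ : Fin r) (L : ℕ) {N : ℕ} (n m : Fin r → Fin (N + 1)) {e e' : ℕ}
    (he : e ≤ 1) (he' : e' ≤ 1) : q (pt P i₀ L n e + pt P i₀ L m e') ≤
        2 ^ r * (4 * ((L : ℝ) + 1) ^ 2 * ∑ i, q (P i)) * ((N : ℝ) + 1) ^ 2 := by
  rw [pt_eq_cf, pt_eq_cf, ← Finset.sum_add_distrib]
  simp only [← add_smul]
  refine (q_sum_le hq0 hq _ _).trans ?_
  rw [Finset.card_univ, Fintype.card_fin]
  have h1 : ∑ i, q ((cf i₀ L n e i + cf i₀ L m e' i) • P i) ≤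
      ∑ i, 4 * ((L : ℝ) + 1) ^ 2 * ((N : ℝ) + 1) ^ 2 * q (P i) := by
    refine Finset.sum_le_sum fun i _ => ?_
    rw [quadratic_int hq]
    refine mul_le_mul_of_nonneg_right ?_ (hq0 _)
    have a1 : (n i : ℕ) + 1 ≤ N + 1 := (n i).2
    have a2 : (m i : ℕ) + 1 ≤ N + 1 := (m i).2
    have b1 : (((n i : ℕ) : ℝ) + 1) ≤ N + 1 := by exact_mod_cast a1
    have b2 : (((m i : ℕ) : ℝ) + 1) ≤ N + 1 := by exact_mod_cast a2
    have b3 : (((if i = i₀ then (e : ℤ) else 0 : ℤ)) : ℝ) ≤ 1 ∧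
        0 ≤ (((if i = i₀ then (e : ℤ) else 0 : ℤ)) : ℝ) := by
      split_ifs
      · constructor
        · exact_mod_cast he
        · positivity
      · norm_num
    have b4 : (((if i = i₀ then (e' : ℤ) else 0 : ℤ)) : ℝ) ≤ 1 ∧
        0 ≤ (((if i = i₀ then (e' : ℤ) else 0 : ℤ)) : ℝ) := by
      split_ifs
      · constructor
        · exact_mod_cast he'
        · positivity
      · norm_num
    have hL0 : (0 : ℝ) ≤ L := Nat.cast_nonneg _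
    have hN0 : (0 : ℝ) ≤ N := Nat.cast_nonneg _
    have d1 : (L : ℝ) * (((n i : ℕ) : ℝ) + 1) ≤ L * (N + 1) := mul_le_mul_of_nonneg_left b1 hL0
    have d2 : (L : ℝ) * (((m i : ℕ) : ℝ) + 1) ≤ L * (N + 1) := mul_le_mul_of_nonneg_left b2 hL0
    have d3 : (0 : ℝ) ≤ (L : ℝ) * (((n i : ℕ) : ℝ) + 1) := by positivity
    have d4 : (0 : ℝ) ≤ (L : ℝ) * (((m i : ℕ) : ℝ) + 1) := by positivity
    have e1 : 4 * ((L : ℝ) + 1) ^ 2 * ((N : ℝ) + 1) ^ 2 = (2 * (L + 1) * (N + 1)) ^ 2 := by ring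
    have e2 : ((cf i₀ L n e i + cf i₀ L m e' i : ℤ) : ℝ) =
        ((L : ℝ) * (((n i : ℕ) : ℝ) + 1) + (((if i = i₀ then (e : ℤ) else 0 : ℤ)) : ℝ)) +
        ((L : ℝ) * (((m i : ℕ) : ℝ) + 1) + (((if i = i₀ then (e' : ℤ) else 0 : ℤ)) : ℝ)) := by
      unfold cf
      rw [Int.cast_add, Int.cast_add, Int.cast_add]
      push_cast
      rfl
    rw [e1, e2]
    generalize (((if i = i₀ then (e : ℤ) else 0 : ℤ)) : ℝ) = z at b3
    generalize (((if i = i₀ then (e' : ℤ) else 0 : ℤ)) : ℝ) = z' at b4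
    apply pow_le_pow_left₀
    · linarith [b3.2, b4.2]
    · nlinarith [b3.1, b4.1]
  calc _ ≤ 2 ^ r * ∑ i, 4 * ((L : ℝ) + 1) ^ 2 * ((N : ℝ) + 1) ^ 2 * q (P i) :=
        mul_le_mul_of_nonneg_left h1 (by positivity)
    _ = _ := by
        rw [← Finset.mul_sum]
        ring

lemma indep_not_tors {r : ℕ} {P : Fin r → G} (hP : LinearIndependent ℤ P) (i₀ : Fin r) :
    ¬ IsOfFinAddOrder (P i₀) := by
  have h1 := not_tors hP (c := fun i => if i = i₀ then 1 else 0) (by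
    intro h
    have := congrFun h i₀
    simp at this)
  simpa only [ite_smul, zero_smul, Finset.sum_ite_eq', Finset.mem_univ, if_true, one_smul] using h1

end Pool.Agent.Helper316_PR
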