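import Pool.Agent.Helper316_PR.Ht

/-!
# Convergence of the sum of `exp (-4 h (P))`
-/

set_option autoImplicit false

namespace Pool.Agent.Helper316_PR

open WeierstrassCurve Pool.Agent.Y732 Height

variable {A B : ℤ}

/-- the first coordinate and the sign of the second coordinate -/
def code : (EQ A B).Point → (ℤ × ℕ) × Bool
  | .zero => ((0, 0), false)
  | .some x y _ => ((x.num, x.den), decide (0 ≤ y))

lemma code_injective : Function.Injective (code : (EQ A B).Point → (ℤ × ℕ) × Bool) := by
  intro P Q hPQ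
  rcases P with _ | ⟨x, y, h⟩
  · rcases Q with _ | ⟨x', y', h'⟩
    · rfl
    · exfalso
      have h1 : (0 : ℕ) = x'.den := congrArg (fun z => z.1.2) hPQ
      exact x'.den_nz h1.symm
  · rcases Q with _ | ⟨x', y', h'⟩
    · exfalso
      have h1 : x.den = (0 : ℕ) := congrArg (fun z => z.1.2) hPQ
      exact x.den_nz h1
    · have h1 : x.num = x'.num := congrArg (fun z => z.1.1) hPQ
      have h2 : x.den = x'.den := congrArg (fun z => z.1.2) hPQ
      have h3 : decide (0 ≤ y) = decide (0 ≤ y') := congrArg (fun z => z.2) hPQ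
      obtain rfl : x = x' := Rat.ext h1 h2
      have e1 := (eq_iff x y).1 h.1
      have e2 := (eq_iff x y').1 h'.1
      rw [← e2] at e1
      rcases sq_eq_sq_iff_eq_or_eq_neg.1 e1 with rfl | h4
      · rfl
      · have h5 : y = y' := by
          rw [decide_eq_decide] at h3
          rcases le_or_gt 0 y with h6 | h6
          · have h7 := h3.1 h6
            linarith
          · have h7 : ¬ 0 ≤ y' := fun h => absurd (h3.2 h) (not_le.2 h6)
            linarith
        subst h5
        rfl

lemma summable_box : Summable fun z : (ℤ × ℕ) × Bool =>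
    16 * (((1 + |(z.1.1 : ℝ)|) ^ 2)⁻¹ * ((1 + (z.1.2 : ℝ)) ^ 2)⁻¹) * (1 : ℝ) := by
  have h1 : Summable fun n : ℕ => ((1 + (n : ℝ)) ^ 2)⁻¹ := by
    have := (summable_nat_add_iff 1).2 (Real.summable_nat_pow_inv.2 (by norm_num : 1 < 2))
    refine this.congr fun n => ?_
    push_cast
    rw [add_comm]
  have h2 : Summable fun a : ℤ => ((1 + |(a : ℝ)|) ^ 2)⁻¹ := by
    refine Summable.of_nat_of_neg ?_ ?_
    · refine h1.congr fun n => ?_
      simp
    · refine h1.congr fun n => ?_
      simp
  have h3 : Summable fun z : ℤ × ℕ => 16 * (((1 + |(z.1 : ℝ)|) ^ 2)⁻¹ * ((1 + (z.2 : ℝ)) ^ 2)⁻¹) :=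
    (h2.mul_of_nonneg h1 (fun a => by positivity) fun n => by positivity).mul_left 16
  have h4 : Summable fun _ : Bool => (1 : ℝ) := (hasSum_fintype _).summable
  exact h3.mul_of_nonneg h4 (fun a => by positivity) fun n => by positivity

theorem summable_exp_nh : Summable fun P : (EQ A B).Point => Real.exp (-(4 * nh P)) := by
  refine Summable.of_nonneg_of_le (fun P => (Real.exp_pos _).le) (fun P => ?_)
    (summable_box.comp_injective (code_injective (A := A) (B := B)))
  rcases P with _ | ⟨x, y, h⟩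
  · rw [← Affine.Point.zero_def, nh_zero]
    have h1 : code (0 : (EQ A B).Point) = ((0, 0), false) := rfl
    simp only [Function.comp_apply, h1]
    norm_num
  · rw [nh_some]
    have h1 : code (Affine.Point.some x y h) = ((x.num, x.den), decide (0 ≤ y)) := rfl
    simp only [Function.comp_apply, h1]
    obtain ⟨m, hm⟩ : ∃ m : ℕ, m = max x.num.natAbs x.den := ⟨_, rfl⟩
    rw [← hm]
    have hm1 : 1 ≤ m := by
      rw [hm]
      exact (Nat.one_le_iff_ne_zero.2 x.den_nz).trans (le_max_right _ _)
    have hmR : (1 : ℝ) ≤ m := by exact_mod_cast hm1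
    have hd : (x.den : ℝ) ≤ m := by
      rw [hm]
      exact_mod_cast le_max_right _ _
    have ha : |(x.num : ℝ)| ≤ m := by
      have : |(x.num : ℝ)| = ((x.num.natAbs : ℕ) : ℝ) := by
        rw [Nat.cast_natAbs, Int.cast_abs]
      rw [this, hm]
      exact_mod_cast le_max_left _ _
    have e1 : Real.exp (-(4 * Real.log (m : ℝ))) = ((m : ℝ) ^ 4)⁻¹ := by
      rw [Real.exp_neg]
      congr 1
      have : 4 * Real.log (m : ℝ) = Real.log ((m : ℝ) ^ 4) := by
        rw [Real.log_pow]; push_cast; ring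
      rw [this, Real.exp_log (by positivity)]
    rw [e1]
    have t1 : (1 + |(x.num : ℝ)|) ^ 2 ≤ (2 * m) ^ 2 := by
      apply pow_le_pow_left₀ (by positivity)
      linarith
    have t2 : (1 + (x.den : ℝ)) ^ 2 ≤ (2 * m) ^ 2 := by
      apply pow_le_pow_left₀ (by positivity)
      linarith
    have t3 : (1 + |(x.num : ℝ)|) ^ 2 * (1 + (x.den : ℝ)) ^ 2 ≤ 16 * (m : ℝ) ^ 4 := by
      calc _ ≤ (2 * (m : ℝ)) ^ 2 * (2 * m) ^ 2 := mul_le_mul t1 t2 (by positivity) (by positivity)
        _ = _ := by ring
    rw [mul_one, ← mul_inv, inv_eq_one_div, inv_eq_one_div, mul_one_div,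
      div_le_div_iff₀ (by positivity) (by positivity), one_mul]
    exact t3

end Pool.Agent.Helper316_PR
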