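import Pool.Agent.Helper316_PR.Entry
import Pool.Agent.Helper316_PR.Sum
import Pool.Agent.Helper316_PR.PtLem

/-!
# The rank of the `p`-adic height pairing: the main argument
-/

set_option autoImplicit false

namespace Pool.Agent.Helper316_PR

open WeierstrassCurve Pool.Agent.Y732

variable {A B : ℤ} {p : ℕ} [hp : Fact p.Prime]

omit hp in
/-- the contradiction between the two estimates of the determinant -/
lemma numeric {r ρ : ℕ} (hr : 2 * ρ + 2 < r) (hp2 : 2 ≤ p) (C : ℝ) :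
    ∃ N k : ℕ, Real.exp (((N : ℝ) + 1) ^ r * (C * ((N : ℝ) + 1) ^ 2)) <
      (p : ℝ) ^ (k * (N + 1) ^ r - k * k ^ (ρ + 1)) := by
  have hlog : 0 < Real.log p := Real.log_pos (by exact_mod_cast (by omega : 1 < p))
  obtain ⟨c, hc⟩ := exists_nat_gt (max 1 (2 * C / Real.log p))
  have hc1 : (1 : ℝ) < c := lt_of_le_of_lt (le_max_left _ _) hc
  have hc1' : 1 < c := by exact_mod_cast hc1
  have hc2 : 2 * C < c * Real.log p := by
    rw [← div_lt_iff₀ hlog]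
    exact lt_of_le_of_lt (le_max_right _ _) hc
  obtain ⟨M, hM⟩ : ∃ M : ℕ, M = 2 * c ^ (ρ + 1) := ⟨_, rfl⟩
  have hM1 : 1 ≤ M := by
    rw [hM]
    have : 0 < c ^ (ρ + 1) := by positivity
    omega
  refine ⟨M - 1, c * M ^ 2, ?_⟩
  have e1 : M - 1 + 1 = M := by omega
  have e2 : (((M - 1 : ℕ) : ℝ) + 1) = M := by
    have : ((M - 1 + 1 : ℕ) : ℝ) = (M : ℝ) := by rw [e1]
    push_cast at this
    exact this
  rw [e1, e2]
  have hMR : (1 : ℝ) ≤ M := by exact_mod_cast hM1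
  have h1 : 2 * (c * M ^ 2) ^ (ρ + 1) ≤ M ^ r := by
    calc 2 * (c * M ^ 2) ^ (ρ + 1) = (2 * c ^ (ρ + 1)) * M ^ (2 * ρ + 2) := by
          rw [mul_pow, ← pow_mul]
          ring
      _ = M ^ (2 * ρ + 3) := by
          rw [← hM]
          ring
      _ ≤ M ^ r := Nat.pow_le_pow_right hM1 (by omega)
  have h2 : (c * M ^ 2) * M ^ r ≤ 2 * (c * M ^ 2 * M ^ r - c * M ^ 2 * (c * M ^ 2) ^ (ρ + 1)) := by
    have : 2 * (c * M ^ 2 * (c * M ^ 2) ^ (ρ + 1)) ≤ c * M ^ 2 * M ^ r := by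
      calc _ = c * M ^ 2 * (2 * (c * M ^ 2) ^ (ρ + 1)) := by ring
        _ ≤ _ := Nat.mul_le_mul_left _ h1
    omega
  have h3 : ((c : ℝ) * M ^ 2) * M ^ r ≤
      2 * ((c * M ^ 2 * M ^ r - c * M ^ 2 * (c * M ^ 2) ^ (ρ + 1) : ℕ) : ℝ) := by
    exact_mod_cast h2
  generalize (c * M ^ 2 * M ^ r - c * M ^ 2 * (c * M ^ 2) ^ (ρ + 1) : ℕ) = S at h3
  have hp0 : (0 : ℝ) < p := by exact_mod_cast (by omega : 0 < p)
  have e3 : (p : ℝ) ^ S = Real.exp (S * Real.log p) := by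
    rw [← Real.log_pow, Real.exp_log (by positivity)]
  rw [e3]
  apply Real.exp_lt_exp.2
  have hT : (0 : ℝ) < (M : ℝ) ^ r * (M : ℝ) ^ 2 := by positivity
  have h4 : (M : ℝ) ^ r * (C * (M : ℝ) ^ 2) * 2 < ((c : ℝ) * M ^ 2) * M ^ r * Real.log p := by
    calc (M : ℝ) ^ r * (C * (M : ℝ) ^ 2) * 2 = (2 * C) * ((M : ℝ) ^ r * (M : ℝ) ^ 2) := by ring
      _ < (c * Real.log p) * ((M : ℝ) ^ r * (M : ℝ) ^ 2) := mul_lt_mul_of_pos_right hc2 hT
      _ = _ := by ring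
  have h5 : ((c : ℝ) * M ^ 2) * M ^ r * Real.log p ≤ 2 * (S : ℝ) * Real.log p :=
    mul_le_mul_of_nonneg_right h3 hlog.le
  linarith

/-- the determinant is small -/
lemma det_upper {q : (EQ A B).Point → ℝ} (hq0 : ∀ P, 0 ≤ q P)
    (hq : ∀ P Q, q (P + Q) + q (P - Q) = 2 * q P + 2 * q Q) {C : ℝ}
    (hC : ∀ P : (EQ A B).Point, 2 * Real.log (dn P) ≤ q P + C) {r : ℕ}
    (P : Fin r → (EQ A B).Point) (i₀ : Fin r) (L s : ℕ) :
    ∃ C₂ : ℝ, ∀ N : ℕ, ∀ ε : (Fin r → Fin (N + 1)) → ℕ, (∀ n, ε n ≤ 1) →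
      |(Matrix.of fun n m => ((dn (pt P i₀ L n (ε n) + pt P i₀ L m (ε m)) : ℕ) : ℝ) ^ (2 * s)).det| ≤
        Real.exp (((N : ℝ) + 1) ^ r * (C₂ * ((N : ℝ) + 1) ^ 2)) := by
  obtain ⟨C₁, hC₁⟩ : ∃ C₁ : ℝ, C₁ = s * (2 ^ r * (4 * ((L : ℝ) + 1) ^ 2 * ∑ i, q (P i)) + |C|) :=
    ⟨_, rfl⟩
  have hQ0 : 0 ≤ ∑ i, q (P i) := Finset.sum_nonneg fun i _ => hq0 _
  have hC₁0 : 0 ≤ C₁ := by
    rw [hC₁]
    have := abs_nonneg C
    positivity
  refine ⟨r + C₁, fun N ε hε => ?_⟩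
  have hent : ∀ n m, |((dn (pt P i₀ L n (ε n) + pt P i₀ L m (ε m)) : ℕ) : ℝ) ^ (2 * s)| ≤
      Real.exp (C₁ * ((N : ℝ) + 1) ^ 2) := by
    intro n m
    rw [abs_of_nonneg (by positivity)]
    have hqb := q_pt_le hq0 hq P i₀ L n m (hε n) (hε m)
    rcases Nat.eq_zero_or_pos (dn (pt P i₀ L n (ε n) + pt P i₀ L m (ε m))) with h0 | h0
    · rcases Nat.eq_zero_or_pos s with rfl | hs
      · rw [mul_zero, pow_zero]
        exact Real.one_le_exp (by positivity)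
      · rw [h0, Nat.cast_zero, zero_pow (by omega)]
        exact (Real.exp_pos _).le
    · have h0R : (0 : ℝ) < ((dn (pt P i₀ L n (ε n) + pt P i₀ L m (ε m)) : ℕ) : ℝ) := by
        exact_mod_cast h0
      rw [← Real.exp_log (pow_pos h0R (2 * s)), Real.log_pow]
      apply Real.exp_le_exp.2
      have h1 := hC (pt P i₀ L n (ε n) + pt P i₀ L m (ε m))
      have hN1 : (1 : ℝ) ≤ ((N : ℝ) + 1) ^ 2 := by
        have : (0 : ℝ) ≤ N := Nat.cast_nonneg _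
        nlinarith
      have h2 : C ≤ |C| * ((N : ℝ) + 1) ^ 2 := by
        have := le_abs_self C
        have := abs_nonneg C
        nlinarith
      have h3 : 2 * Real.log ((dn (pt P i₀ L n (ε n) + pt P i₀ L m (ε m)) : ℕ) : ℝ) ≤
          (2 ^ r * (4 * ((L : ℝ) + 1) ^ 2 * ∑ i, q (P i)) + |C|) * ((N : ℝ) + 1) ^ 2 := by
        linarith
      rw [hC₁]
      push_cast
      calc 2 * (s : ℝ) * Real.log ((dn (pt P i₀ L n (ε n) + pt P i₀ L m (ε m)) : ℕ) : ℝ) =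
            s * (2 * Real.log ((dn (pt P i₀ L n (ε n) + pt P i₀ L m (ε m)) : ℕ) : ℝ)) := by ring
        _ ≤ s * ((2 ^ r * (4 * ((L : ℝ) + 1) ^ 2 * ∑ i, q (P i)) + |C|) * ((N : ℝ) + 1) ^ 2) :=
            mul_le_mul_of_nonneg_left h3 (Nat.cast_nonneg _)
        _ = _ := by ring
  have hdet := Matrix.det_le (abv := (AbsoluteValue.abs : AbsoluteValue ℝ ℝ))
    (A := Matrix.of fun n m =>
      ((dn (pt P i₀ L n (ε n) + pt P i₀ L m (ε m)) : ℕ) : ℝ) ^ (2 * s)) hent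
  rw [AbsoluteValue.abs_apply, nsmul_eq_mul] at hdet
  have hcard : Fintype.card (Fin r → Fin (N + 1)) = (N + 1) ^ r := by
    rw [Fintype.card_fun, Fintype.card_fin, Fintype.card_fin]
  rw [hcard] at hdet
  refine hdet.trans ?_
  have hN0 : (0 : ℝ) ≤ N := Nat.cast_nonneg _
  have hfac : (((((N + 1) ^ r).factorial : ℕ)) : ℝ) ≤
      Real.exp (((N : ℝ) + 1) ^ r * (r * ((N : ℝ) + 1) ^ 2)) := by
    have h1 : ((N + 1) ^ r).factorial ≤ ((N + 1) ^ r) ^ ((N + 1) ^ r) := Nat.factorial_le_pow _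
    have h2 : (((((N + 1) ^ r).factorial : ℕ)) : ℝ) ≤ ((((N : ℝ) + 1) ^ r)) ^ ((N + 1) ^ r) := by
      exact_mod_cast h1
    refine h2.trans ?_
    have h3 : ((N : ℝ) + 1) ^ r ≤ Real.exp (r * ((N : ℝ) + 1) ^ 2) := by
      have h4 : ((N : ℝ) + 1) ≤ Real.exp (((N : ℝ) + 1) ^ 2) := by
        have := Real.add_one_le_exp (((N : ℝ) + 1) ^ 2)
        nlinarith
      calc ((N : ℝ) + 1) ^ r ≤ (Real.exp (((N : ℝ) + 1) ^ 2)) ^ r :=
            pow_le_pow_left₀ (by positivity) h4 r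
        _ = _ := by rw [← Real.exp_nat_mul]
    calc ((((N : ℝ) + 1) ^ r)) ^ ((N + 1) ^ r) ≤
          (Real.exp (r * ((N : ℝ) + 1) ^ 2)) ^ ((N + 1) ^ r) :=
            pow_le_pow_left₀ (by positivity) h3 _
      _ = _ := by
          rw [← Real.exp_nat_mul]
          push_cast
          rfl
  have hpw : (Real.exp (C₁ * ((N : ℝ) + 1) ^ 2)) ^ ((N + 1) ^ r) =
      Real.exp (((N : ℝ) + 1) ^ r * (C₁ * ((N : ℝ) + 1) ^ 2)) := by
    rw [← Real.exp_nat_mul]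
    push_cast
    rfl
  rw [hpw]
  calc _ ≤ Real.exp (((N : ℝ) + 1) ^ r * (r * ((N : ℝ) + 1) ^ 2)) *
        Real.exp (((N : ℝ) + 1) ^ r * (C₁ * ((N : ℝ) + 1) ^ 2)) :=
          mul_le_mul_of_nonneg_right hfac (Real.exp_pos _).le
    _ = _ := by
        rw [← Real.exp_add]
        congr 1
        ring

/-- the main argument -/
theorem core (hD : 4 * A ^ 3 + 27 * B ^ 2 ≠ 0) (hp5 : 5 ≤ p)
    {h : (EQ A B).Point → ℚ_[p]} (hh : IsHeight p A B h) {r : ℕ} {P : Fin r → (EQ A B).Point}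
    (hP : LinearIndependent ℤ P) (hPG : ∀ i, P i ∈ Gd A B p) (i₀ : Fin r) {ρ : ℕ}
    (R : Fin ρ → (EQ A B).Point) (hR : ∀ κ, R κ ∈ Gd A B p) (a : Fin r → Fin ρ → ℤ_[p])
    (ha : ∀ i, ∀ Y ∈ AddSubgroup.closure (Set.range P), h (P i + Y) - h (P i) - h Y =
      ∑ κ, (a i κ : ℚ_[p]) * (h (R κ + Y) - h (R κ) - h Y)) :
    r ≤ 2 * ρ + 2 := by
  by_contra hcon
  rw [not_le] at hcon
  obtain ⟨q, hq0, hq', hqf, hqp, C, hqC⟩ := exists_canon (A := A) (B := B) hD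
  have hq : ∀ P Q, q (P + Q) + q (P - Q) = 2 * q P + 2 * q Q := fun P Q => by
    rw [hq' P Q]; ring
  -- the constants
  have hC1 : ∀ X : (EQ A B).Point, 2 * Real.log (dn X) ≤ q X + C := by
    intro X
    have h1 := log_dn_le X
    have h2 := abs_le.1 (hqC X)
    linarith
  have hlow : ∀ S : (EQ A B).Point, S ≠ 0 → ∃ C' : ℝ, ∀ X, X ≠ 0 → X + S ≠ 0 →
      q X - C' ≤ 2 * Real.log (dn X) ∨ q (X + S) - C' ≤ 2 * Real.log (dn (X + S)) := by
    intro S hS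
    obtain ⟨X₀, hX₀, hb⟩ := exists_xb_bound S hS
    refine ⟨C + Real.log X₀, fun X hX hXS => ?_⟩
    rcases hb X with h1 | h1
    · left
      have h2 := le_log_dn hX hX₀ h1
      have h3 := abs_le.1 (hqC X)
      linarith
    · right
      have h2 := le_log_dn hXS hX₀ h1
      have h3 := abs_le.1 (hqC (X + S))
      linarith
  have hsum : Summable fun X : (EQ A B).Point => Real.exp (-(4 * q X)) := by
    refine Summable.of_nonneg_of_le (fun X => (Real.exp_pos _).le) (fun X => ?_)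
      ((summable_exp_nh (A := A) (B := B)).mul_left (Real.exp (4 * C)))
    rw [← Real.exp_add]
    apply Real.exp_le_exp.2
    have h3 := abs_le.1 (hqC X)
    linarith
  obtain ⟨μ, hμ, hmin⟩ : ∃ μ : ℝ, 0 < μ ∧ ∀ X : (EQ A B).Point, ¬ IsOfFinAddOrder X → μ ≤ q X := by
    have hnt : ¬ IsOfFinAddOrder (P i₀) := indep_not_tors hP i₀
    obtain ⟨Q, hQ, hQm⟩ := Pool.Agent.TH910.LS.exists_min_of_finite hqf
      (S := {X : (EQ A B).Point | ¬ IsOfFinAddOrder X}) ⟨P i₀, hnt⟩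
    exact ⟨q Q, hqp Q hQ, fun X hX => hQm X hX⟩
  have hDpos : ∀ X : (EQ A B).Point, X ≠ 0 → (0 : ℝ) < ((dn X : ℕ) : ℝ) := by
    intro X hX
    have : dn X ≠ 0 := fun h => hX (dn_eq_zero.1 h)
    exact_mod_cast Nat.pos_of_ne_zero this
  obtain ⟨L, hL4, hL⟩ := det_ne_zero hq0 hq hμ hmin hsum (D := fun X => ((dn X : ℕ) : ℝ)) hDpos hC1
    hlow hP i₀ (s := 2 * (p - 1)) (by omega)
  obtain ⟨C₂, hC₂⟩ := det_upper hq0 hq hC1 P i₀ L (2 * (p - 1))
  obtain ⟨N, k, hNk⟩ := numeric (p := p) hcon hp.out.two_le C₂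
  obtain ⟨ε, hε, hdet⟩ := hL N
  have hup := hC₂ N ε hε
  have hfacts := fun n m => pt_facts hP i₀ hL4 n m (hε n) (hε m)
  have hxG : ∀ n, pt P i₀ L n (ε n) ∈ Gd A B p := fun n => pt_mem _ hPG i₀ L n (ε n)
  have hxC : ∀ n, pt P i₀ L n (ε n) ∈ AddSubgroup.closure (Set.range P) := fun n =>
    pt_mem _ (fun i => AddSubgroup.subset_closure (Set.mem_range_self i)) i₀ L n (ε n)
  have hPC : P i₀ ∈ AddSubgroup.closure (Set.range P) :=
    AddSubgroup.subset_closure (Set.mem_range_self i₀)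
  -- the relation
  have hw : ∀ n m, h ((pt P i₀ L n (ε n) - P i₀) + (pt P i₀ L m (ε m) + P i₀)) -
      h (pt P i₀ L n (ε n) - P i₀) - h (pt P i₀ L m (ε m) + P i₀) =
      ∑ κ, ((∑ i, ((cf i₀ L n (ε n + (-1 : ℤ)) i : ℤ) : ℤ_[p]) * a i κ : ℤ_[p]) : ℚ_[p]) *
        (h (R κ + (pt P i₀ L m (ε m) + P i₀)) - h (R κ) - h (pt P i₀ L m (ε m) + P i₀)) := by
    intro n m
    rw [pr_pt hh.1]
    have h2 : ∀ i, h (P i + (pt P i₀ L m (ε m) + P i₀)) - h (P i) - h (pt P i₀ L m (ε m) + P i₀) =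
        ∑ κ, (a i κ : ℚ_[p]) * (h (R κ + (pt P i₀ L m (ε m) + P i₀)) - h (R κ) -
          h (pt P i₀ L m (ε m) + P i₀)) := fun i =>
      ha i _ (add_mem (hxC m) hPC)
    simp only [h2, Finset.mul_sum]
    rw [Finset.sum_comm]
    refine Finset.sum_congr rfl fun κ _ => ?_
    rw [PadicInt.coe_sum, Finset.sum_mul]
    refine Finset.sum_congr rfl fun i _ => ?_
    rw [PadicInt.coe_mul, PadicInt.coe_intCast, mul_assoc]
  have hdvd := det_dn_dvd hp5 hD hh (fun n => pt P i₀ L n (ε n) - P i₀)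
    (fun m => pt P i₀ L m (ε m) + P i₀)
    (fun n => (Gd A B p).sub_mem (hxG n) (hPG i₀)) (fun n => (Gd A B p).add_mem (hxG n) (hPG i₀))
    (fun n => (hfacts n n).1) (fun n => (hfacts n n).2.1) (fun n m => (hfacts n m).2.2.1)
    (fun n m => (hfacts n m).2.2.2) R hR _ hw k
  have hsumx : ∀ n m, (pt P i₀ L n (ε n) - P i₀) + (pt P i₀ L m (ε m) + P i₀) =
      pt P i₀ L n (ε n) + pt P i₀ L m (ε m) := fun n m => by abel
  simp only [hsumx] at hdvd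
  have hcard : Fintype.card (Fin r → Fin (N + 1)) = (N + 1) ^ r := by
    rw [Fintype.card_fun, Fintype.card_fin, Fintype.card_fin]
  rw [hcard] at hdvd
  -- the real determinant
  have hmap : (((Matrix.of fun n m => (dn (pt P i₀ L n (ε n) + pt P i₀ L m (ε m)) : ℤ) ^
        (4 * (p - 1))).det : ℤ) : ℝ) =
      (Matrix.of fun n m => ((dn (pt P i₀ L n (ε n) + pt P i₀ L m (ε m)) : ℕ) : ℝ) ^
        (2 * (2 * (p - 1)))).det := by
    have := RingHom.map_det (Int.castRingHom ℝ)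
      (Matrix.of fun n m => (dn (pt P i₀ L n (ε n) + pt P i₀ L m (ε m)) : ℤ) ^ (4 * (p - 1)))
    rw [eq_intCast] at this
    rw [this]
    congr 1
    ext n m
    have e : 4 * (p - 1) = 2 * (2 * (p - 1)) := by omega
    simp only [RingHom.mapMatrix_apply, Matrix.map_apply, Matrix.of_apply, eq_intCast]
    push_cast
    rw [e]
  rw [← hmap] at hdet hup
  have hne : (Matrix.of fun n m => (dn (pt P i₀ L n (ε n) + pt P i₀ L m (ε m)) : ℤ) ^
      (4 * (p - 1))).det ≠ 0 := by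
    intro h0
    apply hdet
    rw [h0, Int.cast_zero]
  have hle := Int.le_of_dvd (abs_pos.2 hne) ((dvd_abs _ _).2 hdvd)
  have hleR : (p : ℝ) ^ (k * (N + 1) ^ r - k * k ^ (ρ + 1)) ≤
      |(((Matrix.of fun n m => (dn (pt P i₀ L n (ε n) + pt P i₀ L m (ε m)) : ℤ) ^
        (4 * (p - 1))).det : ℤ) : ℝ)| := by
    rw [← Int.cast_abs]
    exact_mod_cast hle
  exact absurd (hleR.trans hup) (not_le.2 hNk)

end Pool.Agent.Helper316_PR
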