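import Mathlib

/-!
# Divisibility of determinants of sums of few products

If the entries of a square matrix are `∑ v, f i v * g v j`, where `f i v` is divisible by
`π ^ a v` and `g v j` by `π ^ b v`, then the determinant is divisible by a high power of `π`.
-/

set_option autoImplicit false

namespace Pool.Agent.Helper316_PR

open Finset Matrix

theorem det_expand {R : Type*} [CommRing R] {T V : Type*} [Fintype T] [DecidableEq T]
    [Fintype V] (f : T → V → R) (g : V → T → R) :
    (Matrix.of fun i j => ∑ v, f i v * g v j).det =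
      ∑ φ : T → V, (∏ j, g (φ j) j) * (Matrix.of fun j i => f i (φ j)).det := by
  classical
  rw [← Matrix.det_transpose]
  have h1 : (Matrix.of fun i j => ∑ v, f i v * g v j)ᵀ =
      fun j => ∑ v, (g v j • fun i => f i v) := by
    funext j i
    simp only [Matrix.transpose_apply, Matrix.of_apply, Finset.sum_apply, Pi.smul_apply,
      smul_eq_mul]
    exact Finset.sum_congr rfl fun v _ => mul_comm _ _
  rw [h1]
  have h2 := (Matrix.detRowAlternating (n := T) (R := R)).toMultilinearMap.map_sum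
    (fun (j : T) (v : V) => (g v j • fun i => f i v))
  have h3 : (Matrix.detRowAlternating (n := T) (R := R)).toMultilinearMap
      (fun j => ∑ v, (g v j • fun i => f i v)) =
      Matrix.det (fun j => ∑ v, (g v j • fun i => f i v)) := rfl
  rw [← h3, h2]
  refine Finset.sum_congr rfl fun φ _ => ?_
  rw [MultilinearMap.map_smul_univ]
  rfl

theorem det_dvd {R : Type*} [CommRing R] (π : R) {T V : Type*} [Fintype T] [DecidableEq T]
    [Fintype V] (f : T → V → R) (g : V → T → R) (a b : V → ℕ)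
    (hf : ∀ i v, π ^ a v ∣ f i v) (hg : ∀ v j, π ^ b v ∣ g v j) (S : ℕ)
    (hS : ∀ φ : T → V, Function.Injective φ → S ≤ ∑ j, (a (φ j) + b (φ j))) :
    π ^ S ∣ (Matrix.of fun i j => ∑ v, f i v * g v j).det := by
  classical
  rw [det_expand]
  refine Finset.dvd_sum fun φ _ => ?_
  by_cases hφ : Function.Injective φ
  · refine (pow_dvd_pow π (hS φ hφ)).trans ?_
    rw [Finset.sum_add_distrib, pow_add, mul_comm]
    refine mul_dvd_mul ?_ ?_
    · rw [← Finset.prod_pow_eq_pow_sum]
      exact Finset.prod_dvd_prod_of_dvd _ _ fun j _ => hg (φ j) j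
    · choose F hF using hf
      have h1 : (Matrix.of fun j i => f i (φ j)) =
          Matrix.of fun j i => π ^ a (φ j) * F i (φ j) := by
        ext j i
        simp only [Matrix.of_apply]
        exact hF i (φ j)
      rw [h1]
      have h2 := Matrix.det_mul_column (fun j => π ^ a (φ j)) (Matrix.of fun j i => F i (φ j))
      simp only [Matrix.of_apply] at h2
      rw [h2, ← Finset.prod_pow_eq_pow_sum]
      exact Dvd.intro _ rfl
  · rw [Function.not_injective_iff] at hφ
    obtain ⟨j, j', hjj, hne⟩ := hφ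
    rw [Matrix.det_zero_of_row_eq hne, mul_zero]
    · exact dvd_zero _
    · funext i
      simp only [Matrix.of_apply]
      rw [hjj]

/-- the weight of an index -/
def wt {K ρ : ℕ} (v : Fin K × (Fin ρ → Fin K)) : ℕ := (v.1 : ℕ) + ∑ k, ((v.2 k : Fin K) : ℕ)

lemma card_wt_lt {K ρ : ℕ} (k : ℕ) :
    (univ.filter fun v : Fin K × (Fin ρ → Fin K) => wt v < k).card ≤ k ^ (ρ + 1) := by
  classical
  rcases Nat.eq_zero_or_pos k with rfl | hk
  · simp
  have h1 : (univ : Finset (Fin k × (Fin ρ → Fin k))).card = k ^ (ρ + 1) := by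
    rw [card_univ, Fintype.card_prod, Fintype.card_fin, Fintype.card_fun, Fintype.card_fin,
      Fintype.card_fin, pow_succ, mul_comm]
  rw [← h1]
  refine Finset.card_le_card_of_injOn
    (fun v => (⟨(v.1 : ℕ) % k, Nat.mod_lt _ hk⟩, fun i => ⟨((v.2 i : Fin K) : ℕ) % k,
      Nat.mod_lt _ hk⟩)) (fun _ _ => mem_univ _) ?_
  rintro ⟨x, y⟩ hx ⟨x', y'⟩ hx' h
  rw [Finset.mem_coe, mem_filter] at hx hx'
  have hx2 : (x : ℕ) + ∑ k, ((y k : Fin K) : ℕ) < k := hx.2
  have hx2' : (x' : ℕ) + ∑ k, ((y' k : Fin K) : ℕ) < k := hx'.2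
  have h2 := congrArg Prod.fst h
  have h3 := congrArg Prod.snd h
  dsimp only at h2 h3
  have hb : ∀ i, ((y i : Fin K) : ℕ) < k := fun i => by
    have : ((y i : Fin K) : ℕ) ≤ ∑ k, ((y k : Fin K) : ℕ) :=
      Finset.single_le_sum (f := fun i => ((y i : Fin K) : ℕ)) (fun _ _ => Nat.zero_le _)
      (mem_univ i)
    omega
  have hb' : ∀ i, ((y' i : Fin K) : ℕ) < k := fun i => by
    have : ((y' i : Fin K) : ℕ) ≤ ∑ k, ((y' k : Fin K) : ℕ) :=
      Finset.single_le_sum (f := fun i => ((y' i : Fin K) : ℕ)) (fun _ _ => Nat.zero_le _)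
      (mem_univ i)
    omega
  rw [Fin.mk.injEq, Nat.mod_eq_of_lt (by omega), Nat.mod_eq_of_lt (by omega)] at h2
  refine Prod.ext (Fin.ext h2) (funext fun i => Fin.ext ?_)
  have h4 := congrFun h3 i
  rw [Fin.mk.injEq, Nat.mod_eq_of_lt (hb i), Nat.mod_eq_of_lt (hb' i)] at h4
  exact h4

lemma sum_wt_ge {K ρ : ℕ} {T : Type*} [Fintype T] (φ : T → Fin K × (Fin ρ → Fin K))
    (hφ : Function.Injective φ) (k : ℕ) :
    k * Fintype.card T ≤ ∑ j, wt (φ j) + k * k ^ (ρ + 1) := by
  classical
  have h1 : (univ.filter fun j => wt (φ j) < k).card ≤ k ^ (ρ + 1) := by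
    refine le_trans ?_ (card_wt_lt (K := K) (ρ := ρ) k)
    refine Finset.card_le_card_of_injOn φ ?_ hφ.injOn
    intro j hj
    rw [Finset.mem_coe, mem_filter] at hj ⊢
    exact ⟨mem_univ _, hj.2⟩
  have h2 : k * (univ.filter fun j => ¬ wt (φ j) < k).card ≤ ∑ j, wt (φ j) := by
    calc k * (univ.filter fun j => ¬ wt (φ j) < k).card =
          ∑ _j ∈ univ.filter (fun j => ¬ wt (φ j) < k), k := by
            rw [sum_const, smul_eq_mul, mul_comm]
      _ ≤ ∑ j ∈ univ.filter (fun j => ¬ wt (φ j) < k), wt (φ j) := by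
            refine sum_le_sum fun j hj => ?_
            rw [mem_filter] at hj
            exact not_lt.1 hj.2
      _ ≤ _ := sum_le_sum_of_subset (filter_subset _ _)
  have h3 := Finset.card_filter_add_card_filter_not (s := (univ : Finset T)) (fun j => wt (φ j) < k)
  rw [card_univ] at h3
  rw [← h3, mul_add]
  have h4 : k * (univ.filter fun j => wt (φ j) < k).card ≤ k * k ^ (ρ + 1) :=
    Nat.mul_le_mul_left _ h1
  omega

end Pool.Agent.Helper316_PR
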