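import Pool.Agent.Y732.Val

/-!
# Interpolation determinants which do not vanish

The determinant of `D (x + x') ^ (2 s)`, where `log D` is about half of a positive definite
quadratic form, does not vanish when the points `x` are far apart.
-/

set_option autoImplicit false

namespace Pool.Agent.Helper316_PR

open Pool.Agent.Y732

section abs

variable {G : Type*} [AddCommGroup G] {q : G → ℝ}

lemma q_sub_ge (hq0 : ∀ P, 0 ≤ q P) (hq : ∀ P Q, q (P + Q) + q (P - Q) = 2 * q P + 2 * q Q)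
    (u w : G) : q u / 2 - q w ≤ q (u + w) := by
  have h1 := hq (u + w) w
  rw [add_sub_cancel_right] at h1
  have := hq0 (u + w + w)
  linarith

lemma q_add_le (hq0 : ∀ P, 0 ≤ q P) (hq : ∀ P Q, q (P + Q) + q (P - Q) = 2 * q P + 2 * q Q)
    (u w : G) : q (u + w) ≤ 2 * q u + 2 * q w := by
  have h1 := hq u w
  have := hq0 (u - w)
  linarith

lemma q_sum_le (hq0 : ∀ P, 0 ≤ q P) (hq : ∀ P Q, q (P + Q) + q (P - Q) = 2 * q P + 2 * q Q)
    {ι : Type*} (s : Finset ι) (v : ι → G) :
    q (∑ i ∈ s, v i) ≤ 2 ^ s.card * ∑ i ∈ s, q (v i) := by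
  classical
  induction s using Finset.induction_on with
  | empty =>
    have h0 : q 0 = 0 := by
      have := quadratic hq (0 : G) 0
      simpa using this
    simp [h0]
  | insert a s ha ih =>
    rw [Finset.sum_insert ha, Finset.sum_insert ha, Finset.card_insert_of_notMem ha, pow_succ]
    have h1 := q_add_le hq0 hq (v a) (∑ i ∈ s, v i)
    have h2 : (1 : ℝ) ≤ 2 ^ s.card := one_le_pow₀ (by norm_num)
    have h3 := hq0 (v a)
    have h4 : q (v a) ≤ 2 ^ s.card * q (v a) := by nlinarith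
    calc _ ≤ 2 * q (v a) + 2 * q (∑ i ∈ s, v i) := h1
      _ ≤ 2 * (2 ^ s.card * q (v a)) + 2 * (2 ^ s.card * ∑ i ∈ s, q (v i)) := by linarith
      _ = _ := by ring

/-- combinations of independent elements -/
lemma not_tors {r : ℕ} {P : Fin r → G} (hP : LinearIndependent ℤ P) {c : Fin r → ℤ} (hc : c ≠ 0) :
    ¬ IsOfFinAddOrder (∑ i, c i • P i) := by
  intro h
  obtain ⟨n, hn, h1⟩ := isOfFinAddOrder_iff_nsmul_eq_zero.1 h
  apply hc
  rw [Finset.smul_sum] at h1
  have h2 : ∑ i, ((n : ℤ) * c i) • P i = 0 := by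
    rw [← h1]
    refine Finset.sum_congr rfl fun i _ => ?_
    rw [mul_smul, natCast_zsmul]
  have h3 := Fintype.linearIndependent_iff.1 hP _ h2
  funext i
  have h4 := h3 i
  rw [mul_eq_zero] at h4
  exact h4.resolve_left (by exact_mod_cast hn.ne')

/-- the points -/
def pt {r : ℕ} (P : Fin r → G) (i₀ : Fin r) (L : ℕ) {N : ℕ} (n : Fin r → Fin (N + 1)) (e : ℕ) : G :=
  ∑ i, (L * ((n i : ℕ) + 1)) • P i + e • P i₀

lemma pt_eq {r : ℕ} (P : Fin r → G) (i₀ : Fin r) (L : ℕ) {N : ℕ} (n : Fin r → Fin (N + 1)) (e : ℕ) :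
    pt P i₀ L n e = ∑ i, ((L : ℤ) * ((n i : ℕ) + 1) + if i = i₀ then (e : ℤ) else 0) • P i := by
  rw [pt]
  simp only [add_smul (_ : ℤ), Finset.sum_add_distrib, ite_smul, zero_smul, Finset.sum_ite_eq',
    Finset.mem_univ, if_true]
  congr 1
  · refine Finset.sum_congr rfl fun i _ => ?_
    rw [← natCast_zsmul]
    push_cast
    rfl
  · rw [natCast_zsmul]

theorem det_ne_zero (hq0 : ∀ P, 0 ≤ q P)
    (hq : ∀ P Q, q (P + Q) + q (P - Q) = 2 * q P + 2 * q Q) {μ : ℝ} (hμ : 0 < μ)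
    (hmin : ∀ P, ¬ IsOfFinAddOrder P → μ ≤ q P)
    (hsum : Summable fun P : G => Real.exp (-(4 * q P))) {D : G → ℝ} (hD : ∀ P, P ≠ 0 → 0 < D P)
    {C : ℝ} (hC : ∀ P, 2 * Real.log (D P) ≤ q P + C)
    (hlow : ∀ S : G, S ≠ 0 → ∃ C' : ℝ, ∀ P, P ≠ 0 → P + S ≠ 0 →
      q P - C' ≤ 2 * Real.log (D P) ∨ q (P + S) - C' ≤ 2 * Real.log (D (P + S)))
    {r : ℕ} {P : Fin r → G} (hP : LinearIndependent ℤ P) (i₀ : Fin r) {s : ℕ} (hs : 4 ≤ s) :
    ∃ L : ℕ, 4 ≤ L ∧ ∀ N : ℕ, ∃ ε : (Fin r → Fin (N + 1)) → ℕ, (∀ n, ε n ≤ 1) ∧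
      (Matrix.of fun n m => D (pt P i₀ L n (ε n) + pt P i₀ L m (ε m)) ^ (2 * s)).det ≠ 0 := by
  classical
  have hsR : (4 : ℝ) ≤ s := by exact_mod_cast hs
  -- points which are not zero
  have hpos : ∀ (c : Fin r → ℤ), c i₀ ≠ 0 → ∑ i, c i • P i ≠ 0 := by
    intro c hc h
    have h3 := Fintype.linearIndependent_iff.1 hP _ h
    exact hc (h3 i₀)
  have hP0 : P i₀ ≠ 0 := hP.ne_zero i₀
  have hsing : ∀ m : ℤ, m • P i₀ = ∑ i, (if i = i₀ then m else 0) • P i := by
    intro m
    simp only [ite_smul, zero_smul, Finset.sum_ite_eq', Finset.mem_univ, if_true]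
  have h2P : (2 : ℕ) • P i₀ ≠ 0 := by
    rw [← natCast_zsmul, hsing]
    apply hpos
    rw [if_pos rfl]
    norm_num
  obtain ⟨C', hC'⟩ := hlow (2 • P i₀) h2P
  obtain ⟨Sg, hSg⟩ : ∃ Sg : ℝ, Sg = ∑' P : G, Real.exp (-(4 * q P)) := ⟨_, rfl⟩
  have hSg0 : 0 ≤ Sg := by
    rw [hSg]
    exact tsum_nonneg fun P => (Real.exp_pos _).le
  -- the choice of L
  obtain ⟨L, hL⟩ := exists_nat_gt (max 4 (Real.exp (s * C + s * q (P i₀) + s * C') * Sg / (s * μ)))
  have hL4 : (4 : ℝ) < L := lt_of_le_of_lt (le_max_left _ _) hL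
  have hL4' : 4 ≤ L := by
    have : 4 < L := by exact_mod_cast hL4
    omega
  have hLK : Real.exp (s * C + s * q (P i₀) + s * C') * Sg < L * (s * μ) := by
    rw [← div_lt_iff₀ (by positivity)]
    exact lt_of_le_of_lt (le_max_right _ _) hL
  have hLK2 : Real.exp (s * C + s * q (P i₀) + s * C') * Sg <
      Real.exp (s * ((L : ℝ) ^ 2 / 2 - 1) * μ) := by
    refine lt_of_lt_of_le hLK ?_
    have h1 : (L : ℝ) ≤ (L : ℝ) ^ 2 / 2 - 1 := by nlinarith
    have h2 : (L : ℝ) * (s * μ) ≤ s * ((L : ℝ) ^ 2 / 2 - 1) * μ := by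
      have : 0 < s * μ := by positivity
      nlinarith
    have h3 := Real.add_one_le_exp (s * ((L : ℝ) ^ 2 / 2 - 1) * μ)
    linarith
  refine ⟨L, hL4', fun N => ?_⟩
  -- the choice of ε
  have hε : ∀ n : Fin r → Fin (N + 1), ∃ e : ℕ, e ≤ 1 ∧
      q (pt P i₀ L n e + pt P i₀ L n e) - C' ≤
        2 * Real.log (D (pt P i₀ L n e + pt P i₀ L n e)) := by
    intro n
    have e0 : pt P i₀ L n 0 + pt P i₀ L n 0 + 2 • P i₀ = pt P i₀ L n 1 + pt P i₀ L n 1 := by
      unfold pt
      rw [two_nsmul, zero_smul, one_smul]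
      abel
    have hne : ∀ e : ℕ, pt P i₀ L n e + pt P i₀ L n e ≠ 0 := by
      intro e
      rw [pt_eq, ← Finset.sum_add_distrib]
      simp only [← add_smul]
      apply hpos
      rw [if_pos rfl]
      have : 0 < (L : ℤ) * ((n i₀ : ℕ) + 1) := by positivity
      omega
    rcases hC' (pt P i₀ L n 0 + pt P i₀ L n 0) (hne 0) (by rw [e0]; exact hne 1) with h1 | h1
    · exact ⟨0, by norm_num, h1⟩
    · rw [e0] at h1
      exact ⟨1, le_rfl, h1⟩
  choose ε hε1 hε2 using hε
  refine ⟨ε, hε1, fun hdet => ?_⟩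
  obtain ⟨x, hx⟩ : ∃ x : (Fin r → Fin (N + 1)) → G, x = fun n => pt P i₀ L n (ε n) := ⟨_, rfl⟩
  have hx' : ∀ n, pt P i₀ L n (ε n) = x n := fun n => by rw [hx]
  simp only [hx'] at hdet hε2
  have hxx : ∀ n m, x n + x m ≠ 0 := by
    intro n m
    rw [hx]
    show pt P i₀ L n (ε n) + pt P i₀ L m (ε m) ≠ 0
    rw [pt_eq, pt_eq, ← Finset.sum_add_distrib]
    simp only [← add_smul]
    apply hpos
    rw [if_pos rfl, if_pos rfl]
    have h1 : 0 < (L : ℤ) * ((n i₀ : ℕ) + 1) := by positivity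
    have h2 : 0 < (L : ℤ) * ((m i₀ : ℕ) + 1) := by positivity
    omega
  -- the normalized matrix
  have key : (Matrix.of fun n m => Real.exp (-(2 * s * q (x n))) *
      (D (x n + x m) ^ (2 * s) * Real.exp (-(2 * s * q (x m))))).det ≠ 0 := by
    apply det_ne_zero_of_sum_row_lt_diag
    intro k
    have hval : ∀ j, ‖Real.exp (-(2 * s * q (x k))) *
        (D (x k + x j) ^ (2 * s) * Real.exp (-(2 * s * q (x j))))‖ =
        Real.exp (s * (2 * Real.log (D (x k + x j))) - 2 * s * q (x k) - 2 * s * q (x j)) := by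
      intro j
      have h1 := hD _ (hxx k j)
      rw [Real.norm_of_nonneg (by positivity)]
      have h2 : D (x k + x j) ^ (2 * s) = Real.exp (s * (2 * Real.log (D (x k + x j)))) := by
        rw [← Real.exp_log (pow_pos h1 (2 * s)), Real.log_pow]
        congr 1
        push_cast
        ring
      rw [h2, ← Real.exp_add, ← Real.exp_add]
      congr 1
      ring
    simp only [Matrix.of_apply, hval]
    -- the differences
    obtain ⟨u, hu⟩ : ∃ u : (Fin r → Fin (N + 1)) → G,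
        u = fun j => ∑ i, (((k i : ℕ) : ℤ) - ((j i : ℕ) : ℤ)) • P i := ⟨_, rfl⟩
    have huinj : Function.Injective u := by
      intro j j' hjj
      rw [hu] at hjj
      have h1 : ∑ i, (((j' i : ℕ) : ℤ) - ((j i : ℕ) : ℤ)) • P i = 0 := by
        have h2 : ∑ i, (((k i : ℕ) : ℤ) - ((j i : ℕ) : ℤ)) • P i -
            ∑ i, (((k i : ℕ) : ℤ) - ((j' i : ℕ) : ℤ)) • P i = 0 := sub_eq_zero.2 hjj
        rw [← Finset.sum_sub_distrib] at h2
        rw [← h2]
        refine Finset.sum_congr rfl fun i _ => ?_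
        rw [← sub_smul]
        congr 1
        ring
      have h3 := Fintype.linearIndependent_iff.1 hP _ h1
      funext i
      have := h3 i
      apply Fin.ext
      omega
    have hunt : ∀ j, j ≠ k → μ ≤ q (u j) := by
      intro j hj
      apply hmin
      rw [hu]
      apply not_tors hP
      intro h
      apply hj
      funext i
      have := congrFun h i
      simp only [Pi.zero_apply] at this
      apply Fin.ext
      omega
    have hdiff : ∀ j, (L : ℝ) ^ 2 * q (u j) / 2 - q (P i₀) ≤ q (x k - x j) := by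
      intro j
      have e1 : x k - x j = (L : ℤ) • u j + ((ε k : ℤ) - (ε j : ℤ)) • P i₀ := by
        rw [hx, hu]
        show pt P i₀ L k (ε k) - pt P i₀ L j (ε j) = _
        rw [pt_eq, pt_eq, ← Finset.sum_sub_distrib, hsing, Finset.smul_sum,
          ← Finset.sum_add_distrib]
        refine Finset.sum_congr rfl fun i _ => ?_
        rw [← sub_smul, smul_smul, ← add_smul]
        congr 1
        split_ifs
        · ring
        · ring
      rw [e1]
      have h1 := q_sub_ge hq0 hq ((L : ℤ) • u j) (((ε k : ℤ) - (ε j : ℤ)) • P i₀)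
      rw [quadratic_int hq, quadratic_int hq] at h1
      push_cast at h1
      have h2 : ((ε k : ℝ) - (ε j : ℝ)) ^ 2 ≤ 1 := by
        have a1 : (ε k : ℝ) ≤ 1 := by exact_mod_cast hε1 k
        have a2 : (ε j : ℝ) ≤ 1 := by exact_mod_cast hε1 j
        have a3 : (0 : ℝ) ≤ ε k := Nat.cast_nonneg _
        have a4 : (0 : ℝ) ≤ ε j := Nat.cast_nonneg _
        nlinarith
      have h3 : ((ε k : ℝ) - (ε j : ℝ)) ^ 2 * q (P i₀) ≤ q (P i₀) :=
        mul_le_of_le_one_left (hq0 _) h2
      linarith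
    have hbound : ∀ j ∈ Finset.univ.erase k,
        Real.exp (s * (2 * Real.log (D (x k + x j))) - 2 * s * q (x k) - 2 * s * q (x j)) ≤
        Real.exp (s * C + s * q (P i₀) - s * ((L : ℝ) ^ 2 / 2 - 1) * μ) *
          Real.exp (-(4 * q (u j))) := by
      intro j hj
      rw [Finset.mem_erase] at hj
      rw [← Real.exp_add]
      apply Real.exp_le_exp.2
      have h1 := hC (x k + x j)
      have h2 := hq (x k) (x j)
      have h3 := hdiff j
      have h4 := hunt j hj.1
      have h5 := hq0 (u j)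
      have h6 : (s : ℝ) * (2 * Real.log (D (x k + x j))) - 2 * s * q (x k) - 2 * s * q (x j) ≤
          s * (C + q (P i₀) - (L : ℝ) ^ 2 * q (u j) / 2) := by
        have : 2 * Real.log (D (x k + x j)) - 2 * q (x k) - 2 * q (x j) ≤
          C + q (P i₀) - (L : ℝ) ^ 2 * q (u j) / 2 := by linarith
        calc _ = (s : ℝ) * (2 * Real.log (D (x k + x j)) - 2 * q (x k) - 2 * q (x j)) := by ring
          _ ≤ _ := mul_le_mul_of_nonneg_left this (by positivity)
      refine h6.trans ?_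
      have h7 : (0 : ℝ) ≤ (L : ℝ) ^ 2 / 2 - 1 := by nlinarith
      have h8 : s * ((L : ℝ) ^ 2 / 2 - 1) * μ ≤ s * ((L : ℝ) ^ 2 / 2 - 1) * q (u j) :=
        mul_le_mul_of_nonneg_left h4 (by positivity)
      have h9 : 4 * q (u j) ≤ s * q (u j) := mul_le_mul_of_nonneg_right hsR h5
      nlinarith
    refine lt_of_le_of_lt (Finset.sum_le_sum hbound) ?_
    rw [← Finset.mul_sum]
    have hS : ∑ j ∈ Finset.univ.erase k, Real.exp (-(4 * q (u j))) ≤ Sg := by
      rw [hSg, ← Finset.sum_image (s := Finset.univ.erase k) (g := u)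
        (f := fun P => Real.exp (-(4 * q P))) (fun a _ b _ h => huinj h)]
      exact hsum.sum_le_tsum _ fun P _ => (Real.exp_pos _).le
    refine lt_of_le_of_lt (mul_le_mul_of_nonneg_left hS (Real.exp_pos _).le) ?_
    have h1 : Real.exp (s * C + s * q (P i₀) - s * ((L : ℝ) ^ 2 / 2 - 1) * μ) * Sg <
        Real.exp (-(s * C')) := by
      have e1 : Real.exp (s * C + s * q (P i₀) - s * ((L : ℝ) ^ 2 / 2 - 1) * μ) * Sg =
          (Real.exp (s * C + s * q (P i₀) + s * C') * Sg) *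
            Real.exp (-(s * C') - s * ((L : ℝ) ^ 2 / 2 - 1) * μ) := by
        have : Real.exp (s * C + s * q (P i₀) - s * ((L : ℝ) ^ 2 / 2 - 1) * μ) =
            Real.exp (s * C + s * q (P i₀) + s * C') *
              Real.exp (-(s * C') - s * ((L : ℝ) ^ 2 / 2 - 1) * μ) := by
          rw [← Real.exp_add]
          congr 1
          ring
        rw [this]
        ring
      have e2 : Real.exp (-(s * C')) = Real.exp (s * ((L : ℝ) ^ 2 / 2 - 1) * μ) *
            Real.exp (-(s * C') - s * ((L : ℝ) ^ 2 / 2 - 1) * μ) := by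
        rw [← Real.exp_add]
        congr 1
        ring
      rw [e1, e2]
      exact mul_lt_mul_of_pos_right hLK2 (Real.exp_pos _)
    refine lt_of_lt_of_le h1 ?_
    apply Real.exp_le_exp.2
    have h2 := hε2 k
    have h3 : q (x k + x k) = 4 * q (x k) := by
      have := quadratic hq (x k) 2
      rw [two_nsmul] at this
      rw [this]
      norm_num
    have h4 : (s : ℝ) * (q (x k + x k) - C') ≤ s * (2 * Real.log (D (x k + x k))) :=
      mul_le_mul_of_nonneg_left h2 (by positivity)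
    rw [h3] at h4
    linarith
  apply key
  have s1 := Matrix.det_mul_column (fun n => Real.exp (-(2 * s * q (x n))))
    (Matrix.of fun n m => D (x n + x m) ^ (2 * s) * Real.exp (-(2 * s * q (x m))))
  have s2 := Matrix.det_mul_row (fun m => Real.exp (-(2 * s * q (x m))))
    (Matrix.of fun n m => D (x n + x m) ^ (2 * s))
  simp only [Matrix.of_apply] at s1 s2
  rw [s1]
  have s3 : (Matrix.of fun n m => D (x n + x m) ^ (2 * s) * Real.exp (-(2 * s * q (x m)))) =
      (Matrix.of fun n m => Real.exp (-(2 * s * q (x m))) * D (x n + x m) ^ (2 * s)) := by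
    ext n m
    simp only [Matrix.of_apply]
    ring
  rw [s3, s2, hdet, mul_zero, mul_zero]

end abs

end Pool.Agent.Helper316_PR
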