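import Pool.Agent.Helper316_PR.Pts

/-!
# The kernel of the reduction modulo a prime
-/

set_option autoImplicit false

namespace Pool.Agent.Helper316_PR

open WeierstrassCurve Pool.Agent.Y732 Pool.Agent.Y809.BSD14

section norm

variable {K : Type} [NormedField K] [IsUltrametricDist K]

/-- `P`, `Q` in the kernel of the reduction: so is `P + Q` -/
theorem e1_core {A B x₁ x₂ x₃ l c y₃ : K} (hA : ‖A‖ ≤ 1) (hB : ‖B‖ ≤ 1) (e₃ : y₃ = l * x₃ + c)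
    (hc₃ : y₃ ^ 2 = x₃ ^ 3 + A * x₃ + B) (s₁ : x₁ + x₂ + x₃ = l ^ 2)
    (s₂ : x₁ * x₂ + x₁ * x₃ + x₂ * x₃ = A - 2 * l * c) (h₁ : 1 < ‖x₁‖) (h₂ : 1 < ‖x₂‖) :
    1 < ‖x₃‖ := by
  by_contra h₃
  rw [not_lt] at h₃
  have hy₃ : ‖y₃‖ ≤ 1 := by
    have h4 : ‖y₃ ^ 2‖ ≤ 1 := by
      rw [hc₃]
      exact nadd (nadd (npow h₃ 3) (nmul hA h₃)) hB
    rw [norm_pow] at h4
    by_contra h5
    rw [not_le] at h5
    nlinarith
  rcases le_or_gt ‖l‖ 1 with hl | hl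
  · have hc : ‖c‖ ≤ 1 := by
      have : c = y₃ - l * x₃ := by rw [e₃]; ring
      rw [this]
      exact nsub hy₃ (nmul hl h₃)
    have hs : ‖x₁ + x₂‖ ≤ 1 := by
      have : x₁ + x₂ = l ^ 2 - x₃ := by linear_combination s₁
      rw [this]
      exact nsub (npow hl 2) h₃
    have hq : ‖x₁ * x₂‖ ≤ 1 := by
      have : x₁ * x₂ = A - 2 * l * c - x₃ * (x₁ + x₂) := by linear_combination s₂
      rw [this]
      exact nsub (nsub hA (nmul (nmul n2 hl) hc)) (nmul h₃ hs)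
    have hx₁ : ‖x₁‖ ≤ 1 := root_int (s := x₁ + x₂) (q := x₁ * x₂) (by ring) hs hq
    linarith
  · have hl2 : 1 < ‖l‖ ^ 2 := by nlinarith
    have hc : ‖c‖ ≤ ‖l‖ := by
      have : c = y₃ - l * x₃ := by rw [e₃]; ring
      rw [this, sub_eq_add_neg]
      refine (IsUltrametricDist.norm_add_le_max _ _).trans (max_le (hy₃.trans hl.le) ?_)
      rw [norm_neg, norm_mul]
      calc ‖l‖ * ‖x₃‖ ≤ ‖l‖ * 1 := mul_le_mul_of_nonneg_left h₃ (norm_nonneg _)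
        _ = ‖l‖ := mul_one _
    have hs : ‖x₁ + x₂‖ = ‖l‖ ^ 2 := by
      have : x₁ + x₂ = l ^ 2 + (-x₃) := by linear_combination s₁
      rw [this, norm_eq_of_lt, norm_pow]
      rw [norm_neg, norm_pow]
      linarith
    have hq : ‖x₁ * x₂‖ ≤ ‖l‖ ^ 2 := by
      have : x₁ * x₂ = A + (-(2 * l * c)) + (-(x₃ * (x₁ + x₂))) := by linear_combination s₂
      rw [this]
      refine (IsUltrametricDist.norm_add_le_max _ _).trans (max_le
        ((IsUltrametricDist.norm_add_le_max _ _).trans (max_le (hA.trans hl2.le) ?_)) ?_)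
      · rw [norm_neg, norm_mul, norm_mul]
        calc ‖(2 : K)‖ * ‖l‖ * ‖c‖ ≤ 1 * ‖l‖ * ‖l‖ := by
              gcongr
              exact n2
          _ = ‖l‖ ^ 2 := by ring
      · rw [norm_neg, norm_mul, hs]
        calc ‖x₃‖ * ‖l‖ ^ 2 ≤ 1 * ‖l‖ ^ 2 := by gcongr
          _ = ‖l‖ ^ 2 := one_mul _
    have key : ∀ {u v : K}, 1 < ‖v‖ → ‖v‖ ≤ ‖u‖ → ‖u + v‖ = ‖l‖ ^ 2 → ‖u * v‖ ≤ ‖l‖ ^ 2 →
        False := by
      intro u v hv huv hs hq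
      have h5 : ‖l‖ ^ 2 ≤ ‖u‖ := by
        rw [← hs]
        exact (IsUltrametricDist.norm_add_le_max _ _).trans (max_le le_rfl huv)
      rw [norm_mul] at hq
      nlinarith
    rcases le_total ‖x₂‖ ‖x₁‖ with h | h
    · exact key h₂ h hs hq
    · exact key h₁ h (by rw [add_comm]; exact hs) (by rw [mul_comm]; exact hq)

end norm

variable {A B : ℤ} {ℓ : ℕ} [hℓ : Fact ℓ.Prime]

lemma norm_int_eq_one {a : ℤ} (h : ¬ (ℓ : ℤ) ∣ a) : ‖(a : ℚ_[ℓ])‖ = 1 := by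
  refine le_antisymm (Padic.norm_int_le_one a) ?_
  by_contra h1
  rw [not_le] at h1
  exact h ((Padic.norm_intCast_lt_one_iff (k := a)).1 h1)

lemma dvd_dn_iff {x y : ℚ} (h : (EQ A B).Nonsingular x y) :
    ℓ ∣ dn (Affine.Point.some x y h) ↔ 1 < ‖(x : ℚ_[ℓ])‖ := by
  obtain ⟨a, b, h0, hc, hx, hy, -, -, -⟩ := dn_rep h
  generalize dn (Affine.Point.some x y h) = e at h0 hc hx hy
  have heQ : (e : ℚ_[ℓ]) ≠ 0 := by exact_mod_cast h0.ne'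
  have hx' : (x : ℚ_[ℓ]) = (a : ℚ_[ℓ]) / ((e : ℤ) : ℚ_[ℓ]) ^ 2 := by
    rw [hx]
    push_cast
    rfl
  have hpos : 0 < ‖((e : ℤ) : ℚ_[ℓ])‖ := by
    rw [norm_pos_iff]
    exact_mod_cast heQ
  constructor
  · intro h1
    have h2 : ¬ (ℓ : ℤ) ∣ a := by
      intro h3
      have h4 := hc.isUnit_of_dvd' h3 (by exact_mod_cast h1)
      exact (Nat.prime_iff_prime_int.1 hℓ.out).not_isUnit h4
    have h3 : ‖((e : ℤ) : ℚ_[ℓ])‖ < 1 := Padic.norm_intCast_lt_one_iff.2 (by exact_mod_cast h1)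
    rw [hx', norm_div, norm_pow, norm_int_eq_one h2, lt_div_iff₀ (by positivity), one_mul]
    nlinarith
  · intro h1
    by_contra h2
    have h3 : ‖((e : ℤ) : ℚ_[ℓ])‖ = 1 := norm_int_eq_one (by exact_mod_cast h2)
    rw [hx', norm_div, norm_pow, h3, one_pow, div_one] at h1
    exact absurd (Padic.norm_int_le_one (p := ℓ) a) (not_le.2 h1)

/-- the kernel of the reduction modulo `ℓ` -/
def E1 (A B : ℤ) (ℓ : ℕ) [hℓ : Fact ℓ.Prime] : AddSubgroup (EQ A B).Point where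
  carrier := {P | ℓ ∣ dn P}
  zero_mem' := dvd_zero _
  neg_mem' := by
    intro P hP
    have hP' : ℓ ∣ dn P := hP
    show ℓ ∣ dn (-P)
    rw [dn_neg]
    exact hP'
  add_mem' := by
    intro P Q hP hQ
    have hP' : ℓ ∣ dn P := hP
    have hQ' : ℓ ∣ dn Q := hQ
    show ℓ ∣ dn (P + Q)
    rcases P with _ | ⟨x₁, y₁, h₁⟩
    · rw [← Affine.Point.zero_def, zero_add]
      exact hQ'
    rcases Q with _ | ⟨x₂, y₂, h₂⟩
    · rw [← Affine.Point.zero_def, add_zero]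
      exact hP'
    by_cases hxy : x₁ = x₂ ∧ y₁ = (EQ A B).negY x₂ y₂
    · rw [Affine.Point.add_of_Y_eq hxy.1 hxy.2]
      exact dvd_zero _
    · rw [dvd_dn_iff] at hP' hQ'
      rw [Affine.Point.add_some hxy, dvd_dn_iff]
      obtain ⟨r₁, r₂, r₃⟩ := line_rel h₁.1 h₂.1 hxy
      have hns := Affine.nonsingular_add h₁ h₂ hxy
      have heq := (eq_iff _ _).1 hns.1
      set l := (EQ A B).slope x₁ x₂ y₁ y₂ with hl
      set x₃ := (EQ A B).addX x₁ x₂ l with hx₃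
      have e1 : (EQ A B).a₁ = 0 := rfl
      have e2 : (EQ A B).a₂ = 0 := rfl
      have e3 : (EQ A B).a₃ = 0 := rfl
      have e4 : (EQ A B).a₄ = A := rfl
      rw [e1, e2] at r₂
      rw [e1, e3, e4] at r₃
      have hy₃ : (EQ A B).addY x₁ x₂ y₁ l = -(l * x₃ + (y₁ - l * x₁)) := by
        rw [Affine.addY, negY_eq, Affine.negAddY, ← hx₃]
        ring
      rw [hy₃] at heq
      have q₁ : (x₁ : ℚ_[ℓ]) + x₂ + x₃ = (l : ℚ_[ℓ]) ^ 2 := by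
        have : x₁ + x₂ + x₃ = l ^ 2 := by linear_combination r₂
        exact_mod_cast congrArg (fun z : ℚ => (z : ℚ_[ℓ])) this
      have q₂ : (x₁ : ℚ_[ℓ]) * x₂ + x₁ * x₃ + x₂ * x₃ =
          ((A : ℤ) : ℚ_[ℓ]) - 2 * l * ((y₁ - l * x₁ : ℚ) : ℚ_[ℓ]) := by
        have : x₁ * x₂ + x₁ * x₃ + x₂ * x₃ = (A : ℚ) - 2 * l * (y₁ - l * x₁) := by
          linear_combination r₃
        exact_mod_cast congrArg (fun z : ℚ => (z : ℚ_[ℓ])) this
      have q₃ : (((l * x₃ + (y₁ - l * x₁) : ℚ)) : ℚ_[ℓ]) ^ 2 =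
          (x₃ : ℚ_[ℓ]) ^ 3 + ((A : ℤ) : ℚ_[ℓ]) * x₃ + ((B : ℤ) : ℚ_[ℓ]) := by
        have : (l * x₃ + (y₁ - l * x₁)) ^ 2 = x₃ ^ 3 + A * x₃ + B := by rw [← heq]; ring
        exact_mod_cast congrArg (fun z : ℚ => (z : ℚ_[ℓ])) this
      exact e1_core (Padic.norm_int_le_one A) (Padic.norm_int_le_one B)
        (y₃ := (((l * x₃ + (y₁ - l * x₁) : ℚ)) : ℚ_[ℓ])) (l := (l : ℚ_[ℓ]))
        (c := ((y₁ - l * x₁ : ℚ) : ℚ_[ℓ])) (by push_cast; ring) q₃ q₁ q₂ hP' hQ'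

lemma mem_E1 {P : (EQ A B).Point} : P ∈ E1 A B ℓ ↔ ℓ ∣ dn P := Iff.rfl

end Pool.Agent.Helper316_PR
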