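import Pool.Agent.Helper316_PR.Unit
import Pool.Agent.Helper316_PR.Det

/-!
# The interpolation determinant is divisible by a high power of `p`
-/

set_option autoImplicit false

namespace Pool.Agent.Helper316_PR

open WeierstrassCurve Pool.Agent.Y732

variable {A B : ℤ} {p : ℕ} [hp : Fact p.Prime]

lemma norm_eq_one_of_dvd {z : ℤ_[p]} (h : (p : ℤ_[p]) ∣ z - 1) : ‖z‖ = 1 := by
  obtain ⟨u, hu⟩ := exists_inv h
  exact PadicInt.isUnit_iff.1 (IsUnit.of_mul_eq_one u hu)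

/-- divisibility and norm -/
lemma pow_dvd_iff (K : ℕ) (z : ℤ_[p]) : (p : ℤ_[p]) ^ K ∣ z ↔ ‖z‖ ≤ (p : ℝ) ^ (-(K : ℤ)) := by
  rw [PadicInt.norm_le_pow_iff_mem_span_pow, Ideal.mem_span_singleton]

lemma plog_prod {α : Type*} (s : Finset α) (f : α → ℤ_[p]) (h : ∀ a ∈ s, ‖f a‖ = 1) :
    plog p ((∏ a ∈ s, f a : ℤ_[p]) : ℚ_[p]) = ∑ a ∈ s, plog p (f a) := by
  classical
  induction s using Finset.induction_on with
  | empty => simp [plog_one]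
  | insert a s ha ih =>
    have h1 : ‖(∏ x ∈ s, f x : ℤ_[p])‖ = 1 := by
      rw [norm_prod]
      exact Finset.prod_eq_one fun x hx => h x (Finset.mem_insert_of_mem hx)
    rw [Finset.prod_insert ha, Finset.sum_insert ha, PadicInt.coe_mul,
      plog_mul (h a (Finset.mem_insert_self _ _)) h1, ih fun x hx => h x (Finset.mem_insert_of_mem hx)]

/-- the unit is determined by its logarithm -/
lemma unit_approx (hp3 : 3 ≤ p) {ρ : ℕ} (θ : ℤ_[p]) (hθ : (p : ℤ_[p]) ∣ θ - 1) (ϑ : Fin ρ → ℤ_[p])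
    (hϑ : ∀ κ, (p : ℤ_[p]) ∣ ϑ κ - 1) (w : Fin ρ → ℤ_[p])
    (hw : plog p (θ : ℚ_[p]) = ∑ κ, (w κ : ℚ_[p]) * plog p (ϑ κ : ℚ_[p])) (n : Fin ρ → ℕ) (K : ℕ)
    (hn : ∀ κ, (p : ℤ_[p]) ^ K ∣ w κ - n κ) : (p : ℤ_[p]) ^ K ∣ θ - ∏ κ, ϑ κ ^ n κ := by
  have h1 : ∀ κ, ‖ϑ κ ^ n κ‖ = 1 := fun κ => by
    rw [norm_pow, norm_eq_one_of_dvd (hϑ κ), one_pow]
  have h2 : ‖(∏ κ, ϑ κ ^ n κ : ℤ_[p])‖ = 1 := by
    rw [norm_prod]
    exact Finset.prod_eq_one fun κ _ => h1 κ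
  have h3 : (p : ℤ_[p]) ∣ θ - ∏ κ, ϑ κ ^ n κ := by
    have h4 : (p : ℤ_[p]) ∣ (∏ κ, ϑ κ ^ n κ) - 1 := by
      rw [← Ideal.mem_span_singleton, ← Ideal.Quotient.eq_zero_iff_mem, map_sub, map_one, map_prod]
      have h5 : ∀ κ, Ideal.Quotient.mk (Ideal.span {(p : ℤ_[p])}) (ϑ κ ^ n κ) = 1 := by
        intro κ
        have h6 : Ideal.Quotient.mk (Ideal.span {(p : ℤ_[p])}) (ϑ κ) = 1 := by
          have := hϑ κ
          rw [← Ideal.mem_span_singleton, ← Ideal.Quotient.eq_zero_iff_mem, map_sub, map_one,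
            sub_eq_zero] at this
          exact this
        rw [map_pow, h6, one_pow]
      rw [Finset.prod_eq_one fun κ _ => h5 κ, sub_self]
    have := dvd_sub hθ h4
    rwa [sub_sub_sub_cancel_right] at this
  have h4 : ‖((θ : ℚ_[p])) - ((∏ κ, ϑ κ ^ n κ : ℤ_[p]) : ℚ_[p])‖ ≤ (p : ℝ)⁻¹ := by
    rw [← PadicInt.coe_sub]
    exact norm_le_of_dvd h3
  have h5 := norm_plog_sub hp3 (z₁ := (θ : ℚ_[p])) (z₂ := ((∏ κ, ϑ κ ^ n κ : ℤ_[p]) : ℚ_[p]))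
    (norm_eq_one_of_dvd hθ) h2 h4
  rw [pow_dvd_iff, PadicInt.norm_def, PadicInt.coe_sub, ← h5, hw, plog_prod _ _ fun κ _ => h1 κ,
    ← Finset.sum_sub_distrib]
  refine IsUltrametricDist.norm_sum_le_of_forall_le_of_nonneg (by positivity) fun κ _ => ?_
  have h6 : ‖(ϑ κ : ℚ_[p])‖ = 1 := norm_eq_one_of_dvd (hϑ κ)
  rw [PadicInt.coe_pow, plog_pow h6, ← sub_mul, norm_mul]
  have h7 := (pow_dvd_iff _ _).1 (hn κ)
  rw [PadicInt.norm_def, PadicInt.coe_sub, PadicInt.coe_natCast] at h7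
  have h8 : ‖plog p (ϑ κ : ℚ_[p])‖ ≤ 1 := (norm_plog_le hp3 h6).trans
    (inv_lt_one_of_one_lt₀ (by exact_mod_cast hp.out.one_lt)).le
  calc _ ≤ (p : ℝ) ^ (-(K : ℤ)) * 1 := mul_le_mul h7 h8 (norm_nonneg _) (by positivity)
    _ = _ := mul_one _

/-- the truncated binomial expansion -/
lemma binom_trunc {y : ℤ_[p]} (hy : (p : ℤ_[p]) ∣ y) (n K : ℕ) :
    (p : ℤ_[p]) ^ K ∣ (1 + y) ^ n - ∑ μ : Fin K, (n.choose μ : ℤ_[p]) * y ^ (μ : ℕ) := by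
  have h1 : (1 + y) ^ n = ∑ μ ∈ Finset.range (K + (n + 1)), (n.choose μ : ℤ_[p]) * y ^ μ := by
    rw [add_comm 1 y, add_pow]
    have h2 : ∑ μ ∈ Finset.range (K + (n + 1)), (n.choose μ : ℤ_[p]) * y ^ μ =
        ∑ μ ∈ Finset.range (n + 1), (n.choose μ : ℤ_[p]) * y ^ μ := by
      rw [add_comm K, Finset.sum_range_add]
      rw [add_eq_left]
      refine Finset.sum_eq_zero fun x _ => ?_
      rw [Nat.choose_eq_zero_of_lt (by omega), Nat.cast_zero, zero_mul]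
    rw [h2]
    refine Finset.sum_congr rfl fun x _ => ?_
    rw [one_pow, mul_one, mul_comm]
  rw [h1, Fin.sum_univ_eq_sum_range (fun μ => (n.choose μ : ℤ_[p]) * y ^ μ) K,
    Finset.sum_range_add, add_sub_cancel_left]
  refine Finset.dvd_sum fun x _ => Dvd.dvd.mul_left ?_ _
  exact (pow_dvd_pow _ (by omega : K ≤ K + x)).trans (pow_dvd_pow_of_dvd hy _)

lemma dvd_prod_sub_prod {R : Type*} [CommRing R] (π : R) {α : Type*} (s : Finset α) (f g : α → R)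
    (h : ∀ a ∈ s, π ∣ f a - g a) : π ∣ (∏ a ∈ s, f a) - ∏ a ∈ s, g a := by
  classical
  induction s using Finset.induction_on with
  | empty => simp
  | insert a s ha ih =>
    rw [Finset.prod_insert ha, Finset.prod_insert ha]
    have e : f a * ∏ x ∈ s, f x - g a * ∏ x ∈ s, g x = (f a - g a) * ∏ x ∈ s, f x +
        g a * ((∏ x ∈ s, f x) - ∏ x ∈ s, g x) := by ring
    rw [e]
    exact dvd_add ((h a (Finset.mem_insert_self _ _)).mul_right _)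
      ((ih fun x hx => h x (Finset.mem_insert_of_mem hx)).mul_left _)

/-- determinants of congruent matrices -/
lemma dvd_det_sub_det {R : Type*} [CommRing R] (π : R) {T : Type*} [Fintype T] [DecidableEq T]
    (M N : Matrix T T R) (h : ∀ i j, π ∣ M i j - N i j) : π ∣ M.det - N.det := by
  rw [← Ideal.mem_span_singleton, ← Ideal.Quotient.eq_zero_iff_mem, map_sub, sub_eq_zero,
    RingHom.map_det, RingHom.map_det]
  congr 1
  ext i j
  simp only [RingHom.mapMatrix_apply, Matrix.map_apply]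
  rw [← sub_eq_zero, ← map_sub, Ideal.Quotient.eq_zero_iff_mem, Ideal.mem_span_singleton]
  exact h i j

/-- The determinant of the powers of the denominators is divisible by a high power of `p`. -/
theorem det_dn_dvd (hp5 : 5 ≤ p) (hD : 4 * A ^ 3 + 27 * B ^ 2 ≠ 0)
    {h : (EQ A B).Point → ℚ_[p]} (hh : IsHeight p A B h) {T : Type*} [Fintype T] [DecidableEq T]
    (P Q : T → (EQ A B).Point) (hP : ∀ i, P i ∈ Gd A B p) (hQ : ∀ j, Q j ∈ Gd A B p)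
    (hP0 : ∀ i, P i ≠ 0) (hQ0 : ∀ j, Q j ≠ 0) (h1 : ∀ i j, P i ≠ Q j) (h2 : ∀ i j, P i ≠ -Q j)
    {ρ : ℕ} (R : Fin ρ → (EQ A B).Point) (hR : ∀ κ, R κ ∈ Gd A B p) (w : T → Fin ρ → ℤ_[p])
    (hw : ∀ i j, h (P i + Q j) - h (P i) - h (Q j) =
      ∑ κ, (w i κ : ℚ_[p]) * (h (R κ + Q j) - h (R κ) - h (Q j))) (k : ℕ) :
    (p : ℤ) ^ (k * Fintype.card T - k * k ^ (ρ + 1)) ∣
      (Matrix.of fun i j => (dn (P i + Q j) : ℤ) ^ (4 * (p - 1))).det := by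
  obtain ⟨σ, u, v, huv⟩ := exists_units hD hh
  obtain ⟨K, hK⟩ : ∃ K, K = k * Fintype.card T := ⟨_, rfl⟩
  have hPQ : ∀ i j, P i + Q j ∈ Gd A B p := fun i j => (Gd A B p).add_mem (hP i) (hQ j)
  have hRQ : ∀ κ j, R κ + Q j ∈ Gd A B p := fun κ j => (Gd A B p).add_mem (hR κ) (hQ j)
  -- the coefficients of the sigma part
  have hc : ∀ j, ∃ c : Fin K → ℤ_[p], ∀ i, (p : ℤ_[p]) ^ K ∣
      ev (tz p (P i + Q j)) σ ^ (4 * (p - 1)) - ∑ a : Fin K, c a * tz p (P i) ^ (a : ℕ) := by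
    intro j
    exact ((pm_sigma (fun i => Gd_le (hP i)) (Gd_le (hQ j)) hP0 (hQ0 j) (fun i => h1 i j)
      (fun i => h2 i j) σ K).pow (4 * (p - 1))).trunc fun i => dvd_tz (Gd_le (hP i))
  choose c hc using hc
  -- the unit part
  have hone : ∀ {X Y : (EQ A B).Point}, X ∈ Gd A B p → Y ∈ Gd A B p →
      (p : ℤ_[p]) ∣ u X * u Y * v (X + Y) - 1 ∧
      plog p ((u X * u Y * v (X + Y) : ℤ_[p]) : ℚ_[p]) =
        -(((4 * (p - 1) : ℕ) : ℚ_[p]) * (h (X + Y) - h X - h Y)) := by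
    intro X Y hX hY
    obtain ⟨a1, b1, -, l1, -⟩ := huv X hX
    obtain ⟨a2, b2, -, l2, -⟩ := huv Y hY
    obtain ⟨a3, b3, -, -, l3⟩ := huv (X + Y) ((Gd A B p).add_mem hX hY)
    have a4 : (p : ℤ_[p]) ∣ v (X + Y) - 1 := by
      have e : v (X + Y) - 1 = -((u (X + Y) - 1) * v (X + Y)) := by linear_combination b3
      rw [e]
      exact (a3.mul_right _).neg_right
    constructor
    · have e : u X * u Y * v (X + Y) - 1 = (u X - 1) * (u Y * v (X + Y)) +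
        ((u Y - 1) * v (X + Y) + (v (X + Y) - 1)) := by ring
      rw [e]
      exact dvd_add (a1.mul_right _) (dvd_add (a2.mul_right _) a4)
    · have n1 : ‖(u X : ℚ_[p])‖ = 1 := norm_eq_one_of_dvd a1
      have n2 : ‖(u Y : ℚ_[p])‖ = 1 := norm_eq_one_of_dvd a2
      have n3 : ‖(v (X + Y) : ℚ_[p])‖ = 1 := norm_eq_one_of_dvd a4
      rw [PadicInt.coe_mul, plog_mul (by rw [PadicInt.coe_mul, norm_mul, n1, n2, one_mul]) n3,
        PadicInt.coe_mul, plog_mul n1 n2, l1, l2, l3]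
      ring
  obtain ⟨θ, hθ⟩ : ∃ θ : T → T → ℤ_[p], θ = fun i j => u (P i) * u (Q j) * v (P i + Q j) :=
    ⟨_, rfl⟩
  obtain ⟨ϑ, hϑ⟩ : ∃ ϑ : Fin ρ → T → ℤ_[p], ϑ = fun κ j => u (R κ) * u (Q j) * v (R κ + Q j) :=
    ⟨_, rfl⟩
  have hθ1 : ∀ i j, (p : ℤ_[p]) ∣ θ i j - 1 := fun i j => by
    rw [hθ]; exact (hone (hP i) (hQ j)).1
  have hϑ1 : ∀ κ j, (p : ℤ_[p]) ∣ ϑ κ j - 1 := fun κ j => by
    rw [hϑ]; exact (hone (hR κ) (hQ j)).1
  have hlog : ∀ i j, plog p (θ i j : ℚ_[p]) =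
      ∑ κ, (w i κ : ℚ_[p]) * plog p (ϑ κ j : ℚ_[p]) := by
    intro i j
    have e1 : plog p (θ i j : ℚ_[p]) = -(((4 * (p - 1) : ℕ) : ℚ_[p]) *
        (h (P i + Q j) - h (P i) - h (Q j))) := by
      rw [hθ]; exact (hone (hP i) (hQ j)).2
    have e2 : ∀ κ, plog p (ϑ κ j : ℚ_[p]) = -(((4 * (p - 1) : ℕ) : ℚ_[p]) *
        (h (R κ + Q j) - h (R κ) - h (Q j))) := by
      intro κ
      rw [hϑ]; exact (hone (hR κ) (hQ j)).2
    rw [e1, hw, Finset.mul_sum, ← Finset.sum_neg_distrib]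
    refine Finset.sum_congr rfl fun κ _ => ?_
    rw [e2]
    ring
  have hn : ∀ i κ, ∃ n : ℕ, (p : ℤ_[p]) ^ K ∣ w i κ - n := by
    intro i κ
    refine ⟨(w i κ).appr K, ?_⟩
    rw [← Ideal.mem_span_singleton]
    exact PadicInt.appr_spec K (w i κ)
  choose n hn using hn
  have hun : ∀ i j, (p : ℤ_[p]) ^ K ∣ θ i j - ∏ κ, ϑ κ j ^ n i κ := fun i j =>
    unit_approx (by omega) _ (hθ1 i j) (fun κ => ϑ κ j) (fun κ => hϑ1 κ j) (w i) (hlog i j)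
      (n i) K (hn i)
  -- the entries
  obtain ⟨f, hf⟩ : ∃ f : T → Fin K × (Fin ρ → Fin K) → ℤ_[p], f = fun i v =>
      tz p (P i) ^ (v.1 : ℕ) * ∏ κ, ((n i κ).choose (v.2 κ : Fin K) : ℤ_[p]) := ⟨_, rfl⟩
  obtain ⟨g, hg⟩ : ∃ g : Fin K × (Fin ρ → Fin K) → T → ℤ_[p], g = fun v j =>
      c j v.1 * ∏ κ, (ϑ κ j - 1) ^ ((v.2 κ : Fin K) : ℕ) := ⟨_, rfl⟩
  have hent : ∀ i j, (p : ℤ_[p]) ^ K ∣
      (u (P i) * (dn (P i + Q j) : ℤ_[p]) ^ (4 * (p - 1)) * u (Q j)) - ∑ v, f i v * g v j := by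
    intro i j
    obtain ⟨-, b3, e3, -, -⟩ := huv (P i + Q j) (hPQ i j)
    have e1 : u (P i) * (dn (P i + Q j) : ℤ_[p]) ^ (4 * (p - 1)) * u (Q j) =
        ev (tz p (P i + Q j)) σ ^ (4 * (p - 1)) * θ i j := by
      rw [← e3, hθ]
      linear_combination (-(u (P i) * (dn (P i + Q j) : ℤ_[p]) ^ (4 * (p - 1)) * u (Q j))) * b3
    have e2 : ∑ v, f i v * g v j = (∑ a : Fin K, c j a * tz p (P i) ^ (a : ℕ)) *
        ∏ κ, ∑ μ : Fin K, ((n i κ).choose μ : ℤ_[p]) * (ϑ κ j - 1) ^ (μ : ℕ) := by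
      rw [Finset.prod_univ_sum, Fintype.piFinset_univ, Finset.sum_mul_sum, hf, hg,
        Fintype.sum_prod_type]
      refine Finset.sum_congr rfl fun a _ => Finset.sum_congr rfl fun μ _ => ?_
      rw [Finset.prod_mul_distrib]
      ring
    rw [e1, e2]
    have e4 : (p : ℤ_[p]) ^ K ∣ θ i j -
        ∏ κ, ∑ μ : Fin K, ((n i κ).choose μ : ℤ_[p]) * (ϑ κ j - 1) ^ (μ : ℕ) := by
      have e5 : (p : ℤ_[p]) ^ K ∣ (∏ κ, ϑ κ j ^ n i κ) -
        ∏ κ, ∑ μ : Fin K, ((n i κ).choose μ : ℤ_[p]) * (ϑ κ j - 1) ^ (μ : ℕ) := by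
        refine dvd_prod_sub_prod _ _ _ _ fun κ _ => ?_
        have := binom_trunc (hϑ1 κ j) (n i κ) K
        rwa [add_sub_cancel] at this
      have := dvd_add (hun i j) e5
      rwa [sub_add_sub_cancel] at this
    have e6 := hc j i
    generalize ∏ κ, ∑ μ : Fin K, ((n i κ).choose μ : ℤ_[p]) * (ϑ κ j - 1) ^ (μ : ℕ) = Y at e4 ⊢
    generalize (∑ a : Fin K, c j a * tz p (P i) ^ (a : ℕ)) = X at e6 ⊢
    generalize ev (tz p (P i + Q j)) σ ^ (4 * (p - 1)) = Z at e6 ⊢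
    have e7 : Z * θ i j - X * Y = (Z - X) * θ i j + (θ i j - Y) * X := by ring
    rw [e7]
    exact dvd_add (e6.mul_right _) (e4.mul_right _)
  have hdet := dvd_det_sub_det ((p : ℤ_[p]) ^ K)
    (Matrix.of fun i j => u (P i) * (dn (P i + Q j) : ℤ_[p]) ^ (4 * (p - 1)) * u (Q j))
    (Matrix.of fun i j => ∑ v, f i v * g v j) hent
  have hdiv : (p : ℤ_[p]) ^ (k * Fintype.card T - k * k ^ (ρ + 1)) ∣
      (Matrix.of fun i j => ∑ v, f i v * g v j).det := by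
    refine det_dvd (p : ℤ_[p]) f g (fun v => (v.1 : ℕ)) (fun v => ∑ κ, ((v.2 κ : Fin K) : ℕ))
      ?_ ?_ _ ?_
    · intro i v
      rw [hf]
      exact Dvd.dvd.mul_right (pow_dvd_pow_of_dvd (dvd_tz (Gd_le (hP i))) _) _
    · intro v j
      rw [hg, ← Finset.prod_pow_eq_pow_sum]
      exact Dvd.dvd.mul_left (Finset.prod_dvd_prod_of_dvd _ _ fun κ _ =>
        pow_dvd_pow_of_dvd (hϑ1 κ j) _) _
    · intro φ hφ
      have := sum_wt_ge φ hφ k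
      have e : ∀ j, wt (φ j) = ((φ j).1 : ℕ) + ∑ κ, (((φ j).2 κ : Fin K) : ℕ) := fun j => rfl
      simp only [e] at this
      omega
  have hle : (p : ℤ_[p]) ^ (k * Fintype.card T - k * k ^ (ρ + 1)) ∣ (p : ℤ_[p]) ^ K :=
    pow_dvd_pow _ (by rw [hK]; exact Nat.sub_le _ _)
  have hfin := dvd_add (hle.trans hdet) hdiv
  rw [sub_add_cancel] at hfin
  -- remove the units
  have e1 : (Matrix.of fun i j => u (P i) * (dn (P i + Q j) : ℤ_[p]) ^ (4 * (p - 1)) * u (Q j)).det =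
      (∏ j, u (Q j)) * ((∏ i, u (P i)) *
        (Matrix.of fun i j => (dn (P i + Q j) : ℤ_[p]) ^ (4 * (p - 1))).det) := by
    have s1 := Matrix.det_mul_column (fun i => u (P i))
      (Matrix.of fun i j => (dn (P i + Q j) : ℤ_[p]) ^ (4 * (p - 1)))
    have s2 := Matrix.det_mul_row (fun j => u (Q j))
      (Matrix.of fun i j => u (P i) * (dn (P i + Q j) : ℤ_[p]) ^ (4 * (p - 1)))
    simp only [Matrix.of_apply] at s1 s2
    rw [← s1, ← s2]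
    congr 1
    ext i j
    simp only [Matrix.of_apply]
    ring
  have hunit : IsUnit ((∏ j, u (Q j)) * ∏ i, u (P i)) := by
    have hU : ∀ X ∈ Gd A B p, IsUnit (u X) := fun X hX =>
      IsUnit.of_mul_eq_one _ (huv X hX).2.1
    refine IsUnit.mul ?_ ?_
    · exact IsUnit.prod_univ_iff.2 fun j => hU _ (hQ j)
    · exact IsUnit.prod_univ_iff.2 fun j => hU _ (hP j)
  rw [e1, ← mul_assoc, hunit.dvd_mul_left] at hfin
  rw [← PadicInt.pow_p_dvd_int_iff]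
  have e2 : (((Matrix.of fun i j => (dn (P i + Q j) : ℤ) ^ (4 * (p - 1))).det : ℤ) : ℤ_[p]) =
      (Matrix.of fun i j => (dn (P i + Q j) : ℤ_[p]) ^ (4 * (p - 1))).det := by
    have := RingHom.map_det (Int.castRingHom ℤ_[p])
      (Matrix.of fun i j => (dn (P i + Q j) : ℤ) ^ (4 * (p - 1)))
    rw [eq_intCast] at this
    rw [this]
    congr 1
    ext i j
    simp
  rw [e2]
  exact hfin

end Pool.Agent.Helper316_PR
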