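import Pool.Agent.Helper316_PR.Pts
import Pool.Agent.TH910.LS.Chat

/-!
# The canonical real height and the denominators of rational points
-/

set_option autoImplicit false

namespace Pool.Agent.Helper316_PR

open WeierstrassCurve Pool.Agent.Y732 Height

variable {A B : ℤ}

/-- the naive height -/
noncomputable def nh (P : (EQ A B).Point) : ℝ := logHeight P.xRep

/-- the canonical height -/
theorem exists_canon (hD : 4 * A ^ 3 + 27 * B ^ 2 ≠ 0) :
    ∃ q : (EQ A B).Point → ℝ, (∀ P, 0 ≤ q P) ∧ (∀ P Q, q (P + Q) + q (P - Q) = 2 * (q P + q Q)) ∧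
      (∀ b : ℝ, {P | q P ≤ b}.Finite) ∧ (∀ P, ¬ IsOfFinAddOrder P → 0 < q P) ∧
      ∃ C : ℝ, ∀ P, |q P - nh P| ≤ C := by
  have hD' : 4 * (A : ℚ) ^ 3 + 27 * (B : ℚ) ^ 2 ≠ 0 := by exact_mod_cast hD
  obtain ⟨-, h2, h3, h4⟩ := Pool.Agent.TH910.LS.chat_spec (a := (A : ℚ)) (b := (B : ℚ)) hD'
  exact ⟨Pool.Agent.TH910.LS.chat (a := (A : ℚ)) (b := (B : ℚ)), h2, h3,
    fun b => Pool.Agent.TH910.LS.chat_fin hD' b, fun P hP => Pool.Agent.TH910.LS.chat_pos hD' hP, h4⟩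

lemma nh_zero : nh (0 : (EQ A B).Point) = 0 := by
  rw [nh, Affine.Point.xRep_zero, logHeight_swap, ← logHeight₁_eq_logHeight, logHeight₁_zero]

lemma nh_some {x y : ℚ} (h : (EQ A B).Nonsingular x y) :
    nh (Affine.Point.some x y h) = Real.log ((max x.num.natAbs x.den : ℕ) : ℝ) := by
  rw [nh, Affine.Point.xRep_some, ← logHeight₁_eq_logHeight]
  exact Rat.logHeight₁_eq_log_max x

/-- the size of the first coordinate -/
noncomputable def xb : (EQ A B).Point → ℝ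
  | .zero => 0
  | .some x _ _ => |(x : ℝ)|

/-- the denominator is at most the height -/
lemma log_dn_le (P : (EQ A B).Point) : 2 * Real.log (dn P) ≤ nh P := by
  rcases P with _ | ⟨x, y, h⟩
  · rw [← Affine.Point.zero_def, nh_zero, dn_zero]
    simp
  · rw [nh_some]
    obtain ⟨a, b, h0, -, -, -, -, hden, -⟩ := dn_rep h
    generalize dn (Affine.Point.some x y h) = e at h0 hden
    have e1 : 2 * Real.log (e : ℝ) = Real.log ((e : ℝ) ^ 2) := by
      rw [Real.log_pow]; push_cast; ring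
    rw [e1]
    apply Real.log_le_log (by positivity)
    have : e ^ 2 ≤ max x.num.natAbs x.den := by
      rw [← hden]
      exact le_max_right _ _
    exact_mod_cast this

/-- if the first coordinate is bounded then the denominator is at least the height -/
lemma le_log_dn {P : (EQ A B).Point} (hP : P ≠ 0) {X : ℝ} (hX : 1 ≤ X) (hx : xb P ≤ X) :
    nh P - Real.log X ≤ 2 * Real.log (dn P) := by
  rcases P with _ | ⟨x, y, h⟩
  · exact absurd rfl hP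
  · rw [nh_some]
    obtain ⟨a, b, h0, -, hxe, -, -, hden, hnum⟩ := dn_rep h
    generalize dn (Affine.Point.some x y h) = e at h0 hden hxe
    have e1 : 2 * Real.log (e : ℝ) = Real.log ((e : ℝ) ^ 2) := by
      rw [Real.log_pow]; push_cast; ring
    have he : (0 : ℝ) < (e : ℝ) ^ 2 := by positivity
    have hX0 : 0 < X := by linarith
    rw [e1, sub_le_iff_le_add, ← Real.log_mul he.ne' hX0.ne']
    have h1 : 0 < (max x.num.natAbs x.den : ℕ) := lt_max_of_lt_right x.den_pos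
    apply Real.log_le_log (by exact_mod_cast h1)
    have hx' : |(x : ℝ)| ≤ X := hx
    have h2 : ((x.num.natAbs : ℕ) : ℝ) ≤ (e : ℝ) ^ 2 * X := by
      have h3 : ((x.num.natAbs : ℕ) : ℝ) = |(x : ℝ)| * (e : ℝ) ^ 2 := by
        have h4 : ((x.num.natAbs : ℕ) : ℝ) = |((x.num : ℤ) : ℝ)| := by
          rw [Nat.cast_natAbs, Int.cast_abs]
        have h5 : ((x.num : ℤ) : ℝ) = (x : ℝ) * (e : ℝ) ^ 2 := by
          have h6 : ((x.num : ℤ) : ℚ) = x * (e : ℚ) ^ 2 := by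
            have h7 : (e : ℚ) ≠ 0 := by exact_mod_cast h0.ne'
            have h8 : x * (e : ℚ) ^ 2 = (a : ℚ) := by
              rw [hxe]
              field_simp
            rw [h8, hnum]
          exact_mod_cast congrArg (fun z : ℚ => (z : ℝ)) h6
        rw [h4, h5, abs_mul, abs_of_pos he]
      rw [h3, mul_comm]
      exact mul_le_mul_of_nonneg_left hx' he.le
    have h3 : ((x.den : ℕ) : ℝ) ≤ (e : ℝ) ^ 2 * X := by
      rw [hden]
      push_cast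
      nlinarith
    rw [Nat.cast_max]
    exact max_le h2 h3

/-- one of two points with a given non-zero difference is not near the origin -/
theorem exists_xb_bound (S : (EQ A B).Point) (hS : S ≠ 0) :
    ∃ X : ℝ, 1 ≤ X ∧ ∀ P : (EQ A B).Point, xb P ≤ X ∨ xb (P + S) ≤ X := by
  rcases S with _ | ⟨x₁, y₁, h₁⟩
  · exact absurd rfl hS
  obtain ⟨c, hc⟩ : ∃ c : ℝ, c = 1 + |(A : ℝ)| + |(B : ℝ)| := ⟨_, rfl⟩
  obtain ⟨X, hXd⟩ : ∃ X : ℝ, X = 1 + 2 * |(x₁ : ℝ)| + 4 * (|(x₁ : ℝ)| + ((x₁ : ℝ) ^ 2 + |(A : ℝ)|) +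
    (|(B : ℝ)| + (y₁ : ℝ) ^ 2 + |(x₁ : ℝ)| ^ 3) + 2 * |(y₁ : ℝ)| * c) := ⟨_, rfl⟩
  have hc1 : 1 ≤ c := by
    rw [hc]
    have := abs_nonneg (A : ℝ)
    have := abs_nonneg (B : ℝ)
    linarith
  have a1 := abs_nonneg (A : ℝ)
  have a2 := abs_nonneg (B : ℝ)
  have a3 := abs_nonneg (x₁ : ℝ)
  have a4 := abs_nonneg (y₁ : ℝ)
  have a5 : 0 ≤ |(x₁ : ℝ)| ^ 3 := by positivity
  have a6 : 0 ≤ |(y₁ : ℝ)| * c := by positivity
  have hX2 : 1 + 2 * |(x₁ : ℝ)| ≤ X := by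
    rw [hXd]
    have := sq_nonneg (x₁ : ℝ)
    have := sq_nonneg (y₁ : ℝ)
    linarith
  refine ⟨X, by linarith, fun P => ?_⟩
  rcases P with _ | ⟨x, y, h⟩
  · left
    show (0 : ℝ) ≤ X
    linarith
  by_cases hx : |(x : ℝ)| ≤ X
  · exact Or.inl hx
  rw [not_le] at hx
  right
  have hne : x ≠ x₁ := by
    rintro rfl
    linarith
  have hneR : (x : ℝ) - x₁ ≠ 0 := by
    rw [sub_ne_zero]
    exact_mod_cast hne
  rw [Affine.Point.add_of_X_ne hne]
  show |(((EQ A B).addX x x₁ ((EQ A B).slope x x₁ y y₁) : ℚ) : ℝ)| ≤ X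
  have e1 : (EQ A B).a₁ = 0 := rfl
  have e2 : (EQ A B).a₂ = 0 := rfl
  have hX' : (((EQ A B).addX x x₁ ((EQ A B).slope x x₁ y y₁) : ℚ) : ℝ) =
      (((y : ℝ) - y₁) / (x - x₁)) ^ 2 - x - x₁ := by
    rw [Affine.addX, Affine.slope_of_X_ne hne, e1, e2]
    push_cast
    ring
  rw [hX']
  have he : (y : ℝ) ^ 2 = (x : ℝ) ^ 3 + A * x + B := by
    exact_mod_cast congrArg (fun z : ℚ => (z : ℝ)) ((eq_iff x y).1 h.1)
  generalize (x : ℝ) = x at hx hneR he ⊢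
  generalize (y : ℝ) = y at he ⊢
  generalize (x₁ : ℝ) = x₁ at hXd a3 a5 hX2 hneR ⊢
  generalize (y₁ : ℝ) = y₁ at hXd a4 a6 ⊢
  have hnum : ((y - y₁) / (x - x₁)) ^ 2 - x - x₁ =
      (x ^ 2 * x₁ + x * (x₁ ^ 2 + A) + (B + y₁ ^ 2 - x₁ ^ 3) - 2 * y * y₁) / (x - x₁) ^ 2 := by
    field_simp
    linear_combination he
  rw [hnum, abs_div, abs_of_pos (by positivity : (0 : ℝ) < (x - x₁) ^ 2),
    div_le_iff₀ (by positivity)]
  have hx1 : 1 ≤ |x| := by linarith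
  have hxx : |x| ≤ x ^ 2 := by
    rw [← sq_abs x]
    nlinarith
  have hx2 : 1 ≤ x ^ 2 := by linarith
  have hy : |y| ≤ x ^ 2 * c := by
    apply abs_le_of_sq_le_sq' _ (by positivity) |> abs_le.2
    rw [he]
    have b1 : x ^ 3 ≤ x ^ 4 := by
      have : x ^ 3 ≤ |x| ^ 3 := by
        rw [← abs_pow]
        exact le_abs_self _
      have h4 : |x| ^ 3 ≤ |x| ^ 4 := pow_le_pow_right₀ hx1 (by norm_num)
      have h5 : |x| ^ 4 = x ^ 4 := by
        rw [← abs_pow]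
        exact abs_of_nonneg (by positivity)
      linarith
    have b2 : (A : ℝ) * x ≤ |(A : ℝ)| * x ^ 4 := by
      have h4 : (A : ℝ) * x ≤ |(A : ℝ)| * |x| := by
        rw [← abs_mul]
        exact le_abs_self _
      have h5 : |x| ≤ x ^ 4 := by nlinarith
      exact h4.trans (mul_le_mul_of_nonneg_left h5 a1)
    have b3 : (B : ℝ) ≤ |(B : ℝ)| * x ^ 4 := by
      have h4 : (B : ℝ) ≤ |(B : ℝ)| := le_abs_self _
      have h5 : 1 ≤ x ^ 4 := by nlinarith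
      nlinarith
    have b4 : x ^ 3 + A * x + B ≤ x ^ 4 * c := by
      rw [hc]
      linarith
    have b5 : x ^ 4 * c ≤ (x ^ 2 * c) ^ 2 := by
      have : (x ^ 2 * c) ^ 2 = x ^ 4 * c * c := by ring
      rw [this]
      have : 0 ≤ x ^ 4 * c := by positivity
      nlinarith
    linarith
  have hden : x ^ 2 / 4 ≤ (x - x₁) ^ 2 := by
    have h4 : |x| / 2 ≤ |x - x₁| := by
      have := abs_sub_abs_le_abs_sub x x₁
      linarith
    have h5 : (|x| / 2) ^ 2 ≤ |x - x₁| ^ 2 := pow_le_pow_left₀ (by positivity) h4 2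
    rw [sq_abs] at h5
    calc x ^ 2 / 4 = (|x| / 2) ^ 2 := by rw [div_pow, sq_abs]; norm_num
      _ ≤ _ := h5
  have hX0 : 0 ≤ X := by linarith
  calc |x ^ 2 * x₁ + x * (x₁ ^ 2 + A) + (B + y₁ ^ 2 - x₁ ^ 3) - 2 * y * y₁|
      ≤ |x ^ 2 * x₁| + |x * (x₁ ^ 2 + A)| + |(B + y₁ ^ 2 - x₁ ^ 3)| + |2 * y * y₁| := by
        have t1 := abs_sub (x ^ 2 * x₁ + x * (x₁ ^ 2 + A) + (B + y₁ ^ 2 - x₁ ^ 3)) (2 * y * y₁)
        have t2 := abs_add_three (x ^ 2 * x₁) (x * (x₁ ^ 2 + A)) ((B + y₁ ^ 2 - x₁ ^ 3))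
        linarith
    _ ≤ x ^ 2 * |x₁| + x ^ 2 * (x₁ ^ 2 + |(A : ℝ)|) + x ^ 2 * (|(B : ℝ)| + y₁ ^ 2 + |x₁| ^ 3) +
        x ^ 2 * (2 * |y₁| * c) := by
        have t1 : |x ^ 2 * x₁| = x ^ 2 * |x₁| := by
          rw [abs_mul, abs_of_nonneg (sq_nonneg x)]
        have t2 : |x * (x₁ ^ 2 + A)| ≤ x ^ 2 * (x₁ ^ 2 + |(A : ℝ)|) := by
          rw [abs_mul]
          have : |x₁ ^ 2 + (A : ℝ)| ≤ x₁ ^ 2 + |(A : ℝ)| := by
            have := abs_add_le (x₁ ^ 2) (A : ℝ)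
            rwa [abs_of_nonneg (sq_nonneg x₁)] at this
          exact mul_le_mul hxx this (abs_nonneg _) (sq_nonneg x)
        have t3 : |(B + y₁ ^ 2 - x₁ ^ 3)| ≤ x ^ 2 * (|(B : ℝ)| + y₁ ^ 2 + |x₁| ^ 3) := by
          have u1 : |(B + y₁ ^ 2 - x₁ ^ 3)| ≤ (|(B : ℝ)| + y₁ ^ 2 + |x₁| ^ 3) := by
            have v1 := abs_sub ((B : ℝ) + y₁ ^ 2) (x₁ ^ 3)
            have v2 := abs_add_le (B : ℝ) (y₁ ^ 2)
            rw [abs_of_nonneg (sq_nonneg y₁)] at v2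
            rw [abs_pow x₁ 3] at v1
            linarith
          have u2 : 0 ≤ (|(B : ℝ)| + y₁ ^ 2 + |x₁| ^ 3) := by positivity
          nlinarith
        have t4 : |2 * y * y₁| ≤ x ^ 2 * (2 * |y₁| * c) := by
          rw [abs_mul, abs_mul, abs_two]
          have : 2 * |y| * |y₁| ≤ 2 * (x ^ 2 * c) * |y₁| := by
            apply mul_le_mul_of_nonneg_right _ a4
            linarith
          calc _ ≤ _ := this
            _ = _ := by ring
        linarith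
    _ = (4 * (|x₁| + (x₁ ^ 2 + |(A : ℝ)|) + (|(B : ℝ)| + y₁ ^ 2 + |x₁| ^ 3) + 2 * |y₁| * c)) *
          (x ^ 2 / 4) := by ring
    _ ≤ X * (x ^ 2 / 4) := by
        apply mul_le_mul_of_nonneg_right _ (by positivity)
        rw [hXd]
        linarith
    _ ≤ X * (x - x₁) ^ 2 := mul_le_mul_of_nonneg_left hden hX0

end Pool.Agent.Helper316_PR
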