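import Pool.Agent.Helper316_PR.Core

/-!
# The rank of the `p`-adic height pairing
-/

set_option autoImplicit false

namespace Pool.Agent.Helper316_PR

open WeierstrassCurve Pool.Agent.Y732

variable {A B : ℤ} {p : ℕ} [hp : Fact p.Prime]

/-- the matrix of the height pairing on a family -/
def Pm {G K : Type*} [AddCommGroup G] [CommRing K] {r : ℕ} (h : G → K) (P : Fin r → G) :
    Matrix (Fin r) (Fin r) K := Matrix.of fun i j => h (P i + P j) - h (P i) - h (P j)

lemma pair_comm {G K : Type*} [AddCommGroup G] [CommRing K] (h : G → K) (X Y : G) :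
    h (X + Y) - h X - h Y = h (Y + X) - h Y - h X := by
  rw [add_comm X Y]
  ring

/-- rows which span -/
lemma rows {F : Type*} [Field F] {r : ℕ} (H : Matrix (Fin r) (Fin r) F) :
    ∃ (t : Fin H.rank → Fin r) (α : Fin r → Fin H.rank → F),
      ∀ i j, H i j = ∑ κ, α i κ * H (t κ) j := by
  rw [H.rank_eq_finrank_span_row]
  obtain ⟨f, hf1, hf2, -⟩ := Submodule.exists_fun_fin_finrank_span_eq F (Set.range H.row)
  choose t ht using hf1
  have h1 : ∀ i, ∃ c : Fin (Module.finrank F (Submodule.span F (Set.range H.row))) → F,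
      ∑ κ, c κ • f κ = H.row i := by
    intro i
    have h2 : H.row i ∈ Submodule.span F (Set.range f) := by
      rw [hf2]
      exact Submodule.subset_span ⟨i, rfl⟩
    exact (Submodule.mem_span_range_iff_exists_fun F).1 h2
  choose α hα using h1
  refine ⟨t, α, fun i j => ?_⟩
  have h2 := congrFun (hα i) j
  have h3 : H.row i j = H i j := rfl
  rw [h3, Finset.sum_apply] at h2
  rw [← h2]
  refine Finset.sum_congr rfl fun κ _ => ?_
  rw [Pi.smul_apply, smul_eq_mul, ← ht κ]
  rfl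

section abs

variable {G : Type} [AddCommGroup G] {F : Type*} [Field F] [CharZero F] {h : G → F}

lemma pair_nsmul_left (hq : ∀ P Q, h (P + Q) + h (P - Q) = 2 * h P + 2 * h Q) (m : ℕ) (X Y : G) :
    h (m • X + Y) - h (m • X) - h Y = m * (h (X + Y) - h X - h Y) := by
  have h1 : prHom hq Y (m • X) = m * prHom hq Y X := by
    rw [map_nsmul, nsmul_eq_mul]
  exact h1

lemma pair_nsmul_right (hq : ∀ P Q, h (P + Q) + h (P - Q) = 2 * h P + 2 * h Q) (m : ℕ) (X Y : G) :
    h (X + m • Y) - h X - h (m • Y) = m * (h (X + Y) - h X - h Y) := by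
  rw [pair_comm, pair_nsmul_left hq, pair_comm]

/-- a relation of the pairing on the members of a family holds on the group it generates -/
lemma pair_closure (hq : ∀ P Q, h (P + Q) + h (P - Q) = 2 * h P + 2 * h Q) {ι κ : Type*}
    [Fintype κ] (P : ι → G) (X : G) (R : κ → G) (a : κ → F)
    (hrel : ∀ j, h (X + P j) - h X - h (P j) = ∑ k, a k * (h (R k + P j) - h (R k) - h (P j)))
    {Y : G} (hY : Y ∈ AddSubgroup.closure (Set.range P)) :
    h (X + Y) - h X - h Y = ∑ k, a k * (h (R k + Y) - h (R k) - h Y) := by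
  have e1 : ∀ Z W, h (Z + W) - h Z - h W = prHom hq Z W := by
    intro Z W
    rw [pair_comm]
    rfl
  simp only [e1] at hrel ⊢
  have h1 : AddSubgroup.closure (Set.range P) ≤
      (prHom hq X - ∑ k, (AddMonoidHom.mulLeft (a k)).comp (prHom hq (R k))).ker := by
    rw [AddSubgroup.closure_le]
    rintro _ ⟨j, rfl⟩
    rw [SetLike.mem_coe, AddMonoidHom.mem_ker, AddMonoidHom.sub_apply, AddMonoidHom.finsetSum_apply,
      hrel j, sub_eq_zero]
    rfl
  have h2 := h1 hY
  rw [AddMonoidHom.mem_ker, AddMonoidHom.sub_apply, AddMonoidHom.finsetSum_apply,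
    sub_eq_zero] at h2
  exact h2

lemma indep_nsmul {r : ℕ} {P : Fin r → G} (hP : LinearIndependent ℤ P) {m : ℕ} (hm : 0 < m) :
    LinearIndependent ℤ fun i => m • P i := by
  rw [Fintype.linearIndependent_iff] at hP ⊢
  intro c hc i
  have h1 : ∑ i, (c i * (m : ℤ)) • P i = 0 := by
    rw [← hc]
    refine Finset.sum_congr rfl fun i _ => ?_
    rw [mul_smul, natCast_zsmul]
  have h2 := hP _ h1 i
  rw [mul_eq_zero] at h2
  exact h2.resolve_right (by exact_mod_cast hm.ne')

lemma rank_Pm_nsmul (hq : ∀ P Q, h (P + Q) + h (P - Q) = 2 * h P + 2 * h Q) {r : ℕ}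
    (P : Fin r → G) {m : ℕ} (hm : 0 < m) : (Pm h fun i => m • P i).rank = (Pm h P).rank := by
  have h1 : (Pm h fun i => m • P i) = ((m : F) * m) • Pm h P := by
    ext i j
    simp only [Pm, Matrix.of_apply, Matrix.smul_apply, smul_eq_mul]
    rw [pair_nsmul_left hq, pair_nsmul_right hq]
    ring
  rw [h1]
  apply Matrix.rank_smul_of_mem_nonZeroDivisors
  apply mem_nonZeroDivisors_of_ne_zero
  have : (m : F) ≠ 0 := by exact_mod_cast hm.ne'
  exact mul_ne_zero this this

end abs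

/-- elements of `ℚ_p` times a power of `p` are integral -/
lemma exists_scale {ι κ : Type*} [Fintype ι] [Fintype κ] (α : ι → κ → ℚ_[p]) :
    ∃ s : ℕ, ∀ i k, ‖(p : ℚ_[p]) ^ s * α i k‖ ≤ 1 := by
  have hp1 : (1 : ℝ) < p := by exact_mod_cast hp.out.one_lt
  obtain ⟨s, hs⟩ := pow_unbounded_of_one_lt (∑ i, ∑ k, ‖α i k‖) hp1
  refine ⟨s, fun i k => ?_⟩
  rw [norm_mul, norm_pow, Padic.norm_p, inv_pow, inv_mul_le_iff₀ (by positivity), mul_one]
  have h1 : ‖α i k‖ ≤ ∑ k, ‖α i k‖ :=
    Finset.single_le_sum (f := fun k => ‖α i k‖) (fun _ _ => norm_nonneg _) (Finset.mem_univ k)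
  have h2 : ∑ k, ‖α i k‖ ≤ ∑ i, ∑ k, ‖α i k‖ :=
    Finset.single_le_sum (f := fun i => ∑ k, ‖α i k‖)
      (fun _ _ => Finset.sum_nonneg fun _ _ => norm_nonneg _) (Finset.mem_univ i)
  linarith

/-- **The rank of the `p`-adic height pairing** is at least about half of the rank of the group of
rational points. -/
theorem rank_bound (hp5 : 5 ≤ p) (hD : 4 * A ^ 3 + 27 * B ^ 2 ≠ 0)
    {h : (EQ A B).Point → ℚ_[p]} (hh : IsHeight p A B h) {r : ℕ} {P : Fin r → (EQ A B).Point}
    (hP : LinearIndependent ℤ P) : r ≤ 2 * (Pm h P).rank + 2 := by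
  rcases Nat.eq_zero_or_pos r with rfl | hr
  · exact Nat.zero_le _
  have hq := hh.1
  obtain ⟨m, hm, hmG⟩ := exists_mul_mem_Gd_fin (p := p) hD P
  rw [← rank_Pm_nsmul hq P hm]
  have hP' := indep_nsmul hP hm
  obtain ⟨P', hP'e⟩ : ∃ P' : Fin r → (EQ A B).Point, P' = fun i => m • P i := ⟨_, rfl⟩
  have hmG' : ∀ i, P' i ∈ Gd A B p := fun i => by
    rw [hP'e]
    exact hmG i
  rw [← hP'e] at hP' ⊢
  obtain ⟨t, α, hα⟩ := rows (Pm h P')
  obtain ⟨s, hs⟩ := exists_scale α
  have hps : 0 < p ^ s := pow_pos hp.out.pos s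
  refine core hD hp5 hh (indep_nsmul hP' hps) (fun i => (Gd A B p).nsmul_mem (hmG' i) _)
    ⟨0, hr⟩ (fun κ => P' (t κ)) (fun κ => hmG' _) (fun i κ => ⟨(p : ℚ_[p]) ^ s * α i κ, hs i κ⟩)
    fun i Y hY => ?_
  refine pair_closure hq _ _ _ _ (fun j => ?_) hY
  have h1 := hα i j
  simp only [Pm, Matrix.of_apply] at h1
  rw [pair_nsmul_left hq, pair_nsmul_right hq, h1]
  simp only [pair_nsmul_right hq, Finset.mul_sum]
  refine Finset.sum_congr rfl fun κ _ => ?_
  push_cast
  ring

end Pool.Agent.Helper316_PR
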