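import Pool.Agent.Helper316_PR.EOne

/-!
# Every rational point has a multiple in the kernel of the reduction
-/

set_option autoImplicit false

namespace Pool.Agent.Helper316_PR

open WeierstrassCurve Pool.Agent.Y732 Pool.Agent.Y809.BSD14

section norm

variable {K : Type} [NormedField K] [IsUltrametricDist K]

/-- the difference of two close points is in the kernel of the reduction -/
theorem diff_core {A B x₁ y₁ x₂ y₂ s : K} {ε : ℝ} (hA : ‖A‖ ≤ 1) (hB : ‖B‖ ≤ 1)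
    (e₁ : y₁ ^ 2 = x₁ ^ 3 + A * x₁ + B) (e₂ : y₂ ^ 2 = x₂ ^ 3 + A * x₂ + B) (hx : x₁ ≠ x₂)
    (hx₁ : ‖x₁‖ ≤ 1) (hx₂ : ‖x₂‖ ≤ 1) (hy₁ : ‖y₁‖ ≤ 1) (hex : ‖x₁ - x₂‖ ≤ ε)
    (hey : ‖y₁ - y₂‖ ≤ ε) (hε : ε < ‖(2 : K)‖ * ‖4 * A ^ 3 + 27 * B ^ 2‖)
    (hs : s * (x₁ - x₂) = y₁ + y₂) : 1 < ‖s ^ 2 - x₁ - x₂‖ := by
  have hε0 : 0 ≤ ε := (norm_nonneg _).trans hex
  have hx' : x₁ - x₂ ≠ 0 := sub_ne_zero.2 hx
  have hD1 : ‖(2 : K)‖ * ‖4 * A ^ 3 + 27 * B ^ 2‖ ≤ ‖4 * A ^ 3 + 27 * B ^ 2‖ := by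
    calc _ ≤ 1 * ‖4 * A ^ 3 + 27 * B ^ 2‖ := mul_le_mul_of_nonneg_right n2 (norm_nonneg _)
      _ = _ := one_mul _
  have nn : ∀ n : ℕ, ‖(n : K)‖ ≤ 1 := nnat
  have h3 : ‖(3 : K)‖ ≤ 1 := n3
  have h4 : ‖(4 : K)‖ ≤ 1 := by exact_mod_cast nn 4
  have h27 : ‖(27 : K)‖ ≤ 1 := by exact_mod_cast nn 27
  have hf : ‖3 * x₁ ^ 2 + A‖ ≤ 1 := nadd (nmul h3 (npow hx₁ 2)) hA
  have hid : 4 * A ^ 3 + 27 * B ^ 2 = (3 * x₁ ^ 2 + 4 * A) * (3 * x₁ ^ 2 + A) ^ 2 -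
      27 * (x₁ ^ 3 + A * x₁ - B) * y₁ ^ 2 := by
    rw [e₁]
    ring
  have hor : ‖4 * A ^ 3 + 27 * B ^ 2‖ ≤ ‖3 * x₁ ^ 2 + A‖ ∨ ‖4 * A ^ 3 + 27 * B ^ 2‖ ≤ ‖y₁‖ := by
    rw [hid, sub_eq_add_neg]
    have hle := IsUltrametricDist.norm_add_le_max ((3 * x₁ ^ 2 + 4 * A) * (3 * x₁ ^ 2 + A) ^ 2)
      (-(27 * (x₁ ^ 3 + A * x₁ - B) * y₁ ^ 2))
    have c1 : ‖(3 * x₁ ^ 2 + 4 * A) * (3 * x₁ ^ 2 + A) ^ 2‖ ≤ ‖3 * x₁ ^ 2 + A‖ := by
      rw [norm_mul, norm_pow]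
      calc ‖3 * x₁ ^ 2 + 4 * A‖ * ‖3 * x₁ ^ 2 + A‖ ^ 2 ≤ 1 * ‖3 * x₁ ^ 2 + A‖ ^ 2 := by
            gcongr
            exact nadd (nmul h3 (npow hx₁ 2)) (nmul h4 hA)
        _ ≤ _ := by
            rw [one_mul, pow_two]
            exact mul_le_of_le_one_left (norm_nonneg _) hf
    have c2 : ‖-(27 * (x₁ ^ 3 + A * x₁ - B) * y₁ ^ 2)‖ ≤ ‖y₁‖ := by
      rw [norm_neg, norm_mul, norm_pow]
      calc ‖27 * (x₁ ^ 3 + A * x₁ - B)‖ * ‖y₁‖ ^ 2 ≤ 1 * ‖y₁‖ ^ 2 := by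
            gcongr
            exact nmul h27 (nsub (nadd (npow hx₁ 3) (nmul hA hx₁)) hB)
        _ ≤ _ := by
            rw [one_mul, pow_two]
            exact mul_le_of_le_one_left (norm_nonneg _) hy₁
    rcases le_max_iff.1 hle with h | h
    · exact Or.inl (h.trans c1)
    · exact Or.inr (h.trans c2)
  have hs1 : 1 < ‖s‖ := by
    rcases hor with h | h
    · obtain ⟨N, hN⟩ : ∃ N, N = x₁ ^ 2 + x₁ * x₂ + x₂ ^ 2 + A := ⟨_, rfl⟩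
      have hNe : N = (3 * x₁ ^ 2 + A) + (x₂ - x₁) * (x₂ + 2 * x₁) := by rw [hN]; ring
      have hNn : ‖N‖ = ‖3 * x₁ ^ 2 + A‖ := by
        rw [hNe, norm_eq_of_lt]
        rw [norm_mul, ← norm_neg (x₂ - x₁), neg_sub]
        calc ‖x₁ - x₂‖ * ‖x₂ + 2 * x₁‖ ≤ ‖x₁ - x₂‖ * 1 := by
              gcongr
              exact nadd hx₂ (nmul n2 hx₁)
          _ < _ := by linarith
      have hsN : s * (y₁ - y₂) = N := by
        apply mul_right_cancel₀ hx'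
        rw [hN]
        linear_combination (y₁ - y₂) * hs + e₁ - e₂
      have h5 := congrArg norm hsN
      rw [norm_mul, hNn] at h5
      by_contra h6
      rw [not_lt] at h6
      have h7 : ‖s‖ * ‖y₁ - y₂‖ ≤ 1 * ε := mul_le_mul h6 hey (norm_nonneg _) zero_le_one
      linarith
    · have h8 : ‖(2 : K)‖ * ‖4 * A ^ 3 + 27 * B ^ 2‖ ≤ ‖2 * y₁‖ := by
        rw [norm_mul]
        exact mul_le_mul_of_nonneg_left h (norm_nonneg _)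
      have h9 : ‖y₁ + y₂‖ = ‖2 * y₁‖ := by
        have : y₁ + y₂ = 2 * y₁ + (y₂ - y₁) := by ring
        rw [this, norm_eq_of_lt]
        rw [← norm_neg (y₂ - y₁), neg_sub]
        linarith
      have h5 := congrArg norm hs
      rw [norm_mul, h9] at h5
      by_contra h6
      rw [not_lt] at h6
      have h7 : ‖s‖ * ‖x₁ - x₂‖ ≤ 1 * ε := mul_le_mul h6 hex (norm_nonneg _) zero_le_one
      linarith
  have e : s ^ 2 - x₁ - x₂ = s ^ 2 + (-(x₁ + x₂)) := by ring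
  rw [e, norm_eq_of_lt, norm_pow]
  · nlinarith
  · rw [norm_neg, norm_pow]
    have := nadd hx₁ hx₂
    nlinarith

end norm

variable {A B : ℤ} {ℓ : ℕ} [hℓ : Fact ℓ.Prime]

/-- the coordinates of a point which is not in the kernel of the reduction are integral -/
lemma integral_of_not_mem {x y : ℚ} (h : (EQ A B).Nonsingular x y)
    (hn : ¬ ℓ ∣ dn (Affine.Point.some x y h)) :
    ‖(x : ℚ_[ℓ])‖ ≤ 1 ∧ ‖(y : ℚ_[ℓ])‖ ≤ 1 := by
  rw [dvd_dn_iff, not_lt] at hn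
  refine ⟨hn, ?_⟩
  have he : (y : ℚ_[ℓ]) ^ 2 = (x : ℚ_[ℓ]) ^ 3 + ((A : ℤ) : ℚ_[ℓ]) * x + ((B : ℤ) : ℚ_[ℓ]) := by
    exact_mod_cast congrArg (fun z : ℚ => (z : ℚ_[ℓ])) ((eq_iff x y).1 h.1)
  have h4 : ‖(y : ℚ_[ℓ]) ^ 2‖ ≤ 1 := by
    rw [he]
    exact nadd (nadd (npow hn 3) (nmul (Padic.norm_int_le_one A) hn)) (Padic.norm_int_le_one B)
  rw [norm_pow] at h4
  by_contra h5
  rw [not_le] at h5
  nlinarith

/-- some multiple is in the kernel of the reduction -/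
theorem exists_mul_mem (hD : 4 * A ^ 3 + 27 * B ^ 2 ≠ 0) (P : (EQ A B).Point) :
    ∃ m : ℕ, 0 < m ∧ m • P ∈ E1 A B ℓ := by
  by_contra hcon
  push Not at hcon
  have hne : ∀ m : ℕ, 0 < m → m • P ≠ 0 := by
    intro m hm h
    apply hcon m hm
    rw [h]
    exact (E1 A B ℓ).zero_mem
  -- the coordinates
  have hco : ∀ n : ℕ, ∃ (x y : ℚ) (h : (EQ A B).Nonsingular x y),
      (n + 1) • P = Affine.Point.some x y h ∧ ‖(x : ℚ_[ℓ])‖ ≤ 1 ∧ ‖(y : ℚ_[ℓ])‖ ≤ 1 := by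
    intro n
    have h1 := hne (n + 1) (Nat.succ_pos n)
    have h2 := hcon (n + 1) (Nat.succ_pos n)
    generalize (n + 1) • P = Q at h1 h2
    rcases Q with _ | ⟨x, y, h⟩
    · exact absurd rfl h1
    · exact ⟨x, y, h, rfl, integral_of_not_mem h h2⟩
  choose x y h hP hx hy using hco
  -- the precision
  have hDn : 0 < ‖(2 : ℚ_[ℓ])‖ * ‖4 * ((A : ℤ) : ℚ_[ℓ]) ^ 3 + 27 * ((B : ℤ) : ℚ_[ℓ]) ^ 2‖ := by
    apply mul_pos
    · rw [norm_pos_iff]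
      exact two_ne_zero
    · rw [norm_pos_iff]
      exact_mod_cast hD
  have hℓ1 : (1 : ℝ) < ℓ := by exact_mod_cast hℓ.out.one_lt
  obtain ⟨M, hM⟩ := exists_pow_lt_of_lt_one hDn (inv_lt_one_of_one_lt₀ hℓ1)
  -- pigeonhole
  let F : ℕ → ZMod (ℓ ^ M) × ZMod (ℓ ^ M) := fun n =>
    (PadicInt.toZModPow M ⟨(x n : ℚ_[ℓ]), hx n⟩, PadicInt.toZModPow M ⟨(y n : ℚ_[ℓ]), hy n⟩)
  have : NeZero (ℓ ^ M) := ⟨pow_ne_zero _ hℓ.out.ne_zero⟩
  obtain ⟨n₁, n₂, hnn, hF⟩ := Finite.exists_ne_map_eq_of_infinite F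
  have hclose : ∀ {u v : ℤ_[ℓ]}, PadicInt.toZModPow M u = PadicInt.toZModPow M v →
      ‖u - v‖ ≤ ((ℓ : ℝ)⁻¹) ^ M := by
    intro u v huv
    have h1 : u - v ∈ Ideal.span {(ℓ : ℤ_[ℓ]) ^ M} := by
      rw [← PadicInt.ker_toZModPow, RingHom.mem_ker, map_sub, huv, sub_self]
    have h2 := (PadicInt.norm_le_pow_iff_mem_span_pow (u - v) M).2 h1
    rwa [zpow_neg, zpow_natCast, ← inv_pow] at h2
  have hcx : ‖(x n₁ : ℚ_[ℓ]) - x n₂‖ ≤ ((ℓ : ℝ)⁻¹) ^ M := hclose (congrArg Prod.fst hF)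
  have hcy : ‖(y n₁ : ℚ_[ℓ]) - y n₂‖ ≤ ((ℓ : ℝ)⁻¹) ^ M := hclose (congrArg Prod.snd hF)
  have hxne : x n₁ ≠ x n₂ := by
    intro hxe
    have h1 : (n₁ + 1) • P = (n₂ + 1) • P ∨ (n₁ + 1) • P = -((n₂ + 1) • P) := by
      apply Affine.Point.eq_or_eq_neg_of_xRep_eq_xRep
      rw [hP, hP, Affine.Point.xRep_some, Affine.Point.xRep_some, hxe]
    rcases h1 with h1 | h1
    · rcases lt_or_gt_of_ne hnn with h2 | h2
      · apply hne (n₂ - n₁) (by omega)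
        have e : (n₂ + 1) • P = (n₂ - n₁) • P + (n₁ + 1) • P := by
          rw [← add_smul]
          congr 1
          omega
        rw [h1] at e
        exact right_eq_add.1 e
      · apply hne (n₁ - n₂) (by omega)
        have e : (n₁ + 1) • P = (n₁ - n₂) • P + (n₂ + 1) • P := by
          rw [← add_smul]
          congr 1
          omega
        rw [← h1] at e
        exact right_eq_add.1 e
    · apply hne (n₁ + 1 + (n₂ + 1)) (by omega)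
      rw [add_smul, h1, neg_add_cancel]
  -- the difference
  have hneg : -(Affine.Point.some (x n₂) (y n₂) (h n₂)) =
      Affine.Point.some (x n₂) (-(y n₂)) (by
        have := (Affine.nonsingular_neg (W' := EQ A B) (x n₂) (y n₂)).2 (h n₂)
        rwa [negY_eq] at this) := by
    rw [Affine.Point.neg_some]
    congr 1
    exact negY_eq _ _
  have hdiff : (n₁ + 1) • P - (n₂ + 1) • P ∈ E1 A B ℓ := by
    rw [hP, hP, sub_eq_add_neg, hneg, Affine.Point.add_of_X_ne hxne, mem_E1, dvd_dn_iff,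
      Affine.slope_of_X_ne hxne, Affine.addX]
    have e1 : (EQ A B).a₁ = 0 := rfl
    have e2 : (EQ A B).a₂ = 0 := rfl
    rw [e1, e2]
    have hx' : (x n₁ : ℚ_[ℓ]) - x n₂ ≠ 0 := by
      rw [sub_ne_zero]
      exact_mod_cast hxne
    have key := diff_core (K := ℚ_[ℓ]) (A := ((A : ℤ) : ℚ_[ℓ])) (B := ((B : ℤ) : ℚ_[ℓ]))
      (x₁ := x n₁) (y₁ := y n₁) (x₂ := x n₂) (y₂ := y n₂)
      (s := ((y n₁ : ℚ_[ℓ]) + y n₂) / (x n₁ - x n₂)) (ε := ((ℓ : ℝ)⁻¹) ^ M)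
      (Padic.norm_int_le_one A) (Padic.norm_int_le_one B)
      (by exact_mod_cast congrArg (fun z : ℚ => (z : ℚ_[ℓ])) ((eq_iff _ _).1 (h n₁).1))
      (by exact_mod_cast congrArg (fun z : ℚ => (z : ℚ_[ℓ])) ((eq_iff _ _).1 (h n₂).1))
      (by exact_mod_cast hxne) (hx n₁) (hx n₂) (hy n₁) hcx hcy hM (by field_simp)
    have e : ((((y n₁ - -y n₂) / (x n₁ - x n₂)) ^ 2 + 0 * ((y n₁ - -y n₂) / (x n₁ - x n₂)) - 0 -
        x n₁ - x n₂ : ℚ) : ℚ_[ℓ]) =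
        (((y n₁ : ℚ_[ℓ]) + y n₂) / (x n₁ - x n₂)) ^ 2 - x n₁ - x n₂ := by
      push_cast
      ring
    exact lt_of_lt_of_eq key (congrArg norm e.symm)
  rcases lt_or_gt_of_ne hnn with h2 | h2
  · apply hcon (n₂ - n₁) (by omega)
    have e : (n₂ - n₁) • P = -((n₁ + 1) • P - (n₂ + 1) • P) := by
      have e : (n₂ + 1) • P = (n₂ - n₁) • P + (n₁ + 1) • P := by
        rw [← add_smul]
        congr 1
        omega
      rw [e]
      abel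
    rw [e]
    exact (E1 A B ℓ).neg_mem hdiff
  · apply hcon (n₁ - n₂) (by omega)
    have e : (n₁ - n₂) • P = (n₁ + 1) • P - (n₂ + 1) • P := by
      have e : (n₁ + 1) • P = (n₁ - n₂) • P + (n₂ + 1) • P := by
        rw [← add_smul]
        congr 1
        omega
      rw [e]
      abel
    rw [e]
    exact hdiff

end Pool.Agent.Helper316_PR
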