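import Pool.Agent.Helper316_PR.Tz

/-!
# `t (P + Q)` is, modulo each power of `p`, a polynomial in `t (P)`
-/

set_option autoImplicit false

namespace Pool.Agent.Helper316_PR

open WeierstrassCurve Pool.Agent.Y732 Polynomial

variable {A B : ℤ} {p : ℕ} [hp : Fact p.Prime] {ι : Type*}

/-- the approximations of `w` by polynomials in `t` -/
noncomputable def Wp (A B : ℤ_[p]) : ℕ → ℤ_[p][X]
  | 0 => 0
  | n + 1 => X ^ 3 + C A * X * Wp A B n ^ 2 + C B * Wp A B n ^ 3

lemma Wp_spec {P : (EQ A B).Point} (hP : P ∈ E1 A B p) (n : ℕ) :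
    (p : ℤ_[p]) ^ n ∣ wz p P - (Wp (A : ℤ_[p]) B n).eval (tz p P) ∧
      (p : ℤ_[p]) ∣ (Wp (A : ℤ_[p]) B n).eval (tz p P) := by
  have ht := dvd_tz hP
  have hw := dvd_wz hP
  induction n with
  | zero => simp [Wp]
  | succ n ih =>
    obtain ⟨h1, h2⟩ := ih
    have e : (Wp (A : ℤ_[p]) B (n + 1)).eval (tz p P) = tz p P ^ 3 +
        A * tz p P * (Wp (A : ℤ_[p]) B n).eval (tz p P) ^ 2 +
        B * (Wp (A : ℤ_[p]) B n).eval (tz p P) ^ 3 := by
      simp [Wp]
    rw [e]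
    generalize (Wp (A : ℤ_[p]) B n).eval (tz p P) = V at h1 h2
    constructor
    · have e2 : wz p P - (tz p P ^ 3 + A * tz p P * V ^ 2 + B * V ^ 3) =
          (wz p P - V) * (A * tz p P * (wz p P + V) +
            B * (wz p P ^ 2 + wz p P * V + V ^ 2)) := by
        linear_combination wz_eq hP
      rw [e2, pow_succ]
      refine mul_dvd_mul h1 (dvd_add ((ht.mul_left _).mul_right _) (Dvd.dvd.mul_left ?_ _))
      exact dvd_add (dvd_add (hw.trans (dvd_pow_self _ two_ne_zero)) (hw.mul_right _))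
        (h2.trans (dvd_pow_self _ two_ne_zero))
    · exact dvd_add (dvd_add (ht.trans (dvd_pow_self _ three_ne_zero))
        ((ht.mul_left _).mul_right _)) ((h2.trans (dvd_pow_self _ three_ne_zero)).mul_left _)

lemma pm_w {P : ι → (EQ A B).Point} (hP : ∀ i, P i ∈ E1 A B p) (K : ℕ) :
    PM K (fun i => tz p (P i)) fun i => wz p (P i) :=
  ⟨Wp (A : ℤ_[p]) B K, fun i => (Wp_spec (hP i) K).1⟩

lemma exists_inv {z : ℤ_[p]} (h : (p : ℤ_[p]) ∣ z - 1) : ∃ u : ℤ_[p], z * u = 1 := by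
  have : IsUnit z := by
    rw [PadicInt.isUnit_iff]
    by_contra h3
    have h4 : (p : ℤ_[p]) ∣ z := by
      rw [← PadicInt.norm_lt_one_iff_dvd]
      exact lt_of_le_of_ne (PadicInt.norm_le_one _) h3
    have h5 := dvd_sub h4 h
    rw [sub_sub_cancel] at h5
    exact PadicInt.prime_p.not_isUnit (isUnit_of_dvd_one h5)
  exact this.exists_right_inv

/-- `t (P + Q)` as a function of `P` -/
theorem pm_tz_add {P : ι → (EQ A B).Point} {Q : (EQ A B).Point} (hP : ∀ i, P i ∈ E1 A B p)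
    (hQ : Q ∈ E1 A B p) (hP0 : ∀ i, P i ≠ 0) (hQ0 : Q ≠ 0) (h1 : ∀ i, P i ≠ Q)
    (h2 : ∀ i, P i ≠ -Q) (K : ℕ) :
    PM K (fun i => tz p (P i)) fun i => tz p (P i + Q) := by
  have hw := pm_w hP K
  have ht : PM K (fun i => tz p (P i)) fun i => tz p (P i) := PM.self
  have c : ∀ a : ℤ_[p], PM K (fun i => tz p (P i)) fun _ => a := fun a => PM.const a
  have dt := fun i => dvd_tz (hP i)
  have dw := fun i => dvd_wz (hP i)
  have dt₂ := dvd_tz hQ
  have dw₂ := dvd_wz hQ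
  -- the first denominator
  have hd : ∀ i, (p : ℤ_[p]) ∣ (1 - A * tz p Q * (wz p (P i) + wz p Q) -
      B * (wz p (P i) ^ 2 + wz p (P i) * wz p Q + wz p Q ^ 2)) - 1 := by
    intro i
    have e : (1 - A * tz p Q * (wz p (P i) + wz p Q) -
      B * (wz p (P i) ^ 2 + wz p (P i) * wz p Q + wz p Q ^ 2)) - 1 =
      -(A * tz p Q * (wz p (P i) + wz p Q)) -
      B * (wz p (P i) ^ 2 + wz p (P i) * wz p Q + wz p Q ^ 2) := by ring
    rw [e]
    refine dvd_sub (((dt₂.mul_left _).mul_right _).neg_right) (Dvd.dvd.mul_left ?_ _)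
    exact dvd_add (dvd_add ((dw i).trans (dvd_pow_self _ two_ne_zero)) ((dw i).mul_right _))
          (dw₂.trans (dvd_pow_self _ two_ne_zero))
  choose u hu using fun i => exists_inv (hd i)
  have pd : PM K (fun i => tz p (P i)) fun i => (1 - A * tz p Q * (wz p (P i) + wz p Q) -
      B * (wz p (P i) ^ 2 + wz p (P i) * wz p Q + wz p Q ^ 2)) :=
    ((c 1).sub ((c (A * tz p Q)).mul (hw.add (c _)))).sub
      ((c B).mul (((hw.pow 2).add (hw.mul (c _))).add (c (wz p Q ^ 2))))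
  have pu : PM K (fun i => tz p (P i)) u := PM.inv pd hu hd
  -- the slope
  obtain ⟨l, hl⟩ : ∃ l : ι → ℤ_[p], l = fun i => (tz p (P i) ^ 2 + tz p (P i) * tz p Q +
    tz p Q ^ 2 + A * wz p (P i) ^ 2) * u i := ⟨_, rfl⟩
  have pl : PM K (fun i => tz p (P i)) l := by
    rw [hl]
    exact ((((ht.pow 2).add (ht.mul (c _))).add (c (tz p Q ^ 2))).add
      ((c A).mul (hw.pow 2))).mul pu
  have dl : ∀ i, (p : ℤ_[p]) ∣ l i := by
    intro i
    rw [hl]
    refine Dvd.dvd.mul_right ?_ _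
    exact dvd_add (dvd_add (dvd_add ((dt i).trans (dvd_pow_self _ two_ne_zero))
      ((dt i).mul_right _)) (dt₂.trans (dvd_pow_self _ two_ne_zero)))
      (((dw i).trans (dvd_pow_self _ two_ne_zero)).mul_left _)
  have hl' : ∀ i, l i * (1 - A * tz p Q * (wz p (P i) + wz p Q) -
      B * (wz p (P i) ^ 2 + wz p (P i) * wz p Q + wz p Q ^ 2)) =
        tz p (P i) ^ 2 + tz p (P i) * tz p Q + tz p Q ^ 2 + A * wz p (P i) ^ 2 := by
    intro i
    have e : l i = (tz p (P i) ^ 2 + tz p (P i) * tz p Q +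
      tz p Q ^ 2 + A * wz p (P i) ^ 2) * u i := by rw [hl]
    rw [e]
    linear_combination (tz p (P i) ^ 2 + tz p (P i) * tz p Q +
      tz p Q ^ 2 + A * wz p (P i) ^ 2) * hu i
  have pn : PM K (fun i => tz p (P i)) fun i => wz p (P i) - l i * tz p (P i) :=
    hw.sub (pl.mul ht)
  -- the second denominator
  have hd2 : ∀ i, (p : ℤ_[p]) ∣ (1 + A * l i ^ 2 + B * l i ^ 3) - 1 := by
    intro i
    have e : (1 + A * l i ^ 2 + B * l i ^ 3 : ℤ_[p]) - 1 = A * l i ^ 2 + B * l i ^ 3 := by ring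
    rw [e]
    exact dvd_add (((dl i).trans (dvd_pow_self _ two_ne_zero)).mul_left _)
      (((dl i).trans (dvd_pow_self _ three_ne_zero)).mul_left _)
  choose v hv using fun i => exists_inv (hd2 i)
  have pd2 : PM K (fun i => tz p (P i)) fun i => 1 + A * l i ^ 2 + B * l i ^ 3 :=
    ((c 1).add ((c A).mul (pl.pow 2))).add ((c B).mul (pl.pow 3))
  have pv : PM K (fun i => tz p (P i)) v := PM.inv pd2 hv hd2
  have hfin : ∀ i, tz p (P i + Q) = tz p (P i) + tz p Q +
      (2 * A * l i * (wz p (P i) - l i * tz p (P i)) +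
        3 * B * l i ^ 2 * (wz p (P i) - l i * tz p (P i))) * v i := by
    intro i
    have key := tz_add (hP i) hQ (hP0 i) hQ0 (h1 i) (h2 i) (hl' i) rfl
    linear_combination v i * key - (tz p (P i + Q)) * hv i + (tz p (P i) + tz p Q) * hv i
  have pfin : PM K (fun i => tz p (P i)) fun i => tz p (P i) + tz p Q +
      (2 * A * l i * (wz p (P i) - l i * tz p (P i)) +
        3 * B * l i ^ 2 * (wz p (P i) - l i * tz p (P i))) * v i :=
    (ht.add (c _)).add (((((c (2 * A)).mul pl).mul pn).add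
      (((c (3 * B)).mul (pl.pow 2)).mul pn)).mul pv)
  have e : (fun i => tz p (P i + Q)) = fun i => tz p (P i) + tz p Q +
      (2 * A * l i * (wz p (P i) - l i * tz p (P i)) +
        3 * B * l i ^ 2 * (wz p (P i) - l i * tz p (P i))) * v i := funext hfin
  rw [e]
  exact pfin

/-- `σ (t (P + Q))` as a function of `P` -/
theorem pm_sigma {P : ι → (EQ A B).Point} {Q : (EQ A B).Point} (hP : ∀ i, P i ∈ E1 A B p)
    (hQ : Q ∈ E1 A B p) (hP0 : ∀ i, P i ≠ 0) (hQ0 : Q ≠ 0) (h1 : ∀ i, P i ≠ Q)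
    (h2 : ∀ i, P i ≠ -Q) (σ : PowerSeries ℤ_[p]) (K : ℕ) :
    PM K (fun i => tz p (P i)) fun i => ev (tz p (P i + Q)) σ :=
  PM.ev (pm_tz_add hP hQ hP0 hQ0 h1 h2 K)
    (fun i => dvd_tz ((E1 A B p).add_mem (hP i) hQ)) σ

end Pool.Agent.Helper316_PR
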