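import Pool.Agent.Y732.Ev

/-!
# Functions which are polynomials in a small parameter modulo a power of `p`
-/

set_option autoImplicit false

namespace Pool.Agent.Helper316_PR

open Polynomial Pool.Agent.Y732

variable {p : ℕ} [hp : Fact p.Prime] {ι : Type*}

/-- `f` is, modulo `p ^ K`, a polynomial in `t` -/
def PM (K : ℕ) (t f : ι → ℤ_[p]) : Prop :=
  ∃ c : ℤ_[p][X], ∀ i, (p : ℤ_[p]) ^ K ∣ f i - c.eval (t i)

variable {K : ℕ} {t f g u : ι → ℤ_[p]}

lemma PM.const (a : ℤ_[p]) : PM K t fun _ => a := ⟨C a, fun i => by simp⟩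

lemma PM.self : PM K t t := ⟨X, fun i => by simp⟩

lemma PM.add (hf : PM K t f) (hg : PM K t g) : PM K t fun i => f i + g i := by
  obtain ⟨c, hc⟩ := hf
  obtain ⟨d, hd⟩ := hg
  refine ⟨c + d, fun i => ?_⟩
  rw [eval_add]
  have e : f i + g i - (c.eval (t i) + d.eval (t i)) =
      (f i - c.eval (t i)) + (g i - d.eval (t i)) := by ring
  rw [e]
  exact dvd_add (hc i) (hd i)

lemma PM.mul (hf : PM K t f) (hg : PM K t g) : PM K t fun i => f i * g i := by
  obtain ⟨c, hc⟩ := hf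
  obtain ⟨d, hd⟩ := hg
  refine ⟨c * d, fun i => ?_⟩
  rw [eval_mul]
  have e : f i * g i - (c.eval (t i) * d.eval (t i)) =
      (f i - c.eval (t i)) * g i + (g i - d.eval (t i)) * c.eval (t i) := by ring
  rw [e]
  exact dvd_add ((hc i).mul_right _) ((hd i).mul_right _)

lemma PM.neg (hf : PM K t f) : PM K t fun i => - f i := by
  have := (PM.const (K := K) (t := t) (-1)).mul hf
  simpa using this

lemma PM.sub (hf : PM K t f) (hg : PM K t g) : PM K t fun i => f i - g i := by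
  have := hf.add hg.neg
  simpa [sub_eq_add_neg] using this

lemma PM.pow (hf : PM K t f) (n : ℕ) : PM K t fun i => f i ^ n := by
  induction n with
  | zero => simpa using PM.const (K := K) (t := t) 1
  | succ n ih =>
    have := ih.mul hf
    simpa [pow_succ] using this

lemma PM.sum {α : Type*} (s : Finset α) {F : α → ι → ℤ_[p]} (h : ∀ a ∈ s, PM K t (F a)) :
    PM K t fun i => ∑ a ∈ s, F a i := by
  classical
  induction s using Finset.induction_on with
  | empty => simpa using PM.const (K := K) (t := t) 0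
  | insert a s ha ih =>
    have h1 := (h a (Finset.mem_insert_self _ _)).add
      (ih fun b hb => h b (Finset.mem_insert_of_mem hb))
    simpa [Finset.sum_insert ha] using h1

lemma PM.congr (h : ∀ i, (p : ℤ_[p]) ^ K ∣ f i - g i) (hg : PM K t g) : PM K t f := by
  obtain ⟨c, hc⟩ := hg
  refine ⟨c, fun i => ?_⟩
  have := dvd_add (h i) (hc i)
  rwa [sub_add_sub_cancel] at this

/-- inverses of functions which are congruent to one -/
lemma PM.inv (hf : PM K t f) (hu : ∀ i, f i * u i = 1) (h1 : ∀ i, (p : ℤ_[p]) ∣ f i - 1) :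
    PM K t u := by
  refine PM.congr (g := fun i => ∑ n ∈ Finset.range K, (1 - f i) ^ n) (fun i => ?_)
    (PM.sum _ fun n _ => ((PM.const 1).sub hf).pow n)
  have h2 : f i * ∑ n ∈ Finset.range K, (1 - f i) ^ n = 1 - (1 - f i) ^ K := by
    have := mul_neg_geom_sum (1 - f i) K
    rw [sub_sub_cancel] at this
    exact this
  have h3 : u i - ∑ n ∈ Finset.range K, (1 - f i) ^ n = u i * (1 - f i) ^ K := by
    have h4 := hu i
    linear_combination (-(u i)) * h2 + (∑ n ∈ Finset.range K, (1 - f i) ^ n) * h4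
  rw [h3]
  refine Dvd.dvd.mul_left (pow_dvd_pow_of_dvd ?_ K) _
  rw [← neg_sub]
  exact (h1 i).neg_right

/-- values of power series -/
lemma ev_trunc {x : ℤ_[p]} (hx : (p : ℤ_[p]) ∣ x) (σ : PowerSeries ℤ_[p]) (K : ℕ) :
    (p : ℤ_[p]) ^ K ∣ ev x σ - ∑ n ∈ Finset.range K, PowerSeries.coeff n σ * x ^ n := by
  unfold ev
  rw [← (summable_ev hx σ).sum_add_tsum_nat_add K, add_sub_cancel_left]
  refine dvd_tsum fun n => ?_
  refine Dvd.dvd.mul_left ?_ _
  exact (pow_dvd_pow _ (by omega : K ≤ n + K)).trans (pow_dvd_pow_of_dvd hx _)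

lemma PM.ev {τ : ι → ℤ_[p]} (hτ : PM K t τ) (h : ∀ i, (p : ℤ_[p]) ∣ τ i)
    (σ : PowerSeries ℤ_[p]) : PM K t fun i => Y732.ev (τ i) σ :=
  PM.congr (fun i => ev_trunc (h i) σ K)
    (PM.sum _ fun n _ => (PM.const (PowerSeries.coeff n σ)).mul (hτ.pow n))

/-- the truncated expansion -/
lemma PM.trunc (hf : PM K t f) (ht : ∀ i, (p : ℤ_[p]) ∣ t i) :
    ∃ c : Fin K → ℤ_[p], ∀ i, (p : ℤ_[p]) ^ K ∣ f i - ∑ a : Fin K, c a * t i ^ (a : ℕ) := by
  obtain ⟨c, hc⟩ := hf
  refine ⟨fun a => c.coeff a, fun i => ?_⟩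
  have h1 : (p : ℤ_[p]) ^ K ∣ c.eval (t i) - ∑ a : Fin K, c.coeff a * t i ^ (a : ℕ) := by
    rw [Fin.sum_univ_eq_sum_range (fun a => c.coeff a * t i ^ a) K,
      Polynomial.eval_eq_sum_range' (n := K + (c.natDegree + 1)) (by omega),
      Finset.sum_range_add, add_sub_cancel_left]
    refine Finset.dvd_sum fun n _ => ?_
    refine Dvd.dvd.mul_left ?_ _
    exact (pow_dvd_pow _ (by omega : K ≤ K + n)).trans (pow_dvd_pow_of_dvd (ht i) _)
  have := dvd_add (hc i) h1
  rwa [sub_add_sub_cancel] at this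

end Pool.Agent.Helper316_PR
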