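import Pool.Agent.Y732.Val
import Pool.Agent.Y809.BSD14.E0

/-!
# Rational points in lowest terms; the kernel of the reduction modulo a prime
-/

set_option autoImplicit false

namespace Pool.Agent.Helper316_PR

open WeierstrassCurve Pool.Agent.Y732

variable {A B : ℤ}

lemma eq_iff (x y : ℚ) : (EQ A B).Equation x y ↔ y ^ 2 = x ^ 3 + A * x + B := by
  rw [Affine.equation_iff]
  simp only [EQ, Wc]
  constructor <;> intro h <;> linear_combination h

lemma nonsing_of_eq (hD : 4 * A ^ 3 + 27 * B ^ 2 ≠ 0) {x y : ℚ}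
    (h : y ^ 2 = x ^ 3 + A * x + B) : (EQ A B).Nonsingular x y := by
  refine (Wc_nonsingular_iff two_ne_zero ?_ _ _).2 h
  exact_mod_cast hD

lemma negY_eq (x y : ℚ) : (EQ A B).negY x y = -y := by
  simp [Affine.negY, EQ, Wc]

/-- a rational point in lowest terms -/
theorem exists_rep {x y : ℚ} (he : y ^ 2 = x ^ 3 + A * x + B) :
    ∃ (b : ℤ) (e : ℕ), 0 < e ∧ IsCoprime x.num (e : ℤ) ∧ x = x.num / (e : ℚ) ^ 2 ∧
      y = b / (e : ℚ) ^ 3 ∧ x.den = e ^ 2 := by
  have hd0 : (x.den : ℚ) ≠ 0 := by exact_mod_cast x.den_nz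
  have hx : x * x.den = x.num := Rat.mul_den_eq_num x
  have hcop : IsCoprime x.num (x.den : ℤ) := by
    rw [Int.isCoprime_iff_gcd_eq_one]
    exact x.reduced
  -- the integer `m`
  obtain ⟨m, hm⟩ : ∃ m : ℤ, m = x.num ^ 3 + A * x.num * x.den ^ 2 + B * x.den ^ 3 := ⟨_, rfl⟩
  have hmc : IsCoprime (x.den : ℤ) m := by
    have h1 : IsCoprime (x.num ^ 3) (x.den : ℤ) := hcop.pow_left
    have h2 : m = x.num ^ 3 + x.den * (A * x.num * x.den + B * x.den ^ 2) := by rw [hm]; ring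
    rw [h2]
    exact (h1.add_mul_left_left _).symm
  have hz : (y * x.den ^ 2) ^ 2 = ((x.den * m : ℤ) : ℚ) := by
    rw [hm]
    push_cast
    rw [← hx]
    have : (y * (x.den : ℚ) ^ 2) ^ 2 = y ^ 2 * x.den ^ 4 := by ring
    rw [this, he]
    ring
  have hint : (y * (x.den : ℚ) ^ 2).den = 1 := by
    have h1 := congrArg Rat.den hz
    rw [Rat.den_pow, Rat.den_intCast] at h1
    exact (Nat.pow_eq_one.1 h1).resolve_right (by norm_num)
  obtain ⟨s, hs⟩ : ∃ s : ℤ, (s : ℚ) = y * x.den ^ 2 :=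
    ⟨(y * (x.den : ℚ) ^ 2).num, Rat.den_eq_one_iff _ |>.1 hint⟩
  have hsm : (x.den : ℤ) * m = s ^ 2 := by
    rw [← hs] at hz
    exact_mod_cast hz.symm
  obtain ⟨e₀, he₀⟩ := Int.sq_of_isCoprime hmc hsm
  have hdpos : (0 : ℤ) < x.den := by exact_mod_cast x.den_pos
  have he₀' : (x.den : ℤ) = e₀ ^ 2 := by
    rcases he₀ with h | h
    · exact h
    · nlinarith [sq_nonneg e₀]
  have hden : x.den = e₀.natAbs ^ 2 := by
    zify
    rw [sq_abs]
    exact he₀'
  have hepos : 0 < e₀.natAbs := by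
    rw [Nat.pos_iff_ne_zero]
    intro h
    rw [h] at hden
    exact x.den_nz (by rw [hden]; norm_num)
  have hes : e₀ ∣ s := by
    have : e₀ ^ 2 ∣ s ^ 2 := by
      rw [← he₀', ← hsm]
      exact dvd_mul_right _ _
    exact (Int.pow_dvd_pow_iff two_ne_zero).1 this
  have hes' : (e₀.natAbs : ℤ) ∣ s := Int.natAbs_dvd.2 hes
  generalize e₀.natAbs = e at hden hepos hes'
  obtain ⟨b, hb⟩ := hes'
  have heQ : (e : ℚ) ≠ 0 := by exact_mod_cast hepos.ne'
  have hdenQ : (x.den : ℚ) = (e : ℚ) ^ 2 := by exact_mod_cast hden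
  refine ⟨b, e, hepos, ?_, ?_, ?_, hden⟩
  · rw [hden] at hcop
    push_cast at hcop
    have := (IsCoprime.pow_right_iff (by norm_num : 0 < 2)).1 hcop
    exact_mod_cast this
  · rw [← hdenQ, eq_div_iff hd0]
    exact hx
  · have h1 : (s : ℚ) = (e : ℚ) * b := by exact_mod_cast hb
    rw [h1, hdenQ] at hs
    rw [eq_div_iff (pow_ne_zero 3 heQ)]
    apply mul_left_cancel₀ heQ
    linear_combination -hs

/-- the square root of the denominator of the first coordinate, `0` at the origin -/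
def dn : (EQ A B).Point → ℕ
  | .zero => 0
  | .some x _ _ => Nat.sqrt x.den

lemma dn_zero : dn (0 : (EQ A B).Point) = 0 := rfl

/-- a rational point in lowest terms -/
theorem dn_rep {x y : ℚ} (h : (EQ A B).Nonsingular x y) :
    ∃ a b : ℤ, 0 < dn (Affine.Point.some x y h) ∧
      IsCoprime a (dn (Affine.Point.some x y h) : ℤ) ∧
      x = a / (dn (Affine.Point.some x y h) : ℚ) ^ 2 ∧
      y = b / (dn (Affine.Point.some x y h) : ℚ) ^ 3 ∧
      b ^ 2 = a ^ 3 + A * a * dn (Affine.Point.some x y h) ^ 4 +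
        B * dn (Affine.Point.some x y h) ^ 6 ∧
      x.den = dn (Affine.Point.some x y h) ^ 2 ∧ x.num = a := by
  have he := (eq_iff x y).1 h.1
  obtain ⟨b, e, hepos, hc, hx, hy, hden⟩ := exists_rep he
  have hdn : dn (Affine.Point.some x y h) = e := by
    show Nat.sqrt x.den = e
    rw [hden, Nat.sqrt_eq']
  rw [hdn]
  have heQ : (e : ℚ) ≠ 0 := by exact_mod_cast hepos.ne'
  refine ⟨x.num, b, hepos, hc, hx, hy, ?_, hden, rfl⟩
  rw [hx, hy] at he
  have h2 : ((b : ℚ)) ^ 2 = (x.num : ℚ) ^ 3 + A * x.num * e ^ 4 + B * e ^ 6 := by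
    have h6 : ((e : ℚ)) ^ 6 ≠ 0 := pow_ne_zero _ heQ
    have e1 : ((b : ℚ) / e ^ 3) ^ 2 * e ^ 6 = b ^ 2 := by field_simp
    have e2 : (((x.num : ℚ) / e ^ 2) ^ 3 + A * (x.num / e ^ 2) + B) * e ^ 6 =
        (x.num : ℚ) ^ 3 + A * x.num * e ^ 4 + B * e ^ 6 := by field_simp
    rw [← e1, ← e2]
    rw [← hx] at he ⊢
    rw [he]
  exact_mod_cast h2

lemma dn_eq_zero {P : (EQ A B).Point} : dn P = 0 ↔ P = 0 := by
  rcases P with _ | ⟨x, y, h⟩
  · exact ⟨fun _ => rfl, fun _ => rfl⟩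
  · constructor
    · intro h1
      obtain ⟨-, -, h2, -⟩ := dn_rep h
      omega
    · intro h1
      exact absurd h1 (Affine.Point.some_ne_zero _)

lemma dn_neg (P : (EQ A B).Point) : dn (-P) = dn P := by
  rcases P with _ | ⟨x, y, h⟩
  · rfl
  · rw [Affine.Point.neg_some]
    rfl

end Pool.Agent.Helper316_PR
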