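import Pool.Agent.Helper316_PR.EOne
import Pool.Agent.Helper316_PR.Add
import Pool.Agent.Helper316_PR.PolyMod

/-!
# The parameter `t = -x / y` on the kernel of the reduction
-/

set_option autoImplicit false

namespace Pool.Agent.Helper316_PR

open WeierstrassCurve Pool.Agent.Y732 Pool.Agent.Y809.BSD14

variable {A B : ℤ} {p : ℕ} [hp : Fact p.Prime]

/-- an element of `ℤ_p` from an element of `ℚ_p`; zero if it is not integral -/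
noncomputable def toZ (z : ℚ_[p]) : ℤ_[p] := if h : ‖z‖ ≤ 1 then (⟨z, h⟩ : ℤ_[p]) else 0

lemma coe_toZ {z : ℚ_[p]} (h : ‖z‖ ≤ 1) : ((toZ z : ℤ_[p]) : ℚ_[p]) = z := by
  have : toZ z = (⟨z, h⟩ : ℤ_[p]) := dif_pos h
  rw [this]

lemma dvd_toZ {z : ℚ_[p]} (h : ‖z‖ < 1) : (p : ℤ_[p]) ∣ toZ z := by
  rw [← PadicInt.norm_lt_one_iff_dvd, PadicInt.norm_def, coe_toZ h.le]
  exact h

/-- `t = -x / y` -/
noncomputable def tz (p : ℕ) [Fact p.Prime] : (EQ A B).Point → ℤ_[p]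
  | .zero => 0
  | .some x y _ => toZ (((-x / y : ℚ)) : ℚ_[p])

/-- `w = -1 / y` -/
noncomputable def wz (p : ℕ) [Fact p.Prime] : (EQ A B).Point → ℤ_[p]
  | .zero => 0
  | .some _ y _ => toZ (((-1 / y : ℚ)) : ℚ_[p])

/-- the sizes of the coordinates -/
lemma sizes {x y : ℚ} (h : (EQ A B).Nonsingular x y) (hx : 1 < ‖(x : ℚ_[p])‖) :
    1 < ‖(y : ℚ_[p])‖ ∧ ‖(y : ℚ_[p])‖ ^ 2 = ‖(x : ℚ_[p])‖ ^ 3 := by
  have he : (y : ℚ_[p]) ^ 2 = (x : ℚ_[p]) ^ 3 + (((A : ℤ) : ℚ_[p]) * x + ((B : ℤ) : ℚ_[p])) := by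
    have : y ^ 2 = x ^ 3 + (A * x + B) := by rw [(eq_iff x y).1 h.1]; ring
    exact_mod_cast congrArg (fun z : ℚ => (z : ℚ_[p])) this
  have h1 : ‖((A : ℤ) : ℚ_[p]) * x + ((B : ℤ) : ℚ_[p])‖ ≤ ‖(x : ℚ_[p])‖ := by
    refine (IsUltrametricDist.norm_add_le_max _ _).trans (max_le ?_ ?_)
    · rw [norm_mul]
      exact mul_le_of_le_one_left (norm_nonneg _) (Padic.norm_int_le_one A)
    · exact (Padic.norm_int_le_one B).trans hx.le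
  have h2 : ‖(y : ℚ_[p])‖ ^ 2 = ‖(x : ℚ_[p])‖ ^ 3 := by
    rw [← norm_pow, ← norm_pow, he]
    apply norm_eq_of_lt
    rw [norm_pow]
    calc _ ≤ ‖(x : ℚ_[p])‖ := h1
      _ < ‖(x : ℚ_[p])‖ ^ 3 := by nlinarith [mul_pos (sub_pos.2 hx) (sub_pos.2 hx)]
  refine ⟨?_, h2⟩
  by_contra h3
  rw [not_lt] at h3
  have h4 : ‖(y : ℚ_[p])‖ ^ 2 ≤ 1 := pow_le_one₀ (norm_nonneg _) h3
  have h5 : 1 < ‖(x : ℚ_[p])‖ ^ 3 := one_lt_pow₀ hx (by norm_num)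
  linarith

lemma y_ne_zero {x y : ℚ} (h : (EQ A B).Nonsingular x y) (hx : 1 < ‖(x : ℚ_[p])‖) : y ≠ 0 := by
  rintro rfl
  have := (sizes h hx).1
  rw [Rat.cast_zero, norm_zero] at this
  linarith

lemma norm_t_lt {x y : ℚ} (h : (EQ A B).Nonsingular x y) (hx : 1 < ‖(x : ℚ_[p])‖) :
    ‖(((-x / y : ℚ)) : ℚ_[p])‖ < 1 := by
  obtain ⟨h1, h2⟩ := sizes h hx
  push_cast
  rw [norm_div, norm_neg, div_lt_one (by linarith)]
  by_contra h3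
  rw [not_lt] at h3
  have h4 : ‖(y : ℚ_[p])‖ ^ 2 ≤ ‖(x : ℚ_[p])‖ ^ 2 := pow_le_pow_left₀ (norm_nonneg _) h3 2
  have h5 : ‖(x : ℚ_[p])‖ ^ 2 < ‖(x : ℚ_[p])‖ ^ 3 := pow_lt_pow_right₀ hx (by norm_num)
  linarith

lemma norm_w_lt {x y : ℚ} (h : (EQ A B).Nonsingular x y) (hx : 1 < ‖(x : ℚ_[p])‖) :
    ‖(((-1 / y : ℚ)) : ℚ_[p])‖ < 1 := by
  obtain ⟨h1, -⟩ := sizes h hx
  push_cast
  rw [norm_div, norm_neg, norm_one, div_lt_one (by linarith)]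
  exact h1

lemma coe_tz {x y : ℚ} (h : (EQ A B).Nonsingular x y) (hx : 1 < ‖(x : ℚ_[p])‖) :
    ((tz p (Affine.Point.some x y h) : ℤ_[p]) : ℚ_[p]) = ((-x / y : ℚ) : ℚ_[p]) :=
  coe_toZ (norm_t_lt h hx).le

lemma coe_wz {x y : ℚ} (h : (EQ A B).Nonsingular x y) (hx : 1 < ‖(x : ℚ_[p])‖) :
    ((wz p (Affine.Point.some x y h) : ℤ_[p]) : ℚ_[p]) = ((-1 / y : ℚ) : ℚ_[p]) :=
  coe_toZ (norm_w_lt h hx).le

lemma dvd_tz {P : (EQ A B).Point} (hP : P ∈ E1 A B p) : (p : ℤ_[p]) ∣ tz p P := by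
  rcases P with _ | ⟨x, y, h⟩
  · exact dvd_zero _
  · rw [mem_E1, dvd_dn_iff] at hP
    exact dvd_toZ (norm_t_lt h hP)

lemma dvd_wz {P : (EQ A B).Point} (hP : P ∈ E1 A B p) : (p : ℤ_[p]) ∣ wz p P := by
  rcases P with _ | ⟨x, y, h⟩
  · exact dvd_zero _
  · rw [mem_E1, dvd_dn_iff] at hP
    exact dvd_toZ (norm_w_lt h hP)

/-- the equation of the curve -/
lemma wz_eq {P : (EQ A B).Point} (hP : P ∈ E1 A B p) :
    wz p P = tz p P ^ 3 + A * tz p P * wz p P ^ 2 + B * wz p P ^ 3 := by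
  rcases P with _ | ⟨x, y, h⟩
  · simp [wz, tz]
  · rw [mem_E1, dvd_dn_iff] at hP
    have hy := y_ne_zero h hP
    have key := tw_eqn (K := ℚ) (A := A) (B := B) (t := -x / y) (w := -1 / y)
      ((eq_iff x y).1 h.1) hy (by field_simp) (by field_simp)
    apply Subtype.coe_injective
    push_cast
    rw [coe_tz h hP, coe_wz h hP]
    exact_mod_cast congrArg (fun z : ℚ => (z : ℚ_[p])) key

/-- the addition in the parameter `t` -/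
theorem tz_add {P Q : (EQ A B).Point} (hP : P ∈ E1 A B p) (hQ : Q ∈ E1 A B p) (hP0 : P ≠ 0)
    (hQ0 : Q ≠ 0) (h1 : P ≠ Q) (h2 : P ≠ -Q) {l n : ℤ_[p]}
    (hl : l * (1 - A * tz p Q * (wz p P + wz p Q) -
      B * (wz p P ^ 2 + wz p P * wz p Q + wz p Q ^ 2)) =
        tz p P ^ 2 + tz p P * tz p Q + tz p Q ^ 2 + A * wz p P ^ 2)
    (hn : n = wz p P - l * tz p P) :
    tz p (P + Q) * (1 + A * l ^ 2 + B * l ^ 3) =
      (tz p P + tz p Q) * (1 + A * l ^ 2 + B * l ^ 3) + 2 * A * l * n + 3 * B * l ^ 2 * n := by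
  have hPQ := (E1 A B p).add_mem hP hQ
  have dP := dvd_wz hP
  have dQ := dvd_wz hQ
  have dtP := dvd_tz hP
  have dtQ := dvd_tz hQ
  have unit_ne : ∀ z : ℤ_[p], (p : ℤ_[p]) ∣ z → (1 + z : ℤ_[p]) ≠ 0 := by
    intro z hz h
    have : (p : ℤ_[p]) ∣ 1 := by
      have h3 := dvd_sub (dvd_zero (p : ℤ_[p])) hz
      rw [← h] at h3
      simpa using h3
    exact PadicInt.prime_p.not_isUnit (isUnit_of_dvd_one this)
  have hden1 : (1 - A * tz p Q * (wz p P + wz p Q) -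
      B * (wz p P ^ 2 + wz p P * wz p Q + wz p Q ^ 2) : ℤ_[p]) ≠ 0 := by
    have := unit_ne (-(A * tz p Q * (wz p P + wz p Q)) -
      B * (wz p P ^ 2 + wz p P * wz p Q + wz p Q ^ 2)) (by
        refine dvd_sub (((dtQ.mul_left _).mul_right _).neg_right) (Dvd.dvd.mul_left ?_ _)
        exact dvd_add (dvd_add (dP.trans (dvd_pow_self _ two_ne_zero)) (dP.mul_right _))
          (dQ.trans (dvd_pow_self _ two_ne_zero)))
    intro h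
    apply this
    linear_combination h
  have hdl : (p : ℤ_[p]) ∣ l := by
    have h3 : (p : ℤ_[p]) ∣ l * (1 - A * tz p Q * (wz p P + wz p Q) -
      B * (wz p P ^ 2 + wz p P * wz p Q + wz p Q ^ 2)) := by
      rw [hl]
      exact dvd_add (dvd_add (dvd_add (dtP.trans (dvd_pow_self _ two_ne_zero)) (dtP.mul_right _))
        (dtQ.trans (dvd_pow_self _ two_ne_zero))) ((dP.trans (dvd_pow_self _ two_ne_zero)).mul_left _)
    have h4 : l = l * (1 - A * tz p Q * (wz p P + wz p Q) -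
      B * (wz p P ^ 2 + wz p P * wz p Q + wz p Q ^ 2)) + l * (A * tz p Q * (wz p P + wz p Q) +
      B * (wz p P ^ 2 + wz p P * wz p Q + wz p Q ^ 2)) := by ring
    rw [h4]
    refine dvd_add h3 (Dvd.dvd.mul_left ?_ _)
    refine dvd_add ((dtQ.mul_left _).mul_right _) (Dvd.dvd.mul_left ?_ _)
    exact dvd_add (dvd_add (dP.trans (dvd_pow_self _ two_ne_zero)) (dP.mul_right _))
          (dQ.trans (dvd_pow_self _ two_ne_zero))
  have hden2 : (1 + A * l ^ 2 + B * l ^ 3 : ℤ_[p]) ≠ 0 := by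
    have := unit_ne (A * l ^ 2 + B * l ^ 3) (dvd_add
      ((hdl.trans (dvd_pow_self _ two_ne_zero)).mul_left _)
      ((hdl.trans (dvd_pow_self _ three_ne_zero)).mul_left _))
    intro h
    apply this
    linear_combination h
  rcases P with _ | ⟨x₁, y₁, g₁⟩
  · exact absurd rfl hP0
  rcases Q with _ | ⟨x₂, y₂, g₂⟩
  · exact absurd rfl hQ0
  have hx : x₁ ≠ x₂ := by
    intro hx
    have h3 : (Affine.Point.some x₁ y₁ g₁ : (EQ A B).Point) = Affine.Point.some x₂ y₂ g₂ ∨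
        (Affine.Point.some x₁ y₁ g₁ : (EQ A B).Point) = -Affine.Point.some x₂ y₂ g₂ := by
      apply Affine.Point.eq_or_eq_neg_of_xRep_eq_xRep
      rw [Affine.Point.xRep_some, Affine.Point.xRep_some, hx]
    exact h3.elim h1 h2
  have hP' := (dvd_dn_iff g₁).1 ((mem_E1).1 hP)
  have hQ' := (dvd_dn_iff g₂).1 ((mem_E1).1 hQ)
  have hy₁ := y_ne_zero g₁ hP'
  have hy₂ := y_ne_zero g₂ hQ'
  have ct₁ := coe_tz g₁ hP'
  have cw₁ := coe_wz g₁ hP'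
  have ct₂ := coe_tz g₂ hQ'
  have cw₂ := coe_wz g₂ hQ'
  have hy₁' : (y₁ : ℚ_[p]) ≠ 0 := by exact_mod_cast hy₁
  have hy₂' : (y₂ : ℚ_[p]) ≠ 0 := by exact_mod_cast hy₂
  have hx'' : (x₁ : ℚ_[p]) - x₂ ≠ 0 := by
    rw [sub_ne_zero]
    exact_mod_cast hx
  -- the sum
  have hs := Affine.slope_of_X_ne (W := EQ A B) (y₁ := y₁) (y₂ := y₂) hx
  have e1 : (EQ A B).a₁ = 0 := rfl
  have e2 : (EQ A B).a₂ = 0 := rfl
  have e3 : (EQ A B).a₃ = 0 := rfl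
  have hX : (EQ A B).addX x₁ x₂ ((EQ A B).slope x₁ x₂ y₁ y₂) =
      ((y₁ - y₂) / (x₁ - x₂)) ^ 2 - x₁ - x₂ := by
    rw [Affine.addX, hs, e1, e2]
    ring
  have hY : (EQ A B).addY x₁ x₂ y₁ ((EQ A B).slope x₁ x₂ y₁ y₂) =
      -(((y₁ - y₂) / (x₁ - x₂)) * ((((y₁ - y₂) / (x₁ - x₂)) ^ 2 - x₁ - x₂) - x₁) + y₁) := by
    rw [Affine.addY, negY_eq, Affine.negAddY, hX, hs]
  obtain ⟨x₃, y₃, g₃, hsum, hx₃, hy₃'⟩ : ∃ (x₃ y₃ : ℚ) (g₃ : (EQ A B).Nonsingular x₃ y₃),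
      (Affine.Point.some x₁ y₁ g₁ : (EQ A B).Point) + Affine.Point.some x₂ y₂ g₂ =
        Affine.Point.some x₃ y₃ g₃ ∧ x₃ = ((y₁ - y₂) / (x₁ - x₂)) ^ 2 - x₁ - x₂ ∧
        y₃ = -(((y₁ - y₂) / (x₁ - x₂)) * ((((y₁ - y₂) / (x₁ - x₂)) ^ 2 - x₁ - x₂) - x₁) + y₁) :=
    ⟨_, _, _, Affine.Point.add_of_X_ne (W := EQ A B) (h₁ := g₁) (h₂ := g₂) hx, hX, hY⟩
  rw [hsum] at hPQ ⊢
  rw [mem_E1, dvd_dn_iff] at hPQ
  have ct₃ := coe_tz g₃ hPQ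
  obtain ⟨hy₃, key⟩ := t_add (K := ℚ_[p]) (A := ((A : ℤ) : ℚ_[p])) (B := ((B : ℤ) : ℚ_[p]))
    (x₁ := x₁) (y₁ := y₁) (x₂ := x₂) (y₂ := y₂)
    (t₁ := (tz p (Affine.Point.some x₁ y₁ g₁ : (EQ A B).Point) : ℤ_[p]))
    (w₁ := (wz p (Affine.Point.some x₁ y₁ g₁ : (EQ A B).Point) : ℤ_[p]))
    (t₂ := (tz p (Affine.Point.some x₂ y₂ g₂ : (EQ A B).Point) : ℤ_[p]))
    (w₂ := (wz p (Affine.Point.some x₂ y₂ g₂ : (EQ A B).Point) : ℤ_[p]))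
    (l := (l : ℚ_[p])) (n := (n : ℚ_[p]))
    (by exact_mod_cast congrArg (fun z : ℚ => (z : ℚ_[p])) ((eq_iff _ _).1 g₁.1))
    (by exact_mod_cast congrArg (fun z : ℚ => (z : ℚ_[p])) ((eq_iff _ _).1 g₂.1))
    (by exact_mod_cast hx) hy₁' hy₂'
    (by rw [ct₁]; push_cast; field_simp) (by rw [cw₁]; push_cast; field_simp)
    (by rw [ct₂]; push_cast; field_simp) (by rw [cw₂]; push_cast; field_simp)
    (by
      intro h
      apply hden1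
      apply Subtype.coe_injective
      push_cast
      exact h)
    (by exact_mod_cast congrArg (fun z : ℤ_[p] => (z : ℚ_[p])) hl)
    (by rw [hn]; push_cast; ring)
    (by
      intro h
      apply hden2
      apply Subtype.coe_injective
      push_cast
      exact h)
    (((y₁ : ℚ_[p]) - y₂) / (x₁ - x₂)) ((((y₁ : ℚ_[p]) - y₂) / (x₁ - x₂)) ^ 2 - x₁ - x₂)
    (-((((y₁ : ℚ_[p]) - y₂) / (x₁ - x₂)) * (((((y₁ : ℚ_[p]) - y₂) / (x₁ - x₂)) ^ 2 - x₁ - x₂) - x₁)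
      + y₁)) (by field_simp) rfl rfl
  apply Subtype.coe_injective
  push_cast
  apply key
  rw [ct₃, hx₃, hy₃']
  push_cast
  exact div_mul_cancel₀ _ hy₃

end Pool.Agent.Helper316_PR
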