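import Pool.Agent.Helper316_PR.Mul
import Pool.Agent.Helper316_PR.PMT
import Pool.Agent.Y732.Log2

/-!
# The good subgroup and the unit part of the value of the sigma function
-/

set_option autoImplicit false

namespace Pool.Agent.Helper316_PR

open WeierstrassCurve Pool.Agent.Y732

variable {A B : ℤ} {p : ℕ} [hp : Fact p.Prime]

/-- the points which reduce to the origin modulo `p` and modulo the primes dividing twice the
discriminant -/
def Gd (A B : ℤ) (p : ℕ) [hp : Fact p.Prime] : AddSubgroup (EQ A B).Point where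
  carrier := {P | p ∣ dn P ∧ ∀ ℓ : ℕ, ℓ.Prime → (ℓ : ℤ) ∣ 2 * (4 * A ^ 3 + 27 * B ^ 2) → ℓ ∣ dn P}
  zero_mem' := ⟨dvd_zero _, fun _ _ _ => dvd_zero _⟩
  neg_mem' := by
    rintro P ⟨h1, h2⟩
    refine ⟨?_, fun ℓ hℓ hd => ?_⟩
    · rw [dn_neg]
      exact h1
    · rw [dn_neg]
      exact h2 ℓ hℓ hd
  add_mem' := by
    rintro P Q ⟨h1, h2⟩ ⟨h3, h4⟩
    refine ⟨(E1 A B p).add_mem h1 h3, fun ℓ hℓ hd => ?_⟩
    have : Fact ℓ.Prime := ⟨hℓ⟩
    exact (E1 A B ℓ).add_mem (h2 ℓ hℓ hd) (h4 ℓ hℓ hd)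

lemma mem_Gd {P : (EQ A B).Point} : P ∈ Gd A B p ↔ p ∣ dn P ∧
    ∀ ℓ : ℕ, ℓ.Prime → (ℓ : ℤ) ∣ 2 * (4 * A ^ 3 + 27 * B ^ 2) → ℓ ∣ dn P := Iff.rfl

lemma Gd_le : Gd A B p ≤ E1 A B p := fun _ h => h.1

/-- some multiple is in the good subgroup -/
theorem exists_mul_mem_Gd (hD : 4 * A ^ 3 + 27 * B ^ 2 ≠ 0) (P : (EQ A B).Point) :
    ∃ m : ℕ, 0 < m ∧ m • P ∈ Gd A B p := by
  classical
  have key : ∀ s : Finset ℕ, ∃ m : ℕ, 0 < m ∧ ∀ ℓ ∈ s, ℓ.Prime → ℓ ∣ dn (m • P) := by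
    intro s
    induction s using Finset.induction_on with
    | empty => exact ⟨1, one_pos, fun ℓ hℓ => absurd hℓ (Finset.notMem_empty _)⟩
    | insert a s ha ih =>
      obtain ⟨m, hm, h⟩ := ih
      by_cases hpr : a.Prime
      · haveI : Fact a.Prime := ⟨hpr⟩
        obtain ⟨k, hk, h1⟩ := exists_mul_mem (ℓ := a) hD P
        refine ⟨k * m, Nat.mul_pos hk hm, fun ℓ hℓ hℓp => ?_⟩
        have : Fact ℓ.Prime := ⟨hℓp⟩
        rcases Finset.mem_insert.1 hℓ with rfl | h2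
        · rw [mul_comm, mul_smul]
          exact (E1 A B ℓ).nsmul_mem h1 m
        · rw [mul_smul]
          exact (E1 A B ℓ).nsmul_mem (h ℓ h2 hℓp) k
      · refine ⟨m, hm, fun ℓ hℓ hℓp => ?_⟩
        rcases Finset.mem_insert.1 hℓ with rfl | h2
        · exact absurd hℓp hpr
        · exact h ℓ h2 hℓp
  have hN : (2 * (4 * A ^ 3 + 27 * B ^ 2)) ≠ 0 := mul_ne_zero two_ne_zero hD
  obtain ⟨m, hm, h⟩ := key (insert p (2 * (4 * A ^ 3 + 27 * B ^ 2)).natAbs.primeFactors)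
  refine ⟨m, hm, h p (Finset.mem_insert_self _ _) hp.out, fun ℓ hℓ hd => ?_⟩
  refine h ℓ (Finset.mem_insert_of_mem ?_) hℓ
  rw [Nat.mem_primeFactors]
  exact ⟨hℓ, Int.natCast_dvd.1 hd, by rw [Ne, Int.natAbs_eq_zero]; exact hN⟩

/-- some multiples are in the good subgroup -/
theorem exists_mul_mem_Gd_fin (hD : 4 * A ^ 3 + 27 * B ^ 2 ≠ 0) {ι : Type*} [Fintype ι]
    (P : ι → (EQ A B).Point) : ∃ m : ℕ, 0 < m ∧ ∀ i, m • P i ∈ Gd A B p := by
  classical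
  choose m hm h using fun i => exists_mul_mem_Gd (p := p) hD (P i)
  refine ⟨∏ i, m i, Finset.prod_pos fun i _ => hm i, fun i => ?_⟩
  rw [← Finset.mul_prod_erase Finset.univ m (Finset.mem_univ i), mul_comm, mul_smul]
  exact (Gd A B p).nsmul_mem (h i) _

lemma height_zero {h : (EQ A B).Point → ℚ_[p]}
    (hq : ∀ P Q, h (P + Q) + h (P - Q) = 2 * h P + 2 * h Q) : h 0 = 0 := by
  have := quadratic hq 0 0
  simpa using this

lemma plog_one : plog p (1 : ℚ_[p]) = 0 := by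
  unfold plog
  simp

/-- the unit part of the value of the sigma function -/
theorem exists_rho (hD : 4 * A ^ 3 + 27 * B ^ 2 ≠ 0) {h : (EQ A B).Point → ℚ_[p]}
    (hh : IsHeight p A B h) : ∃ (σ : PowerSeries ℤ_[p]), ∀ P ∈ Gd A B p, ∃ ρ : ℤ_[p], ‖ρ‖ = 1 ∧
      (dn P : ℤ_[p]) * ρ = ev (tz p P) σ ∧ h P = plog p ρ := by
  obtain ⟨hq, σ, hσ, hf⟩ := hh
  obtain ⟨s, rfl, ⟨d⟩⟩ := hσ.dat
  refine ⟨PowerSeries.X * s, fun P hP => ?_⟩
  rcases P with _ | ⟨x, y, hns⟩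
  · refine ⟨1, norm_one, ?_, ?_⟩
    · rw [ev_X_mul (dvd_tz (Gd_le hP))]
      simp [tz, ← Affine.Point.zero_def, dn_zero]
    · rw [PadicInt.coe_one, plog_one]
      exact height_zero hq
  · obtain ⟨hP1, hP2⟩ := hP
    obtain ⟨a, b, he0, hc, hx, hy, hab, -, -⟩ := dn_rep hns
    have htz := coe_tz hns ((dvd_dn_iff hns).1 hP1)
    have hpt := dvd_tz (P := Affine.Point.some x y hns) hP1
    generalize dn (Affine.Point.some x y hns) = e at hP1 hP2 he0 hc hx hy hab ⊢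
    generalize tz p (Affine.Point.some x y hns) = t at htz hpt ⊢
    have heQ : (e : ℚ) ≠ 0 := by exact_mod_cast he0.ne'
    have hpe : (p : ℤ) ∣ (e : ℤ) := by exact_mod_cast hP1
    have hppr := Nat.prime_iff_prime_int.1 hp.out
    have ha : ¬ (p : ℤ) ∣ a := fun h => hppr.not_isUnit (hc.isUnit_of_dvd' h hpe)
    have hb : ¬ (p : ℤ) ∣ b := by
      intro h
      apply ha
      apply hppr.dvd_of_dvd_pow (n := 3)
      have h4 : a ^ 3 = b * b - (e : ℤ) * (A * a * e ^ 3 + B * e ^ 5) := by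
        linear_combination -hab
      rw [h4]
      exact dvd_sub (h.mul_right _) (hpe.mul_right _)
    have hb0 : b ≠ 0 := by
      rintro rfl
      exact hb (dvd_zero _)
    have haU := not_dvd_unit (p := p) ha
    have hbU := not_dvd_unit (p := p) hb
    have hbQ : (b : ℚ) ≠ 0 := by exact_mod_cast hb0
    have hbt : (b : ℤ_[p]) * t = -(a * (e : ℤ)) := by
      apply Subtype.coe_injective
      push_cast
      rw [htz]
      have h1 : (b : ℚ) * (-x / y) = -(a * e) := by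
        rw [hx, hy]
        field_simp
      exact_mod_cast congrArg (fun z : ℚ => (z : ℚ_[p])) h1
    obtain ⟨r, hr⟩ := hbU.exists_right_inv
    have hbt' : (b : ℤ_[p]) * t = -(a * (e : ℤ_[p])) := by
      rw [hbt, Int.cast_natCast]
    have ht : t = -(a * (e : ℤ_[p])) * r := by
      linear_combination r * hbt' - t * hr
    have hE := ev_unit hpt d.s0
    have hns' : (EQ A B).Nonsingular ((a : ℚ) / ((e : ℤ) : ℚ) ^ 2) ((b : ℚ) / ((e : ℤ) : ℚ) ^ 3) := by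
      have e1 : (a : ℚ) / ((e : ℤ) : ℚ) ^ 2 = x := by rw [hx]; push_cast; rfl
      have e2 : (b : ℚ) / ((e : ℤ) : ℚ) ^ 3 = y := by rw [hy]; push_cast; rfl
      rw [e1, e2]
      exact hns
    have hcond : ∀ ℓ : ℕ, ℓ.Prime → (ℓ : ℤ) ∣ (e : ℤ) ∨
        ¬ ((ℓ : ℤ) ∣ 2 * b ∧ (ℓ : ℤ) ∣ 3 * a ^ 2 + A * (e : ℤ) ^ 4) := by
      intro ℓ hℓ
      by_cases h1 : (ℓ : ℤ) ∣ 2 * (4 * A ^ 3 + 27 * B ^ 2)
      · exact Or.inl (by exact_mod_cast hP2 ℓ hℓ h1)
      · by_cases h0 : (ℓ : ℤ) ∣ (e : ℤ)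
        · exact Or.inl h0
        refine Or.inr ?_
        rintro ⟨h2, h3⟩
        have hpr := Nat.prime_iff_prime_int.1 hℓ
        have h4 : (ℓ : ℤ) ∣ (4 * A ^ 3 + 27 * B ^ 2) * (e : ℤ) ^ 12 := by
          have hid : (4 * A ^ 3 + 27 * B ^ 2) * (e : ℤ) ^ 12 =
              (3 * a ^ 2 + A * (e : ℤ) ^ 4) * ((3 * a ^ 2 + 4 * A * e ^ 4) *
                (3 * a ^ 2 + A * (e : ℤ) ^ 4)) - b * (27 * (a ^ 3 + A * a * e ^ 4 - B * e ^ 6) * b) := by
            linear_combination (27 * (a ^ 3 + A * a * (e : ℤ) ^ 4 - B * e ^ 6)) * hab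
          rw [hid]
          refine dvd_sub (h3.mul_right _) (Dvd.dvd.mul_right ?_ _)
          rcases hpr.dvd_or_dvd h2 with h5 | h5
          · exact absurd (h5.mul_right _) h1
          · exact h5
        rcases hpr.dvd_or_dvd h4 with h5 | h5
        · exact h1 (h5.mul_left _)
        · exact h0 (hpr.dvd_of_dvd_pow h5)
    have h1 := hf a b e hns' t (by exact_mod_cast he0.ne') hc hpe hcond hbt
    have hPe : (Affine.Point.some _ _ hns' : (EQ A B).Point) = Affine.Point.some x y hns := by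
      congr 1
      · rw [hx]; push_cast; rfl
      · rw [hy]; push_cast; rfl
    rw [hPe] at h1
    obtain ⟨z, hz⟩ : ∃ z : ℤ_[p], z = -(a * r) * ev t s := ⟨_, rfl⟩
    have hzU : IsUnit z := by
      rw [hz]
      exact ((haU.mul (IsUnit.of_mul_eq_one b (by rw [mul_comm]; exact hr))).neg).mul hE
    refine ⟨z, PadicInt.isUnit_iff.1 hzU, ?_, ?_⟩
    · have h8 : (e : ℤ_[p]) * z = t * ev t s := by
        rw [hz]
        linear_combination (-(ev t s)) * ht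
      rw [ev_X_mul hpt, h8]
    · rw [h1]
      congr 1
      have heQ : ((e : ℤ) : ℚ_[p]) ≠ 0 := by exact_mod_cast he0.ne'
      have h8 : t * ev t s = z * (e : ℤ_[p]) := by
        rw [hz]
        linear_combination (ev t s) * ht
      rw [div_eq_iff heQ, ev_X_mul hpt, h8]
      push_cast
      ring

/-- one-units from units -/
lemma dvd_pow_sub_one {ρ : ℤ_[p]} (h : ‖ρ‖ = 1) : (p : ℤ_[p]) ∣ ρ ^ (4 * (p - 1)) - 1 := by
  have h1 := norm_pow_sub_one_le (z := (ρ : ℚ_[p])) h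
  have h2 : (p : ℤ_[p]) ∣ ρ ^ (p - 1) - 1 := by
    have : ‖ρ ^ (p - 1) - 1‖ < 1 := by
      rw [PadicInt.norm_def]
      push_cast
      exact lt_of_le_of_lt h1 (inv_lt_one_of_one_lt₀ (by exact_mod_cast hp.out.one_lt))
    exact PadicInt.norm_lt_one_iff_dvd _ |>.1 this
  have h3 : ρ ^ (p - 1) - 1 ∣ ρ ^ (4 * (p - 1)) - 1 := by
    have := sub_dvd_pow_sub_pow (ρ ^ (p - 1)) 1 4
    rwa [one_pow, ← pow_mul, mul_comm (p - 1) 4] at this
  exact h2.trans h3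

lemma plog_pow {z : ℚ_[p]} (h : ‖z‖ = 1) (n : ℕ) : plog p (z ^ n) = n * plog p z := by
  induction n with
  | zero => rw [pow_zero, plog_one, Nat.cast_zero, zero_mul]
  | succ n ih =>
    rw [pow_succ, plog_mul (by rw [norm_pow, h, one_pow]) h, ih]
    push_cast
    ring

/-- the units -/
theorem exists_units (hD : 4 * A ^ 3 + 27 * B ^ 2 ≠ 0) {h : (EQ A B).Point → ℚ_[p]}
    (hh : IsHeight p A B h) : ∃ (σ : PowerSeries ℤ_[p]) (u v : (EQ A B).Point → ℤ_[p]),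
      ∀ P ∈ Gd A B p, (p : ℤ_[p]) ∣ u P - 1 ∧ u P * v P = 1 ∧
        (dn P : ℤ_[p]) ^ (4 * (p - 1)) * u P = ev (tz p P) σ ^ (4 * (p - 1)) ∧
        plog p (u P) = ((4 * (p - 1) : ℕ) : ℚ_[p]) * h P ∧
        plog p (v P) = -(((4 * (p - 1) : ℕ) : ℚ_[p]) * h P) := by
  classical
  obtain ⟨σ, hσ⟩ := exists_rho hD hh
  have key : ∀ P : (EQ A B).Point, ∃ u v : ℤ_[p], P ∈ Gd A B p →
      (p : ℤ_[p]) ∣ u - 1 ∧ u * v = 1 ∧
        (dn P : ℤ_[p]) ^ (4 * (p - 1)) * u = ev (tz p P) σ ^ (4 * (p - 1)) ∧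
        plog p u = ((4 * (p - 1) : ℕ) : ℚ_[p]) * h P ∧
        plog p v = -(((4 * (p - 1) : ℕ) : ℚ_[p]) * h P) := by
    intro P
    by_cases hP : P ∈ Gd A B p
    · obtain ⟨ρ, h1, h2, h3⟩ := hσ P hP
      have h4 := dvd_pow_sub_one h1
      obtain ⟨v, hv⟩ := exists_inv h4
      have h6 : plog p (ρ ^ (4 * (p - 1)) : ℤ_[p]) = ((4 * (p - 1) : ℕ) : ℚ_[p]) * h P := by
        rw [PadicInt.coe_pow, plog_pow h1, h3]
      refine ⟨ρ ^ (4 * (p - 1)), v, fun _ => ⟨h4, hv, ?_, h6, ?_⟩⟩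
      · rw [← mul_pow, h2]
      · have hnv : ‖(v : ℚ_[p])‖ = 1 := by
          have := congrArg norm hv
          rw [norm_mul, norm_pow, h1, one_pow, one_mul, norm_one] at this
          exact this
        have hnu : ‖((ρ ^ (4 * (p - 1)) : ℤ_[p]) : ℚ_[p])‖ = 1 := by
          rw [PadicInt.coe_pow, norm_pow]
          have : ‖(ρ : ℚ_[p])‖ = 1 := h1
          rw [this, one_pow]
        have h7 := plog_mul hnu hnv
        rw [← PadicInt.coe_mul, hv, PadicInt.coe_one, plog_one, h6] at h7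
        linear_combination -h7
    · exact ⟨1, 1, fun h => absurd h hP⟩
  choose u v huv using key
  exact ⟨σ, u, v, fun P hP => huv P hP⟩

end Pool.Agent.Helper316_PR
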